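import Pool.Agent.H93.EO.LsuB
set_option autoImplicit false

/-!
# H93/EO/Lsu: uniformization of Borel sets with nonmeager sections

Let `K` be as in `lsuA` for `B`. For `x ∈ D`: `cut_gen` and `not_gen_exists` give for every `n` a point
`y ∈ cut (n+1) x`, that is (`mem_cut_iff`) `(x, y) ∈ B` and `(x, y) ∈ K k (idx k x)` for all `k ≤ n`. By
`lsuA` (with `i = fun k => idx k x`) there is exactly one `y` with `(x, y) ∈ B ∩ ⋂_k K k (idx k x)`.
Let `Γ = {p : X × X | p.1 ∈ D ∧ p ∈ B ∧ ∀ k, p ∈ K k (idx k p.1)}`: measurable (`idx_meas`: the set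
`{p | p ∈ K k (idx k p.1)} = ⋃_i ({p | idx k p.1 = i} ∩ K k i)`), and `Prod.fst` is injective on `Γ`
(uniqueness), with image `D`. Let `s x` be the `y` with `(x, y) ∈ Γ` if `x ∈ D` and `s x = x` otherwise.
`s` is measurable: `s ⁻¹' A = Prod.fst '' (Γ ∩ Prod.snd ⁻¹' A) ∪ (Dᶜ ∩ A)`, and the image is measurable
by `MeasurableSet.image_of_measurable_injOn`.
-/

namespace Pool.Agent.H93.EO

open Set

variable {X : Type} [MeasurableSpace X] {F : X → X → Prop}

theorem lsu [StandardBorelSpace X] (S : GenStr X F) {B : Set (X × X)} (hB : MeasurableSet B)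
    {D : Set X} (hD : MeasurableSet D) (h : ∀ x ∈ D, ¬ S.gen x fun y => (x, y) ∉ B) :
    ∃ s : X → X, Measurable s ∧ ∀ x ∈ D, (x, s x) ∈ B := by
  classical
  obtain ⟨K, hKm, hKc, hKu⟩ := lsuA hB
  have hex : ∀ x ∈ D, ∃ y, ((x, y) ∈ B ∧ ∀ k, (x, y) ∈ K k (idx S K B k x)) ∧
      ∀ y', ((x, y') ∈ B ∧ ∀ k, (x, y') ∈ K k (idx S K B k x)) → y' = y := by
    intro x hx
    refine hKu x (fun k => idx S K B k x) fun n => ?_
    obtain ⟨y, -, hy⟩ := not_gen_exists (cut_gen S hKc (h x hx) (n + 1))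
    have hy' := (mem_cut_iff S K B (n + 1) x y).1 (not_not.1 hy)
    exact ⟨y, hy'.1, fun k hk => hy'.2 k (Nat.lt_succ_of_le hk)⟩
  choose! g hg hgu using hex
  obtain ⟨Γ, hΓ⟩ : ∃ Γ : Set (X × X), Γ = {p | p.1 ∈ D ∧ p ∈ B ∧
      ∀ k, p ∈ K k (idx S K B k p.1)} := ⟨_, rfl⟩
  have hΓm : MeasurableSet Γ := by
    have hk : ∀ k, MeasurableSet {p : X × X | p ∈ K k (idx S K B k p.1)} := by
      intro k
      have e : {p : X × X | p ∈ K k (idx S K B k p.1)} =
          ⋃ i, ((idx S K B k ∘ Prod.fst) ⁻¹' {i} ∩ K k i) := by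
        ext p
        simp only [mem_setOf_eq, mem_iUnion, mem_inter_iff, mem_preimage, Function.comp_apply,
          mem_singleton_iff]
        constructor
        · intro hp
          exact ⟨_, rfl, hp⟩
        · rintro ⟨i, rfl, hp⟩
          exact hp
      rw [e]
      exact MeasurableSet.iUnion fun i =>
        (((idx_meas S hKm hB k).comp measurable_fst) (measurableSet_singleton i)).inter (hKm k i)
    have e : Γ = (Prod.fst ⁻¹' D) ∩ (B ∩ ⋂ k, {p : X × X | p ∈ K k (idx S K B k p.1)}) := by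
      rw [hΓ]
      ext p
      simp only [mem_setOf_eq, mem_inter_iff, mem_iInter, mem_preimage]
    rw [e]
    exact (measurable_fst hD).inter (hB.inter (MeasurableSet.iInter hk))
  have hΓ1 : ∀ x ∈ D, (x, g x) ∈ Γ := by
    intro x hx
    rw [hΓ]
    exact ⟨hx, (hg x hx).1, (hg x hx).2⟩
  have hΓ2 : ∀ p ∈ Γ, p.1 ∈ D ∧ p.2 = g p.1 := by
    intro p hp
    rw [hΓ] at hp
    exact ⟨hp.1, hgu p.1 hp.1 p.2 ⟨hp.2.1, hp.2.2⟩⟩
  have hinj : InjOn Prod.fst Γ := by
    intro p hp q hq hpq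
    have h1 := (hΓ2 p hp).2
    have h2 := (hΓ2 q hq).2
    rw [hpq, ← h2] at h1
    exact Prod.ext hpq h1
  refine ⟨fun x => if x ∈ D then g x else x, ?_, ?_⟩
  · intro A hA
    have e : (fun x => if x ∈ D then g x else x) ⁻¹' A =
        Prod.fst '' (Γ ∩ Prod.snd ⁻¹' A) ∪ (Dᶜ ∩ A) := by
      ext x
      simp only [mem_preimage, mem_union, mem_image, mem_inter_iff, mem_compl_iff]
      by_cases hx : x ∈ D
      · rw [if_pos hx]
        constructor
        · intro hgx
          exact Or.inl ⟨(x, g x), ⟨hΓ1 x hx, hgx⟩, rfl⟩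
        · rintro (⟨p, ⟨hp, hpA⟩, rfl⟩ | ⟨h1, -⟩)
          · rw [← (hΓ2 p hp).2]
            exact hpA
          · exact absurd hx h1
      · rw [if_neg hx]
        constructor
        · intro hxA
          exact Or.inr ⟨hx, hxA⟩
        · rintro (⟨p, ⟨hp, -⟩, rfl⟩ | ⟨-, h1⟩)
          · exact absurd (hΓ2 p hp).1 hx
          · exact h1
    rw [e]
    exact ((hΓm.inter (measurable_snd hA)).image_of_measurable_injOn measurable_fst
      (hinj.mono inter_subset_left)).union (hD.compl.inter hA)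
  · intro x hx
    show (x, if x ∈ D then g x else x) ∈ B
    rw [if_pos hx]
    exact (hg x hx).1

end Pool.Agent.H93.EO
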