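import Mathlib
set_option autoImplicit false

/-!
# H93/EO/LsuA: countable covers of a Borel set by small pieces

`X` standard Borel, `B ⊆ X × X` measurable. There are measurable sets `K k i` (`k i : ℕ`) with
`B ⊆ ⋃_i K k i` for every `k`, such that for `x : X` and `i : ℕ → ℕ`: if for every `n` there is
`y` with `(x, y) ∈ B ∩ ⋂_{k ≤ n} K k (i k)` then there is exactly one `y` with
`(x, y) ∈ B ∩ ⋂_k K k (i k)`.

Proof. `letI := upgradeStandardBorel X` gives `X` a Polish topology `t` with the given Borel sets.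
`X × X` is Polish and Borel. `hB.isClopenable` (`MeasurableSet.isClopenable`): a finer Polish topology
`t'` on `X × X` in which `B` is clopen; its Borel sets are the same (`borel_eq_borel_of_le`), and
`Prod.fst` is continuous from `t'` to `X` (composition with the identity `t' ≤ prod topology`). Take a
complete metric on `(X × X, t')` (`upgradeIsCompletelyMetrizable` / `TopologicalSpace.upgradeIsCompletelyMetrizable`) and a dense sequence `w`
(if `X × X` is empty everything is trivial: then `X` is empty); `K k i = closedBall (w i) (2^-k)`,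
closed in `t'`, so measurable. They cover everything.
Let `x, i` be as above and choose `p n = (x, y n) ∈ B ∩ ⋂_{k ≤ n} K k (i k)`. For `n, n' ≥ k` both
points lie in `closedBall (w (i k)) (2^-k)`: distance at most `2 * 2^-k`: Cauchy, limit `p`; `p ∈ B` and
`p ∈ K k (i k)` as these are closed; `p.1 = x` by continuity of `Prod.fst` (limits unique in `X`).
Uniqueness: two points of `⋂_k K k (i k)` have distance at most `2 * 2^-k` for all `k`.
-/

namespace Pool.Agent.H93.EO

open Set Topology

private theorem lsuA_aux {Z X : Type} [t0 : TopologicalSpace Z] [PolishSpace Z]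
    [MeasurableSpace Z] [BorelSpace Z] [TopologicalSpace X] [T2Space X] (f : Z → X)
    (hf : Continuous f) (B : Set Z) (hB : IsClosed B) :
    ∃ K : ℕ → ℕ → Set Z, (∀ k i, MeasurableSet (K k i)) ∧ (∀ k p, ∃ i, p ∈ K k i) ∧
      ∀ (x : X) (i : ℕ → ℕ), (∀ n : ℕ, ∃ z, f z = x ∧ z ∈ B ∧ ∀ k ≤ n, z ∈ K k (i k)) →
        ∃ z, (f z = x ∧ z ∈ B ∧ ∀ k, z ∈ K k (i k)) ∧
          ∀ z', (∀ k, z' ∈ K k (i k)) → z' = z := by
  letI := TopologicalSpace.upgradeIsCompletelyMetrizable Z
  rcases isEmpty_or_nonempty Z with h | h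
  · refine ⟨fun _ _ => ∅, fun _ _ => MeasurableSet.empty, fun _ p => isEmptyElim p,
      fun x i hx => ?_⟩
    obtain ⟨z, _⟩ := hx 0
    exact isEmptyElim z
  · have hlim : Filter.Tendsto (fun k : ℕ => 2 * (1 / 2 : ℝ) ^ k) Filter.atTop (𝓝 0) := by
      have h1 := (tendsto_pow_atTop_nhds_zero_of_lt_one (r := (1 / 2 : ℝ)) (by norm_num)
        (by norm_num)).const_mul 2
      simpa using h1
    refine ⟨fun k i => Metric.closedBall (TopologicalSpace.denseSeq Z i) ((1 / 2) ^ k),
      fun k i => Metric.isClosed_closedBall.measurableSet, fun k p => ?_, fun x i hx => ?_⟩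
    · obtain ⟨i, hi⟩ := (TopologicalSpace.denseRange_denseSeq Z).exists_dist_lt p
        (pow_pos (by norm_num) k : (0 : ℝ) < (1 / 2) ^ k)
      exact ⟨i, hi.le⟩
    · choose z hz1 hz2 hz3 using hx
      have hc : CauchySeq z := by
        refine cauchySeq_of_le_tendsto_0 (fun k : ℕ => 2 * (1 / 2 : ℝ) ^ k) ?_ hlim
        intro n m N hn hm
        have h1 := hz3 n N hn
        have h2 := hz3 m N hm
        rw [Metric.mem_closedBall] at h1 h2
        have h3 := dist_triangle_right (z n) (z m) (TopologicalSpace.denseSeq Z (i N))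
        linarith
      obtain ⟨p, hp⟩ := cauchySeq_tendsto_of_complete hc
      have hpK : ∀ k, p ∈ Metric.closedBall (TopologicalSpace.denseSeq Z (i k))
          ((1 / 2 : ℝ) ^ k) := fun k =>
        Metric.isClosed_closedBall.mem_of_tendsto hp
          ((Filter.eventually_ge_atTop k).mono fun n hn => hz3 n k hn)
      refine ⟨p, ⟨?_, hB.mem_of_tendsto hp (Filter.Eventually.of_forall hz2), hpK⟩, ?_⟩
      · have h1 : Filter.Tendsto (fun n => f (z n)) Filter.atTop (𝓝 (f p)) :=
          (hf.tendsto p).comp hp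
        simp only [hz1] at h1
        exact (tendsto_nhds_unique h1 tendsto_const_nhds)
      · intro z' hz'
        have h1 : ∀ k : ℕ, dist z' p ≤ 2 * (1 / 2 : ℝ) ^ k := by
          intro k
          have h2 := hz' k
          have h3 := hpK k
          rw [Metric.mem_closedBall] at h2 h3
          have h4 := dist_triangle_right z' p (TopologicalSpace.denseSeq Z (i k))
          linarith
        have h2 : dist z' p ≤ 0 := ge_of_tendsto' hlim h1
        exact dist_le_zero.1 h2

theorem lsuA {X : Type} [MeasurableSpace X] [StandardBorelSpace X] {B : Set (X × X)}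
    (hB : MeasurableSet B) : ∃ K : ℕ → ℕ → Set (X × X), (∀ k i, MeasurableSet (K k i)) ∧
      (∀ k p, p ∈ B → ∃ i, p ∈ K k i) ∧
      ∀ (x : X) (i : ℕ → ℕ), (∀ n : ℕ, ∃ y, (x, y) ∈ B ∧ ∀ k ≤ n, (x, y) ∈ K k (i k)) →
        ∃ y, ((x, y) ∈ B ∧ ∀ k, (x, y) ∈ K k (i k)) ∧
          ∀ y', ((x, y') ∈ B ∧ ∀ k, (x, y') ∈ K k (i k)) → y' = y := by
  letI := upgradeStandardBorel X
  obtain ⟨t', ht1, ht2, ht3, ht4⟩ := hB.isClopenable
  have hbor : @BorelSpace (X × X) t' inferInstance := by
    refine @BorelSpace.mk _ t' _ ?_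
    rw [MeasureTheory.borel_eq_borel_of_le (t := t') (t' := instTopologicalSpaceProd) ht2
      inferInstance ht1]
    exact BorelSpace.measurable_eq
  have hcont : @Continuous (X × X) X t' inferInstance Prod.fst :=
    continuous_le_dom ht1 continuous_fst
  obtain ⟨K, hK1, hK2, hK3⟩ := @lsuA_aux (X × X) X t' ht2 _ hbor _ _ Prod.fst hcont B ht3
  refine ⟨K, hK1, fun k p _ => hK2 k p, fun x i h => ?_⟩
  obtain ⟨z, ⟨hz1, hz2, hz3⟩, hz4⟩ := hK3 x i (fun n => by
    obtain ⟨y, hy1, hy2⟩ := h n
    exact ⟨(x, y), rfl, hy1, hy2⟩)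
  obtain ⟨z1, z2⟩ := z
  obtain rfl : z1 = x := hz1
  refine ⟨z2, ⟨hz2, hz3⟩, fun y' hy' => ?_⟩
  have h1 := hz4 (z1, y') hy'.2
  exact (Prod.ext_iff.1 h1).2

end Pool.Agent.H93.EO
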