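import Pool.Agent.H93.EO.RhoB
set_option autoImplicit false

/-!
# H93/EO/ChainA: the chain metric on a set `Y` (Frink's lemma)

Apply Mathlib's `PseudoMetricSpace.ofPreNNDist` on the subtype `Y` with
`d a b = ⟨rho S a b, rho_nonneg ..⟩ : ℝ≥0` (`dist_self` from `h0`, `dist_comm` from `rho_comm`):
`δ a b = dist a b = ⨅ l : List Y, ((a :: l).zipWith d (l ++ [b])).sum`
(`PseudoMetricSpace.dist_ofPreNNDist`), `dist ≤ d` (`PseudoMetricSpace.dist_ofPreNNDist_le`) and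
`d ≤ 2 dist` (`PseudoMetricSpace.le_two_mul_dist_ofPreNNDist` with `rho_four`). The sum over `l` is
`chain S a b (l.map Subtype.val)` (induction on `l`). Extend `δ` to `X × X` by `0` outside `Y × Y`.
Last clause: `exists_lt_of_ciInf_lt`.
-/

namespace Pool.Agent.H93.EO

open Set

variable {X : Type} [MeasurableSpace X] {F : X → X → Prop}

theorem chain_zipWith (S : GenStr X F) {Y : Set X} (d : Y → Y → NNReal)
    (hd : ∀ a b : Y, (d a b : ℝ) = rho S a.1 b.1) (l : List Y) : ∀ a b : Y,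
    (((a :: l).zipWith d (l ++ [b])).sum : ℝ) = chain S a.1 b.1 (l.map Subtype.val) := by
  induction l with
  | nil => intro a b; simp [chain, hd]
  | cons x l ih =>
    intro a b
    have h := ih x b
    simp only [List.map_cons, chain, List.cons_append, List.zipWith_cons_cons, List.sum_cons,
      NNReal.coe_add, hd]
    rw [h]

theorem chainA [StandardBorelSpace X] (hF : Equivalence F)
    (mF : MeasurableSet {p : X × X | F p.1 p.2}) (S : GenStr X F) {Y : Set X}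
    (h0 : ∀ a ∈ Y, rho S a a = 0) :
    ∃ δ : X → X → ℝ, (∀ a ∈ Y, ∀ b ∈ Y, 0 ≤ δ a b ∧ δ a b ≤ rho S a b ∧
        rho S a b ≤ 2 * δ a b ∧ δ a b = δ b a) ∧
      (∀ a ∈ Y, δ a a = 0) ∧
      (∀ a ∈ Y, ∀ b ∈ Y, ∀ c ∈ Y, δ a c ≤ δ a b + δ b c) ∧
      (∀ a ∈ Y, ∀ b ∈ Y, ∀ l : List X, (∀ x ∈ l, x ∈ Y) → δ a b ≤ chain S a b l) ∧
      ∀ a ∈ Y, ∀ b ∈ Y, ∀ ε : ℝ, 0 < ε → ∃ l : List X, (∀ x ∈ l, x ∈ Y) ∧
        chain S a b l < δ a b + ε := by
  classical
  let d : Y → Y → NNReal := fun a b => ⟨rho S a.1 b.1, rho_nonneg S a.1 b.1⟩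
  have hd : ∀ a b : Y, (d a b : ℝ) = rho S a.1 b.1 := fun a b => rfl
  have hself : ∀ a : Y, d a a = 0 := fun a => by
    rw [← NNReal.coe_eq_zero, hd]; exact h0 a.1 a.2
  have hcomm : ∀ a b : Y, d a b = d b a := fun a b => by
    rw [← NNReal.coe_inj, hd, hd]; exact rho_comm hF mF S a.1 b.1
  have hfour : ∀ a b c e : Y, d a e ≤ 2 * max (d a b) (max (d b c) (d c e)) := by
    intro a b c e
    rw [← NNReal.coe_le_coe]
    push_cast
    simp only [hd]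
    exact rho_four hF mF S a.1 b.1 c.1 e.1
  let I : PseudoMetricSpace Y := PseudoMetricSpace.ofPreNNDist d hself hcomm
  have hdist : ∀ a b : Y, dist a b =
      ((⨅ l : List Y, ((a :: l).zipWith d (l ++ [b])).sum : NNReal) : ℝ) := fun a b =>
    PseudoMetricSpace.dist_ofPreNNDist d hself hcomm a b
  have hle : ∀ a b : Y, dist a b ≤ rho S a.1 b.1 := fun a b =>
    PseudoMetricSpace.dist_ofPreNNDist_le d hself hcomm a b
  have hle2 : ∀ a b : Y, rho S a.1 b.1 ≤ 2 * dist a b := fun a b =>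
    PseudoMetricSpace.le_two_mul_dist_ofPreNNDist d hself hcomm hfour a b
  let δ : X → X → ℝ := fun a b => if h : a ∈ Y ∧ b ∈ Y then dist (⟨a, h.1⟩ : Y) ⟨b, h.2⟩ else 0
  have hδ : ∀ a (ha : a ∈ Y) b (hb : b ∈ Y), δ a b = dist (⟨a, ha⟩ : Y) ⟨b, hb⟩ := by
    intro a ha b hb
    simp [δ, ha, hb]
  refine ⟨δ, ?_, ?_, ?_, ?_, ?_⟩
  · intro a ha b hb
    rw [hδ a ha b hb, hδ b hb a ha]
    exact ⟨dist_nonneg, hle ⟨a, ha⟩ ⟨b, hb⟩, hle2 ⟨a, ha⟩ ⟨b, hb⟩, dist_comm _ _⟩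
  · intro a ha
    rw [hδ a ha a ha]
    exact dist_self _
  · intro a ha b hb c hc
    rw [hδ a ha b hb, hδ b hb c hc, hδ a ha c hc]
    exact dist_triangle _ _ _
  · intro a ha b hb l hl
    rw [hδ a ha b hb, hdist]
    have h1 : l = (l.attach.map fun x => (⟨x.1, hl x.1 x.2⟩ : Y)).map Subtype.val := by
      rw [List.map_map]
      conv_lhs => rw [← List.attach_map_subtype_val l]
      rfl
    rw [h1, ← chain_zipWith S d hd (l.attach.map fun x => (⟨x.1, hl x.1 x.2⟩ : Y))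
      ⟨a, ha⟩ ⟨b, hb⟩, NNReal.coe_le_coe]
    exact ciInf_le (OrderBot.bddBelow _) _
  · intro a ha b hb ε hε
    rw [hδ a ha b hb, hdist]
    have h1 : (⨅ l : List Y, (((⟨a, ha⟩ : Y) :: l).zipWith d (l ++ [(⟨b, hb⟩ : Y)])).sum : NNReal)
        < (⨅ l : List Y, (((⟨a, ha⟩ : Y) :: l).zipWith d (l ++ [(⟨b, hb⟩ : Y)])).sum : NNReal)
          + ⟨ε, hε.le⟩ := by
      rw [← NNReal.coe_lt_coe, NNReal.coe_add]
      exact lt_add_of_pos_right _ hε
    obtain ⟨l, hl⟩ := exists_lt_of_ciInf_lt h1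
    refine ⟨l.map Subtype.val, ?_, ?_⟩
    · intro x hx
      obtain ⟨y, -, rfl⟩ := List.mem_map.1 hx
      exact y.2
    · rw [← chain_zipWith S d hd l ⟨a, ha⟩ ⟨b, hb⟩]
      rw [← NNReal.coe_lt_coe, NNReal.coe_add] at hl
      exact hl

end Pool.Agent.H93.EO
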