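import Pool.Agent.H93.EO.RhoB
set_option autoImplicit false

/-!
# H93/EO/ChainB: chains through a dense sequence

* `chain_nonneg`: `rho_nonneg`.
* `chain_cross`: `¬ F a b` gives `1 ≤ chain a b l`: induction on `l`: nil: `rho_cross`. `x :: l`: if
  `¬ F a x` then `rho a x = 1` and `chain_nonneg`; if `F a x` then `¬ F x b`, induction.
* `chain_usc`: `a ↦ chain a b l` is upper semicontinuous in the first point: `chain a b l` is
  `rho a h` plus something independent of `a`, where `h` is the head of `l` or `b`; `rho_usc` in the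
  other variable by `rho_comm`.
* `chain_dense`: induction on `l` (for all `a`): nil: `L = []`. `x :: l`: if `¬ F a x` then
  `chain a b (x :: l) ≥ rho a x = 1 ≥ rho a b`, `L = []` (`rho_cross`, `chain_nonneg`, `rho_le_one`).
  If `F a x`: by induction `L'` with `chain x b (L'.map ..) ≤ chain x b l + ε/3`. `rho_usc` at `x` for
  `rho a ·` and `chain_usc` at `x` for `chain · b (L'.map ..)` give `k` (the larger one, `V_anti`) with
  both within `ε/3` on `V k x`. `V k x` is open at `a0` (`V_op`, `F a0 x`) and contains `x`, so it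
  contains some `H n a0 ∋ x`, and `hc` gives `i` with `c i a0 ∈ H n a0 ⊆ V k x`. `L = i :: L'`.
-/

namespace Pool.Agent.H93.EO

open Set

variable {X : Type} [MeasurableSpace X] {F : X → X → Prop}

theorem chain_nonneg (S : GenStr X F) (l : List X) (a b : X) : 0 ≤ chain S a b l := by
  induction l generalizing a with
  | nil => exact rho_nonneg S a b
  | cons x l ih => exact add_nonneg (rho_nonneg S a x) (ih x)

theorem chain_cross [StandardBorelSpace X] (hF : Equivalence F)
    (mF : MeasurableSet {p : X × X | F p.1 p.2}) (S : GenStr X F) (l : List X) {a b : X}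
    (h : ¬ F a b) : 1 ≤ chain S a b l := by
  induction l generalizing a with
  | nil => exact (rho_cross hF mF h).ge
  | cons x l ih =>
    show 1 ≤ rho S a x + chain S x b l
    by_cases hax : F a x
    · have h1 := ih (a := x) (fun hxb => h (hF.trans hax hxb))
      have h2 := rho_nonneg S a x
      linarith
    · have h1 := rho_cross hF mF (S := S) hax
      have h2 := chain_nonneg S l x b
      linarith

theorem chain_usc [StandardBorelSpace X] (hF : Equivalence F)
    (mF : MeasurableSet {p : X × X | F p.1 p.2}) (S : GenStr X F) (l : List X) (a b : X)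
    {ε : ℝ} (hε : 0 < ε) : ∃ k, ∀ a' ∈ V S k a, chain S a' b l < chain S a b l + ε := by
  cases l with
  | nil =>
    obtain ⟨k, hk⟩ := rho_usc hF mF S b a hε
    refine ⟨k, fun a' ha' => ?_⟩
    show rho S a' b < rho S a b + ε
    rw [rho_comm hF mF S a' b, rho_comm hF mF S a b]
    exact hk a' ha'
  | cons x l =>
    obtain ⟨k, hk⟩ := rho_usc hF mF S x a hε
    refine ⟨k, fun a' ha' => ?_⟩
    show rho S a' x + chain S x b l < rho S a x + chain S x b l + ε
    rw [rho_comm hF mF S a' x, rho_comm hF mF S a x]
    have := hk a' ha'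
    linarith

theorem chain_dense [StandardBorelSpace X] (hF : Equivalence F)
    (mF : MeasurableSet {p : X × X | F p.1 p.2}) (S : GenStr X F) {c : ℕ → X → X}
    (hc : ∀ n x y, y ∈ S.H n x → ∃ i, c i x ∈ S.H n x) (a0 : X) (l : List X) (a b : X)
    (ha : F a0 a) (hb : F a0 b) {ε : ℝ} (hε : 0 < ε) :
    ∃ L : List ℕ, chain S a b (L.map fun i => c i a0) ≤ chain S a b l + ε := by
  induction l generalizing a ε with
  | nil =>
    refine ⟨[], ?_⟩
    show rho S a b ≤ rho S a b + ε
    linarith
  | cons x l ih =>
    by_cases hax : F a x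
    · have hx : F a0 x := hF.trans ha hax
      have hε3 : 0 < ε / 3 := by linarith
      obtain ⟨L', hL'⟩ := ih x hx hε3
      obtain ⟨k1, hk1⟩ := rho_usc hF mF S a x hε3
      obtain ⟨k2, hk2⟩ := chain_usc hF mF S (L'.map fun i => c i a0) x b hε3
      obtain ⟨n, hn1, hn2⟩ := (V_op hF S (max k1 k2) hx).2 x (V_self hF S _ x)
      obtain ⟨i, hi⟩ := hc n a0 x hn1
      have h1 := hk1 _ (V_anti S (le_max_left k1 k2) x (hn2 hi))
      have h2 := hk2 _ (V_anti S (le_max_right k1 k2) x (hn2 hi))
      refine ⟨i :: L', ?_⟩
      show rho S a (c i a0) + chain S (c i a0) b (L'.map fun i => c i a0) ≤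
        rho S a x + chain S x b l + ε
      linarith
    · refine ⟨[], ?_⟩
      show rho S a b ≤ rho S a x + chain S x b l + ε
      have h1 := rho_cross hF mF (S := S) hax
      have h2 := chain_nonneg S l x b
      have h3 := rho_le_one S a b
      linarith

end Pool.Agent.H93.EO
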