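import Pool.Agent.H93.EO.DenseSeq
import Pool.Agent.H93.EO.ChainA
import Pool.Agent.H93.EO.ChainB
set_option autoImplicit false

/-!
# H93/EO/MetStrEx: existence of the canonical metric structure

`Y = Y0 S P` (`mY0`, `gen_Y0`), `c` from `denseSeq`, `δ` from `chainA` (`rho_self`), and
`ρ a b = ⨅ L : List ℕ, chain S a b (L.map fun i => c i a)`.

* `mρ`: `Measurable.iInf` over the countable type `List ℕ`; for fixed `L` the function
  `(a, b) ↦ chain S a b (L.map fun i => c i a)` is measurable: more generally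
  `chain S (u p) (v p) (L.map fun i => c i (w p))` is measurable for measurable `u v w` (induction on
  `L`, `mrho`, `mc`).
* `ρ = δ` on `Y × Y`: `≥`: `δ a b ≤ chain ..` for every `L` (`c i a ∈ Y`), `le_ciInf`. `≤`: if
  `¬ F a b`: `ρ a b ≤ chain a b [] = rho a b = 1` (`rho_cross`), and
  `1 ≤ chain a b l` for every `l` (`chain_cross`), so `1 ≤ δ a b + ε` for all `ε`. If `F a b`: for
  `ε > 0` take `l` with `chain a b l < δ a b + ε` and `L` from `chain_dense` (`a0 = a`):
  `ρ a b ≤ chain .. ≤ δ a b + 2 ε`. (The infimum is bounded below by `0`: `chain_nonneg`.)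
* `nonneg`, `le_one` (`δ ≤ rho ≤ 1`), `self`, `symm`, `tri` from `δ`.
* `eq`: `ρ a b = 0` gives `rho a b ≤ 2 * 0`, `rho_eq_imp`.
* `N1`: `rho_small` and `ρ ≤ rho`. `N2`: `rho_big` gives `ε`; take `ε / 2`: `rho ≤ 2 ρ ≤ ε`.
* `P1`: `y ∈ Ct S P` gives `k` for `n`; `N2` with `n := k` gives `ε` such that `ρ y b < ε` implies
  `b ∈ V k y`; `ct_eq`.
* `cd` from `denseSeq`.
-/

namespace Pool.Agent.H93.EO

open Set

variable {X : Type} [MeasurableSpace X] {F : X → X → Prop}

private theorem chain_meas [StandardBorelSpace X] (hF : Equivalence F)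
    (mF : MeasurableSet {p : X × X | F p.1 p.2}) (S : GenStr X F) {c : ℕ → X → X}
    (mc : ∀ i, Measurable (c i)) {T : Type} [MeasurableSpace T] (L : List ℕ) :
    ∀ (u v w : T → X), Measurable u → Measurable v → Measurable w →
      Measurable fun p => chain S (u p) (v p) (L.map fun i => c i (w p)) := by
  induction L with
  | nil =>
    intro u v w hu hv _
    exact (mrho hF mF S).comp (hu.prodMk hv)
  | cons i L ih =>
    intro u v w hu hv hw
    have h1 : Measurable fun p => c i (w p) := (mc i).comp hw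
    exact ((mrho hF mF S).comp (hu.prodMk h1)).add (ih _ v w h1 hv hw)

theorem exists_metStr [StandardBorelSpace X] (hF : Equivalence F)
    (mF : MeasurableSet {p : X × X | F p.1 p.2}) (S : GenStr X F) {P : ℕ → Set X}
    (hP : ∀ n, MeasurableSet (P n)) (hsep : ∀ a b : X, (∀ n, a ∈ P n ↔ b ∈ P n) → a = b) :
    Nonempty (MetStr S P) := by
  have mY := mY0 hF mF S hP
  have gY := gen_Y0 hF mF S hP
  obtain ⟨c, mc, cY, cF, cd⟩ := denseSeq hF mF S mY gY
  have h0 : ∀ a ∈ Y0 S P, rho S a a = 0 := fun a ha => rho_self hF mF ha.1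
  obtain ⟨δ, d1, d2, d3, d4, d5⟩ := chainA hF mF S h0
  obtain ⟨ρ, hρ⟩ : ∃ ρ : X → X → ℝ,
      ρ = fun a b => ⨅ L : List ℕ, chain S a b (L.map fun i => c i a) := ⟨_, rfl⟩
  have hbdd : ∀ a b, BddBelow (range fun L : List ℕ => chain S a b (L.map fun i => c i a)) := by
    intro a b
    refine ⟨0, ?_⟩
    rintro _ ⟨L, rfl⟩
    exact chain_nonneg S _ a b
  have hi : ∀ a b (L : List ℕ), ρ a b ≤ chain S a b (L.map fun i => c i a) := by
    intro a b L
    rw [hρ]
    exact ciInf_le (hbdd a b) L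
  have hρδ : ∀ a ∈ Y0 S P, ∀ b ∈ Y0 S P, ρ a b = δ a b := by
    intro a ha b hb
    apply le_antisymm
    · by_cases hab : F a b
      · refine le_of_forall_pos_le_add fun ε hε => ?_
        obtain ⟨l, _, hl⟩ := d5 a ha b hb (ε / 2) (by positivity)
        obtain ⟨L, hL⟩ := chain_dense hF mF S cd a l a b (hF.refl a) hab
          (show (0 : ℝ) < ε / 2 by positivity)
        have := hi a b L
        linarith
      · have h1 := hi a b []
        have h2 : chain S a b (([] : List ℕ).map fun i => c i a) = 1 := rho_cross hF mF hab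
        rw [h2] at h1
        refine h1.trans (le_of_forall_pos_le_add fun ε hε => ?_)
        obtain ⟨l, _, hl⟩ := d5 a ha b hb ε hε
        have := chain_cross hF mF S l hab
        linarith
    · rw [hρ]
      refine le_ciInf fun L => d4 a ha b hb _ ?_
      intro x hx
      obtain ⟨i, _, rfl⟩ := List.mem_map.1 hx
      exact cY i a
  have hN2 : ∀ y ∈ Y0 S P, ∀ n, ∃ ε : ℝ, 0 < ε ∧ ∀ b ∈ Y0 S P, ρ y b < ε → b ∈ V S n y := by
    intro y hy n
    obtain ⟨ε, hε, h⟩ := rho_big hF mF hy.2.1 n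
    refine ⟨ε / 2, by positivity, fun b hb hlt => h b ?_⟩
    rw [hρδ y hy b hb] at hlt
    have := (d1 y hy b hb).2.2.1
    linarith
  exact ⟨{
    Y := Y0 S P
    ρ := ρ
    c := c
    mY := mY
    gY := gY
    mρ := by
      rw [hρ]
      exact Measurable.iInf fun L => chain_meas hF mF S mc L Prod.fst Prod.snd Prod.fst
        measurable_fst measurable_snd measurable_fst
    nonneg := fun a ha b hb => by
      rw [hρδ a ha b hb]
      exact (d1 a ha b hb).1
    le_one := fun a ha b hb => by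
      rw [hρδ a ha b hb]
      exact (d1 a ha b hb).2.1.trans (rho_le_one S a b)
    self := fun a ha => by
      rw [hρδ a ha a ha]
      exact d2 a ha
    symm := fun a ha b hb => by
      rw [hρδ a ha b hb, hρδ b hb a ha]
      exact (d1 a ha b hb).2.2.2
    tri := fun a ha b hb d hd => by
      rw [hρδ a ha b hb, hρδ b hb d hd, hρδ a ha d hd]
      exact d3 a ha b hb d hd
    eq := fun a ha b hb h => by
      rw [hρδ a ha b hb] at h
      have h1 := (d1 a ha b hb).2.2.1
      rw [h, mul_zero] at h1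
      exact (hsep b a fun n => rho_eq_imp hF mF ha.2.1 ha.2.2 hb.2.2
        (le_antisymm h1 (rho_nonneg S a b)) n).symm
    mc := mc
    cY := cY
    cF := cF
    cd := cd
    N1 := fun y hy ε hε => by
      obtain ⟨k, hk⟩ := rho_small hF mF hy.1 hε
      refine ⟨k, fun b hb hbV => ?_⟩
      rw [hρδ y hy b hb]
      exact (d1 y hy b hb).2.1.trans_lt (hk b hbV)
    N2 := hN2
    P1 := fun y hy n => by
      obtain ⟨k, hk⟩ := hy.2.2 n
      obtain ⟨ε, hε, h⟩ := hN2 y hy k
      exact ⟨ε, hε, fun b hb hlt => ct_eq hF hk hb.2.2 (h b hb hlt)⟩ }⟩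

end Pool.Agent.H93.EO
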