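import Pool.Agent.H93.EO.ClsTop
set_option autoImplicit false

/-!
# H93/EO/CloP: the closures of the pieces `P n`

`->`: `P1` at `y` gives `ε > 0`; some `i` with `c i x ∈ P n` has `dist (j y) (j (cpt i)) < ε`, that is
`ρ y (c i x) < ε`; so `y ∈ P n`. `<-`: `near_c`: for every `ε` there is `i` with `ρ y (c i x) < ε` and
`c i x ∈ P n ↔ y ∈ P n`.
-/

namespace Pool.Agent.H93.EO

open Set Topology

variable {X : Type} [MeasurableSpace X] {F : X → X → Prop} {S : GenStr X F} {P : ℕ → Set X}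

theorem mem_closure_P (hF : Equivalence F) (M : MetStr S P) (x : X) {K : Type} [MetricSpace K]
    {j : Cls M x → K} (hj : Isometry j) (n : ℕ) (y : Cls M x) :
    j y ∈ closure ((fun i => j (cpt M x i)) '' codeA M x n) ↔ y.1 ∈ P n := by
  have hd : ∀ i, dist (j y) (j (cpt M x i)) = M.ρ y.1 (M.c i x) := by
    intro i
    rw [hj.dist_eq]
    rfl
  constructor
  · intro h
    obtain ⟨ε, hε, hP⟩ := M.P1 y.1 y.2.1 n
    obtain ⟨_, ⟨i, hi, rfl⟩, hi'⟩ := Metric.mem_closure_iff.1 h ε hε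
    change dist (j y) (j (cpt M x i)) < ε at hi'
    rw [hd] at hi'
    exact (hP _ (M.cY i x) hi').1 hi
  · intro h
    rw [Metric.mem_closure_iff]
    intro ε hε
    obtain ⟨i, hi, hi'⟩ := near_c hF M y.2.1 y.2.2 n hε
    refine ⟨_, ⟨i, hi'.2 h, rfl⟩, ?_⟩
    change dist (j y) (j (cpt M x i)) < ε
    rw [hd]
    exact hi

end Pool.Agent.H93.EO
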