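import Mathlib
set_option autoImplicit false

/-!
# H93/EO/Def3: definitions for part 3 (separable metric structures and one Polish group)

`IsPM d`: pseudo-metric with values in `[0,1]`, as a bare function (we need Borel dependence on it).
`Kat d S f`: `f` is a Katetov function on the set `S` with values in `[0,1]`.
`kf d L`: the canonical Katetov function of a finite list of (point, rational value).
`dE`: one step extension; `Tk`, `dk`: the tower; `T`, `dT`: its union.
-/

namespace Pool.Agent.H93.EO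

open Set Topology

/-- `d` is a pseudo-metric with values in `[0,1]` -/
structure IsPM {A : Type} (d : A → A → ℝ) : Prop where
  nonneg : ∀ a b, 0 ≤ d a b
  le_one : ∀ a b, d a b ≤ 1
  self : ∀ a, d a a = 0
  symm : ∀ a b, d a b = d b a
  tri : ∀ a b c, d a c ≤ d a b + d b c

/-- `f` is a Katetov function on `S`, with values in `[0,1]` -/
def Kat {A : Type} (d : A → A → ℝ) (S : Set A) (f : A → ℝ) : Prop :=
  (∀ a ∈ S, 0 ≤ f a ∧ f a ≤ 1) ∧
    ∀ a ∈ S, ∀ b ∈ S, |f a - f b| ≤ d a b ∧ d a b ≤ f a + f b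

/-- `min (1, min_i (|q_i| + d a_i x))` -/
noncomputable def up {A : Type} (d : A → A → ℝ) : List (A × ℚ) → A → ℝ
  | [], _ => 1
  | p :: L, x => min (|(p.2 : ℝ)| + d p.1 x) (up d L x)

/-- `max (0, max_i (d a_i x - |q_i|))` -/
noncomputable def lo {A : Type} (d : A → A → ℝ) : List (A × ℚ) → A → ℝ
  | [], _ => 0
  | p :: L, x => max (d p.1 x - |(p.2 : ℝ)|) (lo d L x)

/-- the canonical Katetov function of the data `L` -/
noncomputable def kf {A : Type} (d : A → A → ℝ) (L : List (A × ℚ)) (x : A) : ℝ :=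
  max (up d L x) (lo d L x)

/-- one step extension of a pseudo-metric space by its finitely generated Katetov functions -/
noncomputable def dE {A : Type} (d : A → A → ℝ) :
    A ⊕ List (A × ℚ) → A ⊕ List (A × ℚ) → ℝ
  | Sum.inl x, Sum.inl y => d x y
  | Sum.inl x, Sum.inr L => kf d L x
  | Sum.inr L, Sum.inl x => kf d L x
  | Sum.inr L, Sum.inr L' => ⨆ x : A, |kf d L x - kf d L' x|

/-- the map of one step extensions -/
def mapE {A B : Type} (i : A → B) : A ⊕ List (A × ℚ) → B ⊕ List (B × ℚ) :=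
  Sum.map i (List.map fun p => (i p.1, p.2))

/-- isometric map with dense range -/
def DenseIso {A B : Type} (dA : A → A → ℝ) (dB : B → B → ℝ) (i : A → B) : Prop :=
  (∀ x y, dB (i x) (i y) = dA x y) ∧ ∀ b, ∀ ε : ℝ, 0 < ε → ∃ a, dB (i a) b < ε

/-- the types of the tower -/
def Tk (A : Type) : ℕ → Type
  | 0 => A
  | k + 1 => Tk A k ⊕ List (Tk A k × ℚ)

/-- the pseudo-metrics of the tower -/
noncomputable def dk {A : Type} (d : A → A → ℝ) : ∀ k : ℕ, Tk A k → Tk A k → ℝ
  | 0 => d
  | k + 1 => dE (dk d k)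

/-- the maps of the tower -/
def mapk {A B : Type} (i : A → B) : ∀ k : ℕ, Tk A k → Tk B k
  | 0 => i
  | k + 1 => mapE (mapk i k)

/-- inclusion of a level into a higher one -/
def lift {A : Type} {k l : ℕ} (h : k ≤ l) : Tk A k → Tk A l :=
  Nat.leRecOn h (fun {n} (s : Tk A n) => (Sum.inl s : Tk A (n + 1)))

/-- all terms -/
def T (A : Type) : Type := Σ k : ℕ, Tk A k

/-- the pseudo-metric on all terms -/
noncomputable def dT {A : Type} (d : A → A → ℝ) (s t : T A) : ℝ :=
  dk d (max s.1 t.1) (lift (le_max_left s.1 t.1) s.2) (lift (le_max_right s.1 t.1) t.2)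

/-- the map on all terms -/
def mapT {A B : Type} (i : A → B) (s : T A) : T B := ⟨s.1, mapk i s.1 s.2⟩

/-- the term of level `0` of a point -/
def pt {A : Type} (a : A) : T A := ⟨0, a⟩

/-- approximate extension property of a pseudo-metric on `ℕ` -/
def AE {A : Type} (D : A → A → ℝ) : Prop :=
  ∀ (S : List A) (f : A → ℝ), Kat D {a | a ∈ S} f → ∀ δ : ℝ, 0 < δ →
    ∃ q : A, ∀ a ∈ S, |D q a - f a| ≤ δ

/-- two coded metric structures (distance matrices `r, r'` of sequences, with index sets
`a n, a' n` for closed sets) have a common realisation -/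
def SameCode (r r' : ℕ → ℕ → ℝ) (a a' : ℕ → Set ℕ) : Prop :=
  ∃ (M : Type) (_ : MetricSpace M) (_ : CompleteSpace M) (c c' : ℕ → M),
    (∀ i j, dist (c i) (c j) = r i j) ∧ (∀ i j, dist (c' i) (c' j) = r' i j) ∧
      ∀ n, closure (c '' a n) = closure (c' '' a' n)

end Pool.Agent.H93.EO
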