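import Mathlib
set_option autoImplicit false

/-!
# H93/EO/ExtMap: isometric extension (pure Mathlib)

For `y : C` and `n` choose `i n` with `dist (c (i n)) y < (1/2)^n` (`hc`); `γ (i n)` is a Cauchy
sequence because `dist (γ (i n)) (γ (i m)) = dist (c (i n)) (c (i m)) ≤ (1/2)^n + (1/2)^m`. Let `j y` be
its limit. For `y, y'` with sequences `i, i'`: `dist (j y) (j y') = lim dist (γ (i n)) (γ (i' n)) =
lim dist (c (i n)) (c (i' n)) = dist y y'`. For `y = c k`: `dist (γ (i n)) (γ k) =
dist (c (i n)) (c k) → 0`, so `j (c k) = γ k`.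
(Alternatively `IsDenseInducing.extend` / `DenseRange` machinery.)
-/

namespace Pool.Agent.H93.EO

open Set Topology

theorem extMap {C M : Type} [MetricSpace C] [MetricSpace M] [CompleteSpace M] (c : ℕ → C)
    (hc : DenseRange c) (γ : ℕ → M) (h : ∀ i j, dist (γ i) (γ j) = dist (c i) (c j)) :
    ∃ j : C → M, Isometry j ∧ ∀ i, j (c i) = γ i := by
  have hex : ∀ (y : C) (n : ℕ), ∃ i : ℕ, dist y (c i) < (1 / 2 : ℝ) ^ n := fun y n =>
    hc.exists_dist_lt y (by positivity)
  choose i hi using hex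
  have hlim : ∀ y, Filter.Tendsto (fun n => c (i y n)) Filter.atTop (𝓝 y) := by
    intro y
    rw [tendsto_iff_dist_tendsto_zero]
    refine squeeze_zero (fun n => dist_nonneg) (fun n => ?_)
      (tendsto_pow_atTop_nhds_zero_of_lt_one (by norm_num : (0 : ℝ) ≤ 1 / 2) (by norm_num))
    rw [dist_comm]
    exact (hi y n).le
  have hcau : ∀ y, CauchySeq (fun n => γ (i y n)) := by
    intro y
    have h1 := (hlim y).cauchySeq
    rw [Metric.cauchySeq_iff] at h1 ⊢
    intro ε hε
    obtain ⟨N, hN⟩ := h1 ε hε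
    refine ⟨N, fun m hm n hn => ?_⟩
    rw [h]
    exact hN m hm n hn
  choose j hj using fun y => cauchySeq_tendsto_of_complete (hcau y)
  refine ⟨j, Isometry.of_dist_eq fun y y' => ?_, fun k => ?_⟩
  · have h1 := (hj y).dist (hj y')
    have h2 := (hlim y).dist (hlim y')
    refine tendsto_nhds_unique h1 ?_
    simp only [h]
    exact h2
  · refine tendsto_nhds_unique (hj (c k)) ?_
    rw [tendsto_iff_dist_tendsto_zero]
    simp only [h]
    exact tendsto_iff_dist_tendsto_zero.1 (hlim (c k))

end Pool.Agent.H93.EO
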