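import Pool.Agent.H93.EO.RngR
import Pool.Agent.H93.EO.CloP
import Pool.Agent.H93.EO.ExtMap
import Pool.Agent.H93.EO.Def3
set_option autoImplicit false

/-!
# H93/EO/Part2B: points with the same code are equivalent

Let `M0, γ, γ'` be as in `SameCode`. `codeA M x 0 = univ` (`h0`), so
`closure (range γ) = closure (range γ') =: K0`; `K := ↥K0` is a complete metric space (closed subset),
with `MeasurableSpace K := borel K`. `γK i : K`, `γK' i : K` the points `γ i`, `γ' i`.
`extMap` (for `Cls M x`, `c := cpt M x`, `cpt_dense`, target `K`, `γK`; `cls_dist`) gives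
`j : Cls M x → K`, an isometry with `j (cpt M x i) = γK i`; its range is dense in `K` (it contains all
`γK i`). Similarly `j' : Cls M x' → K` with `j' (cpt M x' i) = γK' i`. By `residual_range` both ranges
are residual in `K`; `K` is a nonempty Baire space (complete), so there is a common point
`w = j y = j' y'` (`dense_of_mem_residual`). For every `n`:
`y ∈ P n ↔ w ∈ closure (γK '' codeA M x n)` (`mem_closure_P`) `↔ w ∈ closure (γK' '' codeA M x' n)`
`↔ y' ∈ P n`. The middle equivalence: closures in the subtype `K` are the preimages of the closures in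
`M0` (`closure_subtype` or `Topology.IsEmbedding.closure_eq_preimage_closure_image`), and
`Subtype.val '' (γK '' s) = γ '' s`. By `hsep` `y.1 = y'.1`; `F x y`, `F x' y'`.
-/

namespace Pool.Agent.H93.EO

open Set Topology

variable {X : Type} [MeasurableSpace X] {F : X → X → Prop} {S : GenStr X F} {P : ℕ → Set X}

theorem part2B [StandardBorelSpace X] (hF : Equivalence F)
    (mF : MeasurableSet {p : X × X | F p.1 p.2}) (M : MetStr S P) (h0 : P 0 = univ)
    (hsep : ∀ a b : X, (∀ n, a ∈ P n ↔ b ∈ P n) → a = b) {x x' : X}
    (h : SameCode (codeR M x) (codeR M x') (codeA M x) (codeA M x')) : F x x' := by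
  obtain ⟨M0, i1, i2, γ, γ', hγ, hγ', hcl⟩ := h
  have hA : ∀ z : X, codeA M z 0 = univ := by
    intro z
    ext i
    simp only [codeA, h0, mem_ofPred_eq, mem_univ]
  have hK : closure (range γ') = closure (range γ) := by
    have := hcl 0
    rw [hA, hA, image_univ, image_univ] at this
    exact this.symm
  let K : Type := closure (range γ)
  have : CompleteSpace K := isClosed_closure.completeSpace_coe
  let _ : MeasurableSpace K := borel K
  have : BorelSpace K := ⟨rfl⟩
  let γK : ℕ → K := fun i => ⟨γ i, subset_closure (mem_range_self i)⟩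
  let γK' : ℕ → K := fun i => ⟨γ' i, hK ▸ subset_closure (mem_range_self i)⟩
  have : Nonempty K := ⟨γK 0⟩
  obtain ⟨j, hj, hji⟩ := extMap (cpt M x) (cpt_dense hF M x) γK (fun a b => hγ a b)
  obtain ⟨j', hj', hji'⟩ := extMap (cpt M x') (cpt_dense hF M x') γK' (fun a b => hγ' a b)
  have hd : DenseRange j := by
    have h1 : Dense (range γK) := by
      rw [Subtype.dense_iff]
      intro z hz
      have e : ((↑) : K → M0) '' range γK = range γ := by
        rw [← range_comp]
        rfl
      rw [e]
      exact hz
    refine h1.mono ?_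
    rintro _ ⟨i, rfl⟩
    exact ⟨cpt M x i, hji i⟩
  have hd' : DenseRange j' := by
    have h1 : Dense (range γK') := by
      rw [Subtype.dense_iff]
      intro z hz
      have e : ((↑) : K → M0) '' range γK' = range γ' := by
        rw [← range_comp]
        rfl
      rw [e, hK]
      exact hz
    refine h1.mono ?_
    rintro _ ⟨i, rfl⟩
    exact ⟨cpt M x' i, hji' i⟩
  have r1 := residual_range hF mF M x hj hd
  have r2 := residual_range hF mF M x' hj' hd'
  obtain ⟨w, ⟨y, hy⟩, ⟨y', hy'⟩⟩ := (dense_of_mem_residual (Filter.inter_mem r1 r2)).nonempty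
  have e1 : (fun i => j (cpt M x i)) = γK := funext hji
  have e2 : (fun i => j' (cpt M x' i)) = γK' := funext hji'
  have hyy : y.1 = y'.1 := by
    refine hsep _ _ fun n => ?_
    rw [← mem_closure_P hF M x hj n y, ← mem_closure_P hF M x' hj' n y', hy, hy', e1, e2,
      closure_subtype, closure_subtype]
    have f1 : ((↑) : K → M0) '' (γK '' codeA M x n) = γ '' codeA M x n := by
      rw [image_image]
    have f2 : ((↑) : K → M0) '' (γK' '' codeA M x' n) = γ' '' codeA M x' n := by
      rw [image_image]
    rw [f1, f2, hcl n]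
  have h1 : F x y.1 := y.2.2
  have h2 : F x' y'.1 := y'.2.2
  rw [hyy] at h1
  exact hF.trans h1 (hF.symm h2)

end Pool.Agent.H93.EO
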