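import Pool.Agent.H93.EO.IsoTop
set_option autoImplicit false

/-!
# H93/EO/LipAct: the action on 1-Lipschitz functions is continuous

Continuity of `(g,h) ↦ h (g⁻¹ u)` at `(g0,h0)` for fixed `u`: with `v = g⁻¹ u`, `v0 = g0⁻¹ u`:
`|h v - h0 v0| <= |h v - h v0| + |h v0 - h0 v0| <= dist v v0 + |h v0 - h0 v0|`; `v → v0` because
inversion and evaluation are continuous (`topGroup_isoG`, `continuous_app`), `h v0 → h0 v0` by
definition of the topology (`continuous_subtype_val`, `continuous_apply`).
(`continuous_induced_rng`, `continuous_pi_iff`, `Metric.continuous_iff` or `tendsto` with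
`squeeze_zero`.)
-/

namespace Pool.Agent.H93.EO

open Set Topology

instance contSMul_lipF (U : Type) [MetricSpace U] : ContinuousSMul (IsoG U) (LipF U) := by
  constructor
  have hval : ∀ v : U, Continuous fun h : LipF U => h.1 v := fun v =>
    (continuous_apply v).comp continuous_subtype_val
  refine continuous_induced_rng.2 (continuous_pi_iff.2 fun u => ?_)
  rw [continuous_iff_continuousAt]
  rintro ⟨g0, h0⟩
  show Filter.Tendsto (fun p : IsoG U × LipF U => (p.1 • p.2).1 u) (𝓝 (g0, h0)) (𝓝 ((g0 • h0).1 u))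
  rw [tendsto_iff_dist_tendsto_zero]
  have hB : Filter.Tendsto (fun p : IsoG U × LipF U => dist (p.1⁻¹.app u) (g0⁻¹.app u) +
      dist (p.2.1 (g0⁻¹.app u)) (h0.1 (g0⁻¹.app u))) (𝓝 (g0, h0)) (𝓝 0) := by
    have h1 : Continuous fun p : IsoG U × LipF U => dist (p.1⁻¹.app u) (g0⁻¹.app u) +
        dist (p.2.1 (g0⁻¹.app u)) (h0.1 (g0⁻¹.app u)) := by
      refine Continuous.add (Continuous.dist ?_ continuous_const) (Continuous.dist ?_ continuous_const)
      · exact (continuous_app u).comp (continuous_inv.comp continuous_fst)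
      · exact (hval _).comp continuous_snd
    have h2 := h1.tendsto (g0, h0)
    simpa using h2
  refine squeeze_zero (fun _ => dist_nonneg) (fun p => ?_) hB
  show dist (p.2.1 (p.1⁻¹.app u)) (h0.1 (g0⁻¹.app u)) ≤ _
  refine (dist_triangle _ (p.2.1 (g0⁻¹.app u)) _).trans ?_
  gcongr
  rw [Real.dist_eq]
  exact p.2.2.1 _ _

end Pool.Agent.H93.EO
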