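import Pool.Agent.H93.EO.LipPol
import Pool.Agent.H93.EO.LipAct
set_option autoImplicit false

/-!
# H93/EO/Fz: the truncated distance function of a set of members of a sequence

`fz c a` is the function `u ↦ inf_i (min 1 (dist u (c i)) if i ∈ a, else 1)`.
* in `[0,1]`, 1-Lipschitz: each member of the family is (`Real.iInf`, bounded below by `0`,
  `ciInf_le`, `le_ciInf`): this is `fzAux`, needed for the definition.
* `fz_zero` : `(fz c a).1 u = 0 ↔ u ∈ closure (c '' a)` (`Metric.mem_closure_iff`; `->`: for `ε`,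
  take `ε <= 1`, some member is `< ε`, so it is `dist u (c i)` with `i ∈ a`).
* `fz_iff` : `fz c a = fz c' a' ↔ closure (c '' a) = closure (c' '' a')`. `->` by `fz_zero`.
  `<-`: `(fz c a).1 u <= (fz c' a').1 u`: for `i ∈ a'`, `c' i ∈ closure (c '' a)`, so for every `ε`
  there is `j ∈ a` with `dist (c' i) (c j) < ε`, `dist u (c j) <= dist u (c' i) + ε`.
* `fz_smul` : `g • fz c a = fz (g ∘ c) a`, since `dist (g⁻¹ u) (c i) = dist u (g (c i))`.
* `measurable_fz` : `Measurable.iInf`, `Measurable.ite`, `Measurable.dist`.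
-/

namespace Pool.Agent.H93.EO

open Set Topology

open Classical in
/-- the family -/
noncomputable def fzv {U : Type} [MetricSpace U] (c : ℕ → U) (a : Set ℕ) (i : ℕ) (u : U) : ℝ :=
  if i ∈ a then min 1 (dist u (c i)) else 1

private theorem fzv_nonneg {U : Type} [MetricSpace U] (c : ℕ → U) (a : Set ℕ) (i : ℕ) (u : U) :
    0 ≤ fzv c a i u := by
  unfold fzv
  split_ifs
  · exact le_min zero_le_one dist_nonneg
  · exact zero_le_one

private theorem fzv_le_one {U : Type} [MetricSpace U] (c : ℕ → U) (a : Set ℕ) (i : ℕ) (u : U) :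
    fzv c a i u ≤ 1 := by
  unfold fzv
  split_ifs
  · exact min_le_left _ _
  · exact le_rfl

private theorem fzv_lip {U : Type} [MetricSpace U] (c : ℕ → U) (a : Set ℕ) (i : ℕ) (u v : U) :
    fzv c a i u ≤ fzv c a i v + dist u v := by
  unfold fzv
  split_ifs
  · rcases le_total 1 (dist v (c i)) with h | h
    · rw [min_eq_left h]
      exact (min_le_left _ _).trans (le_add_of_nonneg_right dist_nonneg)
    · rw [min_eq_right h]
      refine (min_le_right _ _).trans ?_
      have := dist_triangle u v (c i)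
      linarith
  · exact le_add_of_nonneg_right dist_nonneg

private theorem fzv_bdd {U : Type} [MetricSpace U] (c : ℕ → U) (a : Set ℕ) (u : U) :
    BddBelow (range fun i => fzv c a i u) := by
  refine ⟨0, ?_⟩
  rintro _ ⟨i, rfl⟩
  exact fzv_nonneg c a i u

private theorem fzv_inf_le {U : Type} [MetricSpace U] (c : ℕ → U) (a : Set ℕ) (u v : U) :
    (⨅ i, fzv c a i u) ≤ (⨅ i, fzv c a i v) + dist u v := by
  rw [← sub_le_iff_le_add]
  refine le_ciInf fun i => ?_
  rw [sub_le_iff_le_add]
  exact (ciInf_le (fzv_bdd c a u) i).trans (fzv_lip c a i u v)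

theorem fzAux {U : Type} [MetricSpace U] (c : ℕ → U) (a : Set ℕ) :
    (∀ u v, |(⨅ i, fzv c a i u) - ⨅ i, fzv c a i v| ≤ dist u v) ∧
      ∀ u, 0 ≤ (⨅ i, fzv c a i u) ∧ (⨅ i, fzv c a i u) ≤ 1 := by
  refine ⟨fun u v => ?_, fun u => ⟨?_, ?_⟩⟩
  · rw [abs_le]
    have h1 := fzv_inf_le c a u v
    have h2 := fzv_inf_le c a v u
    rw [dist_comm] at h2
    constructor
    · linarith
    · linarith
  · exact le_ciInf fun i => fzv_nonneg c a i u
  · exact (ciInf_le (fzv_bdd c a u) 0).trans (fzv_le_one c a 0 u)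

/-- truncated distance to the set `c '' a` -/
noncomputable def fz {U : Type} [MetricSpace U] (c : ℕ → U) (a : Set ℕ) : LipF U :=
  ⟨fun u => ⨅ i, fzv c a i u, fzAux c a⟩

private theorem fz_le_dist {U : Type} [MetricSpace U] (c : ℕ → U) (a : Set ℕ) (u : U) {i : ℕ}
    (hi : i ∈ a) : (fz c a).1 u ≤ dist u (c i) := by
  refine (ciInf_le (fzv_bdd c a u) i).trans ?_
  unfold fzv
  rw [if_pos hi]
  exact min_le_right _ _

theorem fz_zero {U : Type} [MetricSpace U] (c : ℕ → U) (a : Set ℕ) (u : U) :
    (fz c a).1 u = 0 ↔ u ∈ closure (c '' a) := by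
  constructor
  · intro h
    rw [Metric.mem_closure_iff]
    intro ε hε
    have h1 : (⨅ i, fzv c a i u) < min ε 1 := by
      have h2 : (⨅ i, fzv c a i u) = 0 := h
      rw [h2]
      exact lt_min hε one_pos
    obtain ⟨i, hi⟩ := exists_lt_of_ciInf_lt h1
    have h3 : i ∈ a := by
      by_contra hn
      unfold fzv at hi
      rw [if_neg hn] at hi
      exact absurd (hi.trans_le (min_le_right _ _)) (lt_irrefl _)
    refine ⟨c i, mem_image_of_mem c h3, ?_⟩
    unfold fzv at hi
    rw [if_pos h3] at hi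
    rcases min_lt_iff.1 (hi.trans_le (min_le_right _ _)) with h4 | h4
    · exact absurd h4 (lt_irrefl _)
    · rw [min_eq_right h4.le] at hi
      exact hi.trans_le (min_le_left _ _)
  · intro h
    apply le_antisymm
    · refine le_of_forall_pos_le_add fun ε hε => ?_
      obtain ⟨_, ⟨i, hi, rfl⟩, h1⟩ := Metric.mem_closure_iff.1 h ε hε
      rw [zero_add]
      exact (fz_le_dist c a u hi).trans h1.le
    · exact ((fz c a).2.2 u).1

private theorem fz_le {U : Type} [MetricSpace U] (c c' : ℕ → U) (a a' : Set ℕ)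
    (h : closure (c '' a) = closure (c' '' a')) (u : U) : (fz c a).1 u ≤ (fz c' a').1 u := by
  refine le_ciInf fun i => ?_
  unfold fzv
  split_ifs with hi
  · refine le_min ((fz c a).2.2 u).2 ?_
    refine le_of_forall_pos_le_add fun ε hε => ?_
    have h1 : c' i ∈ closure (c '' a) := by
      rw [h]
      exact subset_closure (mem_image_of_mem c' hi)
    obtain ⟨_, ⟨j, hj, rfl⟩, h2⟩ := Metric.mem_closure_iff.1 h1 ε hε
    have h3 := fz_le_dist c a u hj
    have h4 := dist_triangle u (c' i) (c j)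
    linarith
  · exact ((fz c a).2.2 u).2

theorem fz_iff {U : Type} [MetricSpace U] (c c' : ℕ → U) (a a' : Set ℕ) :
    fz c a = fz c' a' ↔ closure (c '' a) = closure (c' '' a') := by
  constructor
  · intro h
    ext u
    rw [← fz_zero, ← fz_zero, h]
  · intro h
    apply Subtype.ext
    funext u
    exact le_antisymm (fz_le c c' a a' h u) (fz_le c' c a' a h.symm u)

theorem fz_smul {U : Type} [MetricSpace U] (g : IsoG U) (c : ℕ → U) (a : Set ℕ) :
    g • fz c a = fz (fun i => g.app (c i)) a := by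
  apply Subtype.ext
  funext u
  rw [smul_val]
  change (⨅ i, fzv c a i (g⁻¹.app u)) = ⨅ i, fzv (fun i => g.app (c i)) a i u
  congr 1
  funext i
  have h1 : dist (g⁻¹.app u) (c i) = dist u (g.app (c i)) := by
    have h2 := IsoG.dist_app g (g⁻¹.app u) (c i)
    rw [IsoG.app_inv_app] at h2
    exact h2.symm
  unfold fzv
  rw [h1]

theorem measurable_fz {Ω U : Type} [MeasurableSpace Ω] [MetricSpace U]
    [SecondCountableTopology U] [MeasurableSpace U] [BorelSpace U] (c : Ω → ℕ → U)
    (hc : ∀ i, Measurable fun ω => c ω i) (a : Ω → Set ℕ) (ha : ∀ i, MeasurableSet {ω | i ∈ a ω})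
    (u : U) : Measurable fun ω => (fz (c ω) (a ω)).1 u := by
  change Measurable fun ω => ⨅ i, fzv (c ω) (a ω) i u
  refine Measurable.iInf fun i => ?_
  unfold fzv
  refine Measurable.ite (ha i) ?_ measurable_const
  exact measurable_const.min (measurable_const.dist (hc i))

end Pool.Agent.H93.EO
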