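import Pool.Agent.H93.EO.Def3
set_option autoImplicit false

/-!
# H93/EO/Compl: completion of a bare pseudo-metric, extension of isometries

* `complPM` : equip `A` with the pseudo-metric space structure given by `d` (local instance) and take
  `UniformSpace.Completion A`; `ι` the canonical map: `UniformSpace.Completion.denseRange_coe`,
  `UniformSpace.Completion.dist_eq`, instances `MetricSpace`, `CompleteSpace`.
* `extIso` : two maps with dense range into complete spaces and the same distances extend to an
  isometric bijection. E.g. with `f : U → V`: for `x` in `U` choose `a_n` with `α a_n → x`, then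
  `β a_n` is Cauchy; the limit is independent of the choice. Or: pull back the pseudo-metric to `A`
  (`PseudoMetricSpace.induced α`), `α` and `β` are isometries with dense range, both
  `IsUniformInducing`; `(hα.isDenseInducing).extend β` etc., or use
  `UniformSpace.Completion` comparison (`AbstractCompletion.compareEquiv`). The inverse is the same
  construction with the roles exchanged; both compositions are continuous and are the identity on a
  dense set.
-/

namespace Pool.Agent.H93.EO

open Set Topology

theorem complPM {A : Type} (d : A → A → ℝ) (h : IsPM d) :
    ∃ (U : Type) (_ : MetricSpace U) (_ : CompleteSpace U) (ι : A → U),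
      DenseRange ι ∧ ∀ a b, dist (ι a) (ι b) = d a b := by
  letI : PseudoMetricSpace A :=
    { dist := d
      dist_self := h.self
      dist_comm := h.symm
      dist_triangle := h.tri }
  exact ⟨UniformSpace.Completion A, inferInstance, inferInstance, fun a => (a : UniformSpace.Completion A),
    UniformSpace.Completion.denseRange_coe, fun a b => UniformSpace.Completion.dist_eq a b⟩

private theorem extIso_aux {A W : Type} [PseudoMetricSpace A] [MetricSpace W] [CompleteSpace W]
    (γ : A → W) (hd : DenseRange γ) (hi : Isometry γ) :
    ∃ E : UniformSpace.Completion A ≃ᵢ W, ∀ a : A, E (a : UniformSpace.Completion A) = γ a := by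
  have hI : Isometry (UniformSpace.Completion.extension γ) := hi.completion_extension
  have he : ∀ a : A, UniformSpace.Completion.extension γ (a : UniformSpace.Completion A) = γ a :=
    fun a => UniformSpace.Completion.extension_coe hi.uniformContinuous a
  have hs : Function.Surjective (UniformSpace.Completion.extension γ) := by
    have hc : IsClosed (range (UniformSpace.Completion.extension γ)) :=
      hI.isClosedEmbedding.isClosed_range
    have hsub : range γ ⊆ range (UniformSpace.Completion.extension γ) := by
      rintro _ ⟨a, rfl⟩
      exact ⟨_, he a⟩
    have hcl : closure (range γ) ⊆ range (UniformSpace.Completion.extension γ) :=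
      closure_minimal hsub hc
    intro w
    exact hcl (hd w)
  exact ⟨⟨Equiv.ofBijective _ ⟨hI.injective, hs⟩, hI⟩, he⟩

theorem extIso {A U V : Type} [MetricSpace U] [CompleteSpace U] [MetricSpace V]
    [CompleteSpace V] (α : A → U) (β : A → V) (hα : DenseRange α) (hβ : DenseRange β)
    (h : ∀ a b, dist (α a) (α b) = dist (β a) (β b)) : ∃ φ : U ≃ᵢ V, ∀ a, φ (α a) = β a := by
  letI : PseudoMetricSpace A := PseudoMetricSpace.induced α inferInstance
  have h1 : Isometry α := Isometry.of_dist_eq fun a b => rfl
  have h2 : Isometry β := Isometry.of_dist_eq fun a b => (h a b).symm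
  obtain ⟨E, hE⟩ := extIso_aux α hα h1
  obtain ⟨F, hF⟩ := extIso_aux β hβ h2
  refine ⟨E.symm.trans F, fun a => ?_⟩
  show F (E.symm (α a)) = β a
  rw [← hE a, E.symm_apply_apply, hF a]

end Pool.Agent.H93.EO
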