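import Pool.Agent.H93.EO.Tow

/-!
# H93/EO/TT: the union of the tower

* `dT_eq` : for every `l` above both levels, `dT d s t = dk d l (lift _ s.2) (lift _ t.2)`
  (`lift_lift` and `dk_lift` applied to `max s.1 t.1 <= l`).
* `isPM_dT` : move everything to `l = max` of the three levels with `dT_eq`; `isPM_dk`.
* `dT_pt` : level `0`.
* `denseIso_mapT` : isometric: `dT_eq`/definition, `mapk_lift`, `denseIso_mapk`; dense: given
  `t : T B` of level `k`, approximate `t.2` by `mapk i k s` (`denseIso_mapk`), both have level `k`.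
-/

set_option autoImplicit false

namespace Pool.Agent.H93.EO

open Set Topology

theorem dT_eq {A : Type} (d : A → A → ℝ) (s t : T A) (l : ℕ) (hs : s.1 ≤ l) (ht : t.1 ≤ l) :
    dT d s t = dk d l (lift hs s.2) (lift ht t.2) := by
  have h : max s.1 t.1 ≤ l := max_le hs ht
  unfold dT
  rw [← dk_lift d h, lift_lift, lift_lift]

theorem isPM_dT {A : Type} [Nonempty A] {d : A → A → ℝ} (h : IsPM d) : IsPM (dT d) where
  nonneg a b := (isPM_dk h _).nonneg _ _
  le_one a b := (isPM_dk h _).le_one _ _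
  self a := (isPM_dk h _).self _
  symm a b := by
    rw [dT_eq d a b (max a.1 b.1) (le_max_left _ _) (le_max_right _ _),
      dT_eq d b a (max a.1 b.1) (le_max_right _ _) (le_max_left _ _)]
    exact (isPM_dk h _).symm _ _
  tri a b c := by
    have ha : a.1 ≤ max a.1 (max b.1 c.1) := le_max_left _ _
    have hb : b.1 ≤ max a.1 (max b.1 c.1) := (le_max_left _ _).trans (le_max_right _ _)
    have hc : c.1 ≤ max a.1 (max b.1 c.1) := (le_max_right _ _).trans (le_max_right _ _)
    rw [dT_eq d a c _ ha hc, dT_eq d a b _ ha hb, dT_eq d b c _ hb hc]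
    exact (isPM_dk h _).tri _ _ _

theorem dT_pt {A : Type} (d : A → A → ℝ) (a b : A) : dT d (pt a) (pt b) = d a b := by
  rw [dT_eq d (pt a) (pt b) 0 le_rfl le_rfl]
  have h1 : lift (A := A) (k := (pt a).1) (l := 0) le_rfl (pt a).2 = (a : Tk A 0) := lift_self _
  have h2 : lift (A := A) (k := (pt b).1) (l := 0) le_rfl (pt b).2 = (b : Tk A 0) := lift_self _
  rw [h1, h2]
  rfl

theorem mapT_pt {A B : Type} (i : A → B) (a : A) : mapT i (pt a) = pt (i a) := rfl

theorem denseIso_mapT {A B : Type} [Nonempty A] {dA : A → A → ℝ} {dB : B → B → ℝ}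
    (hA : IsPM dA) (hB : IsPM dB) (i : A → B) (hi : DenseIso dA dB i) :
    DenseIso (dT dA) (dT dB) (mapT i) := by
  constructor
  · intro x y
    rw [dT_eq dB (mapT i x) (mapT i y) (max x.1 y.1) (le_max_left _ _) (le_max_right _ _),
      dT_eq dA x y (max x.1 y.1) (le_max_left _ _) (le_max_right _ _)]
    rw [← (denseIso_mapk hA hB i hi (max x.1 y.1)).1, mapk_lift, mapk_lift]
    rfl
  · intro b ε hε
    obtain ⟨a, ha⟩ := (denseIso_mapk hA hB i hi b.1).2 b.2 ε hε
    refine ⟨⟨b.1, a⟩, ?_⟩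
    rw [dT_eq dB (mapT i ⟨b.1, a⟩) b b.1 le_rfl le_rfl, lift_self]
    have h1 : lift (A := B) (k := (mapT i ⟨b.1, a⟩).1) (l := b.1) le_rfl (mapT i ⟨b.1, a⟩).2 =
        mapk i b.1 a := lift_self _
    rw [h1]
    exact ha

theorem countable_T (A : Type) [Countable A] : Countable (T A) := by
  haveI := fun k => countable_Tk A k
  unfold T
  infer_instance

end Pool.Agent.H93.EO
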