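import Pool.Agent.H93.EO.SameA
import Pool.Agent.H93.EO.TT
import Pool.Agent.H93.EO.Compl
set_option autoImplicit false

/-!
# H93/EO/Gmk: structures with a common realisation are moved to each other by an isometry of `U`

`sameCode_dense` gives `K, c, c'`. `dK = dist` on `K` is `IsPM`: `<= 1` on the dense set `range c`
(`r <= 1`), hence everywhere (closed condition; `DenseRange.induction_on₂`). `c : ℕ → K` is a
`DenseIso r dK`, `c'` is a `DenseIso r' dK`. `complPM (dT dK)` (`isPM_dT`; `K` nonempty) gives `W`,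
`ι : T K → W` dense with `dist (ι s) (ι t) = dT dK s t`. `β = ι ∘ mapT c : T ℕ → W` has dense range
(`denseIso_mapT`: every `ι b` is within `ε` of some `β a`) and
`dist (β s) (β t) = dT r s t = dist (v s) (v t)`; `extIso v β` gives `φ1 : U ≃ᵢ W`,
`φ1 (v t) = ι (mapT c t)`. In the same way `φ2 : U ≃ᵢ W`, `φ2 (v' t) = ι (mapT c' t)`.
Put `φ = φ1.trans φ2.symm`. Let `κ : K → W`, `κ x = ι (pt x)`, an isometry (`dT_pt`).
`φ1 '' closure {v (pt i) : i ∈ a n} = closure {κ (c i) : i ∈ a n}` (`Homeomorph.image_closure`,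
`mapT_pt`) `= closure (κ '' closure (c '' a n))` (`closure_image_closure` for continuous `κ`)
`= closure (κ '' closure (c' '' a' n)) = φ2 '' closure {v' (pt i) : i ∈ a' n}`.
-/

namespace Pool.Agent.H93.EO

open Set Topology

private theorem gmk_dense {K W : Type} [MetricSpace K] [MetricSpace W] {r : ℕ → ℕ → ℝ}
    (c : ℕ → K) (ι : T K → W) (hι : DenseRange ι)
    (hιd : ∀ s t, dist (ι s) (ι t) = dT (fun x y : K => dist x y) s t)
    (hc : DenseIso (dT r) (dT fun x y : K => dist x y) (mapT c)) :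
    DenseRange fun t => ι (mapT c t) := by
  intro w
  rw [Metric.mem_closure_range_iff]
  intro ε hε
  obtain ⟨s, hs⟩ := hι.exists_dist_lt w (half_pos hε)
  obtain ⟨a, ha⟩ := hc.2 s (ε / 2) (half_pos hε)
  refine ⟨a, ?_⟩
  have h1 : dist (ι s) (ι (mapT c a)) < ε / 2 := by
    rw [dist_comm, hιd]
    exact ha
  have h2 := dist_triangle w (ι s) (ι (mapT c a))
  linarith

private theorem gmk_img {K W U : Type} [MetricSpace K] [MetricSpace W] [MetricSpace U]
    {v : T ℕ → U} (c : ℕ → K) (ι : T K → W)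
    (hιd : ∀ s t, dist (ι s) (ι t) = dT (fun x y : K => dist x y) s t) (φ : U ≃ᵢ W)
    (hφ : ∀ t, φ (v t) = ι (mapT c t)) (S : Set ℕ) :
    φ '' closure ((fun i => v (pt i)) '' S) = closure ((fun x => ι (pt x)) '' closure (c '' S)) := by
  have hκ : Isometry fun x : K => ι (pt x) := by
    refine Isometry.of_dist_eq fun x y => ?_
    rw [hιd, dT_pt]
  have h1 : φ '' closure ((fun i => v (pt i)) '' S) = closure (φ '' ((fun i => v (pt i)) '' S)) :=
    φ.toHomeomorph.image_closure _
  rw [h1, closure_image_closure hκ.continuous]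
  congr 1
  rw [image_image, image_image]
  refine image_congr fun i _ => ?_
  rw [hφ, mapT_pt]

theorem gmk {U : Type} [MetricSpace U] [CompleteSpace U] {r r' : ℕ → ℕ → ℝ} (hr : IsPM r)
    (hr' : IsPM r') (v v' : T ℕ → U) (hv : ∀ s t, dist (v s) (v t) = dT r s t)
    (hv' : ∀ s t, dist (v' s) (v' t) = dT r' s t) (hd : DenseRange v) (hd' : DenseRange v')
    {a a' : ℕ → Set ℕ} (h : SameCode r r' a a') (ha : a 0 = univ) (ha' : a' 0 = univ) :
    ∃ φ : U ≃ᵢ U, ∀ n, φ '' closure ((fun i => v (pt i)) '' a n) =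
      closure ((fun i => v' (pt i)) '' a' n) := by
  obtain ⟨K, mK, c, c', hc, hc', hr1, hr2, hcl⟩ := sameCode_dense h ha ha'
  have hne : Nonempty K := ⟨c 0⟩
  have hle : ∀ x y : K, dist x y ≤ 1 := by
    intro x y
    exact hc.induction_on₂ (p := fun x y : K => dist x y ≤ 1)
      (isClosed_le continuous_dist continuous_const)
      (fun i j => by rw [hr1]; exact hr.le_one i j) x y
  have hdK : IsPM (fun x y : K => dist x y) :=
    { nonneg := fun _ _ => dist_nonneg
      le_one := hle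
      self := dist_self
      symm := dist_comm
      tri := dist_triangle }
  have d1 : DenseIso r (fun x y : K => dist x y) c := by
    refine ⟨fun x y => hr1 x y, fun b ε hε => ?_⟩
    obtain ⟨i, hi⟩ := hc.exists_dist_lt b hε
    exact ⟨i, by rw [dist_comm] at hi; exact hi⟩
  have d2 : DenseIso r' (fun x y : K => dist x y) c' := by
    refine ⟨fun x y => hr2 x y, fun b ε hε => ?_⟩
    obtain ⟨i, hi⟩ := hc'.exists_dist_lt b hε
    exact ⟨i, by rw [dist_comm] at hi; exact hi⟩
  obtain ⟨W, mW, cW, ι, hι, hιd⟩ := complPM (dT fun x y : K => dist x y) (isPM_dT hdK)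
  have dd1 := denseIso_mapT hr hdK c d1
  have dd2 := denseIso_mapT hr' hdK c' d2
  obtain ⟨φ1, h1⟩ := extIso v (fun t => ι (mapT c t)) hd (gmk_dense c ι hι hιd dd1)
    (fun s t => by rw [hv, hιd, dd1.1])
  obtain ⟨φ2, h2⟩ := extIso v' (fun t => ι (mapT c' t)) hd' (gmk_dense c' ι hι hιd dd2)
    (fun s t => by rw [hv', hιd, dd2.1])
  refine ⟨φ1.trans φ2.symm, fun n => ?_⟩
  have e1 := gmk_img c ι hιd φ1 h1 (a n)
  have e2 := gmk_img c' ι hιd φ2 h2 (a' n)
  rw [hcl n, ← e2] at e1
  have e3 : (φ1.trans φ2.symm) '' closure ((fun i => v (pt i)) '' a n) =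
      φ2.symm '' (φ1 '' closure ((fun i => v (pt i)) '' a n)) := by
    rw [image_image]
    rfl
  rw [e3, e1, image_image]
  simp only [IsometryEquiv.symm_apply_apply, image_id']

end Pool.Agent.H93.EO
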