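import Pool.Agent.H93.EO.IsoTop
set_option autoImplicit false

/-!
# H93/EO/IsoPol: the isometry group of a complete separable space is Polish

`s` countable dense in `U`. `J : IsoG U → (s → U) × (s → U)`, `J g = (g x, g⁻¹ x)_x`. It is a closed
embedding, see the comments. Then `IsClosedEmbedding.polishSpace`.
-/

namespace Pool.Agent.H93.EO

open Set Topology Filter

/-- the coordinate map -/
noncomputable def isoJ (U : Type) [MetricSpace U] (s : Set U) (g : IsoG U) : (s → U) × (s → U) :=
  (fun x => g.app x.1, fun x => g⁻¹.app x.1)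

theorem continuous_app' {U : Type} [MetricSpace U] (u : U) :
    Continuous fun g : IsoG U => g.app u :=
  (continuous_apply u).comp continuous_induced_dom

theorem continuous_inv_app' {U : Type} [MetricSpace U] (u : U) :
    Continuous fun g : IsoG U => g⁻¹.app u := by
  rw [continuous_iff_continuousAt]
  intro g0
  rw [ContinuousAt, tendsto_iff_dist_tendsto_zero]
  have h1 : ∀ g : IsoG U, dist (g⁻¹.app u) (g0⁻¹.app u) = dist (g.app (g0⁻¹.app u)) u := by
    intro g
    rw [← IsoG.dist_app g, IsoG.app_inv_app, dist_comm]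
  simp only [h1]
  have h2 : Tendsto (fun g : IsoG U => g.app (g0⁻¹.app u)) (𝓝 g0) (𝓝 (g0.app (g0⁻¹.app u))) :=
    (continuous_app' (g0⁻¹.app u)).tendsto g0
  rw [IsoG.app_inv_app] at h2
  exact tendsto_iff_dist_tendsto_zero.mp h2

theorem continuous_isoJ (U : Type) [MetricSpace U] (s : Set U) : Continuous (isoJ U s) :=
  (continuous_pi (X := IsoG U) fun x : s => continuous_app' x.1).prodMk
    (continuous_pi (X := IsoG U) fun x : s => continuous_inv_app' x.1)

theorem IsoG.ext_app {U : Type} [MetricSpace U] {g h : IsoG U} (H : ∀ u, g.app u = h.app u) :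
    g = h := by
  have : g.iso = h.iso := IsometryEquiv.ext H
  exact this

theorem IsoG.continuous_app_self {U : Type} [MetricSpace U] (g : IsoG U) : Continuous g.app :=
  g.iso.continuous

/-- 3 epsilon -/
theorem dist_app_le {U : Type} [MetricSpace U] (g h : IsoG U) (u x : U) :
    dist (g.app u) (h.app u) ≤ 2 * dist u x + dist (g.app x) (h.app x) := by
  calc dist (g.app u) (h.app u) ≤ dist (g.app u) (g.app x) + dist (g.app x) (h.app x)
        + dist (h.app x) (h.app u) := dist_triangle4 _ _ _ _
    _ = _ := by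
      rw [IsoG.dist_app, IsoG.dist_app, dist_comm x u]; ring

theorem isInducing_isoJ (U : Type) [MetricSpace U] (s : Set U) (hs : Dense s) :
    IsInducing (isoJ U s) := by
  rw [isInducing_iff_nhds]
  intro g0
  refine le_antisymm ((continuous_isoJ U s).tendsto g0).le_comap ?_
  -- the filter on the left is finer
  have key : ∀ u : U, Tendsto (fun g : IsoG U => g.app u) (comap (isoJ U s) (𝓝 (isoJ U s g0)))
      (𝓝 (g0.app u)) := by
    intro u
    rw [Metric.tendsto_nhds]
    intro ε hε
    obtain ⟨x, hx, hxu⟩ := hs.exists_dist_lt u (show (0 : ℝ) < ε / 4 by positivity)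
    have h1 : Tendsto (fun g : IsoG U => g.app x) (comap (isoJ U s) (𝓝 (isoJ U s g0)))
        (𝓝 (g0.app x)) := by
      have h2 : Tendsto (fun p : (s → U) × (s → U) => p.1 ⟨x, hx⟩) (𝓝 (isoJ U s g0))
          (𝓝 ((isoJ U s g0).1 ⟨x, hx⟩)) :=
        ((continuous_apply _).comp continuous_fst).tendsto _
      exact h2.comp tendsto_comap
    filter_upwards [(Metric.tendsto_nhds.mp h1) (ε / 4) (by positivity)] with g hg
    have := dist_app_le g g0 u x
    linarith
  rw [nhds_induced]
  rw [← tendsto_iff_comap]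
  exact tendsto_pi_nhds.mpr key

theorem injective_isoJ (U : Type) [MetricSpace U] (s : Set U) (hs : Dense s) :
    Function.Injective (isoJ U s) := by
  intro g h hgh
  apply IsoG.ext_app
  have : g.app = h.app := by
    refine Continuous.ext_on hs g.continuous_app_self h.continuous_app_self ?_
    intro x hx
    exact congrFun (congrArg Prod.fst hgh) ⟨x, hx⟩
  intro u
  rw [this]

theorem cauchy_of_dense {U : Type} [MetricSpace U] (s : Set U) (hs : Dense s)
    (g : ℕ → IsoG U) (h : ∀ x ∈ s, CauchySeq fun k => (g k).app x) (u : U) :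
    CauchySeq fun k => (g k).app u := by
  rw [Metric.cauchySeq_iff]
  intro ε hε
  obtain ⟨x, hx, hxu⟩ := hs.exists_dist_lt u (show (0 : ℝ) < ε / 4 by positivity)
  obtain ⟨N, hN⟩ := (Metric.cauchySeq_iff.mp (h x hx)) (ε / 4) (by positivity)
  refine ⟨N, fun m hm n hn => ?_⟩
  have h1 := dist_app_le (g m) (g n) u x
  have h2 := hN m hm n hn
  linarith

theorem isClosed_range_isoJ (U : Type) [MetricSpace U] [CompleteSpace U]
    [SecondCountableTopology U] (s : Set U) (hc : s.Countable) (hs : Dense s) :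
    IsClosed (range (isoJ U s)) := by
  have : Countable s := hc.to_subtype
  rw [← isSeqClosed_iff_isClosed]
  intro p ab hp hlim
  choose g hg using hp
  have hlim1 : ∀ x (hx : x ∈ s), Tendsto (fun k => (g k).app x) atTop (𝓝 (ab.1 ⟨x, hx⟩)) := by
    intro x hx
    have h2 : Tendsto (fun k => (p k).1 ⟨x, hx⟩) atTop (𝓝 (ab.1 ⟨x, hx⟩)) :=
      (((continuous_apply (A := fun _ : s => U) ⟨x, hx⟩).comp continuous_fst).tendsto ab).comp hlim
    refine h2.congr fun k => ?_
    rw [← hg k]
    rfl
  have hlim2 : ∀ x (hx : x ∈ s), Tendsto (fun k => (g k)⁻¹.app x) atTop (𝓝 (ab.2 ⟨x, hx⟩)) := by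
    intro x hx
    have h2 : Tendsto (fun k => (p k).2 ⟨x, hx⟩) atTop (𝓝 (ab.2 ⟨x, hx⟩)) :=
      (((continuous_apply (A := fun _ : s => U) ⟨x, hx⟩).comp continuous_snd).tendsto ab).comp hlim
    refine h2.congr fun k => ?_
    rw [← hg k]
    rfl
  have c1 : ∀ u, CauchySeq fun k => (g k).app u :=
    cauchy_of_dense s hs g fun x hx => (hlim1 x hx).cauchySeq
  have c2 : ∀ u, CauchySeq fun k => (g k)⁻¹.app u :=
    cauchy_of_dense s hs (fun k => (g k)⁻¹) fun x hx => (hlim2 x hx).cauchySeq
  choose G hG using fun u => cauchySeq_tendsto_of_complete (c1 u)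
  choose H hH using fun u => cauchySeq_tendsto_of_complete (c2 u)
  have dG : ∀ u v, dist (G u) (G v) = dist u v := by
    intro u v
    refine tendsto_nhds_unique ((hG u).dist (hG v)) ?_
    simp only [IsoG.dist_app]
    exact tendsto_const_nhds
  have dH : ∀ u v, dist (H u) (H v) = dist u v := by
    intro u v
    refine tendsto_nhds_unique ((hH u).dist (hH v)) ?_
    simp only [IsoG.dist_app]
    exact tendsto_const_nhds
  have GH : ∀ u, G (H u) = u := by
    intro u
    have h1 : Tendsto (fun k => (g k).app ((g k)⁻¹.app u)) atTop (𝓝 (G (H u))) := by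
      rw [tendsto_iff_dist_tendsto_zero]
      have h2 : Tendsto (fun k => dist ((g k)⁻¹.app u) (H u) + dist ((g k).app (H u)) (G (H u)))
          atTop (𝓝 (0 + 0)) :=
        (tendsto_iff_dist_tendsto_zero.mp (hH u)).add (tendsto_iff_dist_tendsto_zero.mp (hG (H u)))
      rw [add_zero] at h2
      refine squeeze_zero (fun _ => dist_nonneg) (fun k => ?_) h2
      calc dist ((g k).app ((g k)⁻¹.app u)) (G (H u))
          ≤ dist ((g k).app ((g k)⁻¹.app u)) ((g k).app (H u)) + dist ((g k).app (H u)) (G (H u)) :=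
            dist_triangle _ _ _
        _ = _ := by rw [IsoG.dist_app]
    refine tendsto_nhds_unique h1 ?_
    simp only [IsoG.app_inv_app]
    exact tendsto_const_nhds
  have HG : ∀ u, H (G u) = u := by
    intro u
    have h1 : Tendsto (fun k => (g k)⁻¹.app ((g k).app u)) atTop (𝓝 (H (G u))) := by
      rw [tendsto_iff_dist_tendsto_zero]
      have h2 : Tendsto (fun k => dist ((g k).app u) (G u) + dist ((g k)⁻¹.app (G u)) (H (G u)))
          atTop (𝓝 (0 + 0)) :=
        (tendsto_iff_dist_tendsto_zero.mp (hG u)).add (tendsto_iff_dist_tendsto_zero.mp (hH (G u)))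
      rw [add_zero] at h2
      refine squeeze_zero (fun _ => dist_nonneg) (fun k => ?_) h2
      calc dist ((g k)⁻¹.app ((g k).app u)) (H (G u))
          ≤ dist ((g k)⁻¹.app ((g k).app u)) ((g k)⁻¹.app (G u))
            + dist ((g k)⁻¹.app (G u)) (H (G u)) := dist_triangle _ _ _
        _ = _ := by rw [IsoG.dist_app]
    refine tendsto_nhds_unique h1 ?_
    simp only [IsoG.inv_app_app]
    exact tendsto_const_nhds
  let F : U ≃ᵢ U := IsometryEquiv.mk ⟨G, H, HG, GH⟩ (Isometry.of_dist_eq dG)
  let g0 : IsoG U := F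
  have hgapp : ∀ u, g0.app u = G u := fun u => rfl
  have hginv : ∀ u, g0⁻¹.app u = H u := by
    intro u
    have h1 := IsoG.inv_app_app g0 (H u)
    rw [hgapp, GH] at h1
    exact h1
  refine ⟨g0, Prod.ext ?_ ?_⟩
  · funext x
    exact tendsto_nhds_unique (hG x.1) (hlim1 x.1 x.2)
  · funext x
    show g0⁻¹.app x.1 = ab.2 x
    rw [hginv]
    exact tendsto_nhds_unique (hH x.1) (hlim2 x.1 x.2)

instance polish_isoG (U : Type) [MetricSpace U] [CompleteSpace U]
    [SecondCountableTopology U] : PolishSpace (IsoG U) := by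
  obtain ⟨s, hsc, hsd⟩ := TopologicalSpace.exists_countable_dense U
  have : Countable s := hsc.to_subtype
  have hE : IsClosedEmbedding (isoJ U s) :=
    ⟨⟨isInducing_isoJ U s hsd, injective_isoJ U s hsd⟩, isClosed_range_isoJ U s hsc hsd⟩
  exact hE.polishSpace

end Pool.Agent.H93.EO
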