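import Pool.Agent.H93.EO.Emb2
import Pool.Agent.H93.EO.Gmk
import Pool.Agent.H93.EO.Fz
import Pool.Agent.H93.EO.IsoPol
set_option autoImplicit false

/-!
# H93/EO/Part3: coded separable metric structures are classified by orbits of a Polish group

`emb2` gives `U` and `v`. `G = IsoG U` (`polish_isoG`, `topGroup_isoG`), `Z = ℕ → LipF U`
(`polish_lipF`, countable product; action pointwise; `MeasurableSpace Z := borel Z`),
`f ω = fun n => fz (fun i => v ω (pt i)) (a ω n)`.
Measurable: `Z` has the product topology of countably many second countable spaces: give `LipF U` the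
sigma-algebra `borel` and use `measurable_pi_iff` with `Pi.borelSpace`
(the `borel Z` equals the product sigma-algebra), `measurable_lipF`, `measurable_fz`.
`->`: `gmk` gives `φ`; `g = φ`; `g • f ω n = fz (g ∘ c) (a ω n)` (`fz_smul`), and
`closure ((g ∘ c) '' a n) = φ '' closure (c '' a n) = closure (c' '' a' n)`, `fz_iff`.
`<-`: `M = U`, `c i = g (v ω (pt i))`, `c' i = v ω' (pt i)`; distances: `dT_pt`; closures: `fz_smul`,
`fz_iff`.
-/

namespace Pool.Agent.H93.EO

open Set Topology

theorem part3 {Ω : Type} [MeasurableSpace Ω] (r : Ω → ℕ → ℕ → ℝ) (hr : ∀ ω, IsPM (r ω))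
    (hm : ∀ i j, Measurable fun ω => r ω i j) (a : Ω → ℕ → Set ℕ)
    (ha0 : ∀ ω, a ω 0 = univ) (ha : ∀ n i, MeasurableSet {ω | i ∈ a ω n}) :
    ∃ (G Z : Type) (_ : TopologicalSpace G) (_ : Group G) (_ : IsTopologicalGroup G)
      (_ : PolishSpace G) (_ : TopologicalSpace Z) (_ : PolishSpace Z) (_ : MeasurableSpace Z)
      (_ : BorelSpace Z) (_ : MulAction G Z) (_ : ContinuousSMul G Z) (f : Ω → Z),
      Measurable f ∧ ∀ ω ω', SameCode (r ω) (r ω') (a ω) (a ω') ↔ ∃ g : G, g • f ω = f ω' := by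
  obtain ⟨U, iM, iC, iS, iMe, iB, v, hv1, hv2, hv3⟩ := emb2 r hr hm
  let mL : MeasurableSpace (LipF U) := borel (LipF U)
  have bL : BorelSpace (LipF U) := ⟨rfl⟩
  have key : ∀ ω ω' (g : IsoG U) (n : ℕ),
      (g • fz (fun i => v ω (pt i)) (a ω n) = fz (fun i => v ω' (pt i)) (a ω' n)) ↔
      closure ((fun i => g.app (v ω (pt i))) '' a ω n) =
        closure ((fun i => v ω' (pt i)) '' a ω' n) := by
    intro ω ω' g n
    rw [fz_smul, fz_iff]
  refine ⟨IsoG U, ℕ → LipF U, inferInstance, inferInstance, inferInstance, inferInstance,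
    inferInstance, inferInstance, MeasurableSpace.pi, inferInstance, Pi.mulAction _, inferInstance,
    fun ω n => fz (fun i => v ω (pt i)) (a ω n), ?_, ?_⟩
  · refine measurable_pi_iff.mpr fun n => ?_
    refine measurable_lipF _ fun u => ?_
    exact measurable_fz (fun ω i => v ω (pt i)) (fun i => hv1 (pt i)) (fun ω => a ω n)
      (fun i => ha n i) u
  · intro ω ω'
    constructor
    · intro h
      obtain ⟨φ, hφ⟩ := gmk (hr ω) (hr ω') (v ω) (v ω') (hv2 ω) (hv2 ω') (hv3 ω) (hv3 ω') h
        (ha0 ω) (ha0 ω')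
      let g : IsoG U := φ
      refine ⟨g, ?_⟩
      funext n
      refine (key ω ω' g n).mpr ?_
      rw [← hφ n]
      have h1 : (fun i => g.app (v ω (pt i))) '' a ω n = φ '' ((fun i => v ω (pt i)) '' a ω n) := by
        rw [← image_comp]
        rfl
      rw [h1]
      exact (φ.toHomeomorph.image_closure _).symm
    · rintro ⟨g, hg⟩
      refine ⟨U, iM, iC, fun i => g.app (v ω (pt i)), fun i => v ω' (pt i), ?_, ?_, ?_⟩
      · intro i j
        rw [IsoG.dist_app, hv2, dT_pt]
      · intro i j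
        rw [hv2, dT_pt]
      · intro n
        exact (key ω ω' g n).mp (congrFun hg n)

end Pool.Agent.H93.EO
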