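import Pool.Agent.H93.EO.Part2A
import Pool.Agent.H93.EO.Part2B
import Pool.Agent.H93.EO.MetStrEx
import Pool.Agent.H93.EO.Part3
set_option autoImplicit false

namespace Pool.Agent.H93.EO

open Set Topology

variable {X : Type} [MeasurableSpace X] {F : X → X → Prop}

theorem part2 [StandardBorelSpace X] (hF : Equivalence F)
    (mF : MeasurableSet {p : X × X | F p.1 p.2}) (S : GenStr X F) :
    ∃ (G Z : Type) (_ : TopologicalSpace G) (_ : Group G) (_ : IsTopologicalGroup G)
      (_ : PolishSpace G) (_ : TopologicalSpace Z) (_ : PolishSpace Z) (_ : MeasurableSpace Z)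
      (_ : BorelSpace Z) (_ : MulAction G Z) (_ : ContinuousSMul G Z) (f : X → Z),
      Measurable f ∧ ∀ x x', F x x' ↔ ∃ g : G, g • f x = f x' := by
  obtain ⟨φ, hφ⟩ := MeasureTheory.exists_measurableEmbedding_real X
  obtain ⟨q, hq⟩ := exists_surjective_nat ℚ
  let P : ℕ → Set X := fun n => Nat.casesOn n univ fun k => {x | φ x < (q k : ℝ)}
  have hP : ∀ n, MeasurableSet (P n) := by
    intro n
    cases n with
    | zero => exact MeasurableSet.univ
    | succ k => exact measurableSet_lt hφ.measurable measurable_const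
  have h0 : P 0 = univ := rfl
  have hsep : ∀ a b : X, (∀ n, a ∈ P n ↔ b ∈ P n) → a = b := by
    intro a b h
    apply hφ.injective
    by_contra hne
    rcases lt_or_gt_of_ne hne with hlt | hlt
    · obtain ⟨r, hr1, hr2⟩ := exists_rat_btwn hlt
      obtain ⟨k, rfl⟩ := hq r
      have h1 : φ b < (q k : ℝ) := (h (k + 1)).1 hr1
      exact absurd h1 (not_lt.2 hr2.le)
    · obtain ⟨r, hr1, hr2⟩ := exists_rat_btwn hlt
      obtain ⟨k, rfl⟩ := hq r
      have h1 : φ a < (q k : ℝ) := (h (k + 1)).2 hr1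
      exact absurd h1 (not_lt.2 hr2.le)
  obtain ⟨M⟩ := exists_metStr hF mF S hP hsep
  obtain ⟨G, Z, i1, i2, i3, i4, i5, i6, i7, i8, i9, i10, f, hf, hfo⟩ :=
    part3 (Ω := X) (codeR M)
      (fun x =>
        { nonneg := fun i j => M.nonneg _ (M.cY i x) _ (M.cY j x)
          le_one := fun i j => M.le_one _ (M.cY i x) _ (M.cY j x)
          self := fun i => M.self _ (M.cY i x)
          symm := fun i j => M.symm _ (M.cY i x) _ (M.cY j x)
          tri := fun i j k => M.tri _ (M.cY i x) _ (M.cY j x) _ (M.cY k x) })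
      (fun i j => M.mρ.comp ((M.mc i).prodMk (M.mc j)))
      (codeA M)
      (fun x => by
        ext i
        simp [codeA, h0])
      (fun n i => M.mc i (hP n))
  refine ⟨G, Z, i1, i2, i3, i4, i5, i6, i7, i8, i9, i10, f, hf, fun x x' => ?_⟩
  rw [← hfo x x']
  exact ⟨fun h => part2A hF M h, fun h => part2B hF mF M h0 hsep h⟩

end Pool.Agent.H93.EO
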