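import Pool.Agent.H93.EO.CqB
import Pool.Agent.H93.EO.Part2
set_option autoImplicit false

/-!
# H93/EO/GenOf: the category structure of `CatData`, and the main theorem
-/

namespace Pool.Agent.H93.EO

open Set Topology TopologicalSpace

variable {X : Type} [MeasurableSpace X] {F : Setoid X}

/-- the category structure -/
noncomputable def genOf [StandardBorelSpace X] (C : CatData X F) :
    GenStr X (fun x y => F x y) where
  H := HH C
  e := e1 C
  gen := gn C
  sub _ _ _ h := hh_sub h
  cover _ _ h := hh_cover C h
  inter _ _ _ _ h h' := hh_inter C h h'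
  change _ _ _ _ hx h := hh_change C hx h
  eF i x := e1_F C i x
  dense _ _ _ h := hh_dense C h
  regular _ _ _ h := hh_regular C h
  mono _ _ _ h hP := gn_mono h hP
  nat _ _ h := gn_nat h
  inv _ _ _ hx h := gn_inv hx h
  baire _ _ _ h := gn_baire h
  openDense _ N h := gn_openDense C N h
  bp x _ hA := gn_bp C x hA
  mH n := mHH C n
  me i := me1 C i
  cq _ _ _ _ hπ A hA := cat_cq C hπ A hA

/-- the main theorem for bundled data -/
theorem main_cat [StandardBorelSpace X] (C : CatData X F) :
    ∃ (G Z : Type) (_ : TopologicalSpace G) (_ : Group G) (_ : IsTopologicalGroup G)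
      (_ : PolishSpace G) (_ : TopologicalSpace Z) (_ : PolishSpace Z) (_ : MeasurableSpace Z)
      (_ : BorelSpace Z) (_ : MulAction G Z) (_ : ContinuousSMul G Z) (f : X → Z),
      Measurable f ∧ ∀ x x' : X, F x x' ↔ ∃ g : G, g • f x = f x' :=
  part2 (F := fun x y => F x y) ⟨F.refl, F.symm, F.trans⟩ C.mF (genOf C)

end Pool.Agent.H93.EO
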