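import Pool.Agent.H93.EO.TT
set_option autoImplicit false

/-!
# H93/EO/AEm: the union of the tower has the approximate extension property

`S` a list in `T A`, `f` Katetov on it for `dT d`, `δ > 0`. Let `k` be a common upper bound of the
levels of the members of `S`. For `a` in `S` put `a' = lift _ a.2 : Tk A k`; the function `f' ` on
`Tk A k` is only needed on the list `S'` of the `a'`. Two members of `S` with the same lift have
distance `0` (`dT_eq`, `self`), so `f` takes the same value on them (`|f a - f b| <= dT a b = 0`);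
hence there is `f' : Tk A k → ℝ` with `f' (a') = f a` for all `a` in `S` (choose; or define `f' x`
as `f a` for some `a` in `S` with `lift a = x` if there is one). `f'` is Katetov on `S'` for `dk d k`.
Choose for every `a` in `S` a rational `q >= 0` with `|q - f a| <= δ` (`exists_rat_btwn` between
`f a` and `f a + δ`), `L` the list of the `(a', q)`. By `kf_approx` (for `dk d k`, `isPM_dk`),
`|kf (dk d k) L a' - f a| <= δ`. The term `φ = inr L` of level `k + 1` satisfies
`dT d φ a = dk d (k+1) (inr L) (inl a') = kf (dk d k) L a'` by `dT_eq` with `l = k + 1`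
(`lift` from `k` to `k+1` is `Sum.inl`).
-/

namespace Pool.Agent.H93.EO

open Set Topology

private theorem aem_bd {A : Type} (S : List (T A)) : ∃ k, ∀ a ∈ S, a.1 ≤ k := by
  induction S with
  | nil => exact ⟨0, fun a ha => by simp at ha⟩
  | cons b S ih =>
    obtain ⟨k, hk⟩ := ih
    refine ⟨max b.1 k, fun a ha => ?_⟩
    rcases List.mem_cons.1 ha with h | h
    · rw [h]
      exact le_max_left _ _
    · exact (hk a h).trans (le_max_right _ _)

private theorem aem_lift {A : Type} {k : ℕ} (s : Tk A k) :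
    lift (Nat.le_succ k) s = (Sum.inl s : Tk A (k + 1)) := by
  unfold lift
  exact Nat.leRecOn_succ' _

private theorem aem_q (y δ : ℝ) (hδ : 0 < δ) : ∃ q : ℚ, 0 ≤ y → |(q : ℝ) - y| ≤ δ ∧ 0 ≤ q := by
  obtain ⟨q, h1, h2⟩ := exists_rat_btwn (show y < y + δ by linarith)
  refine ⟨q, fun hy => ⟨?_, ?_⟩⟩
  · rw [abs_le]
    constructor <;> linarith
  · have h3 : (0 : ℝ) ≤ q := hy.trans h1.le
    exact_mod_cast h3

theorem ae_dT {A : Type} [Nonempty A] {d : A → A → ℝ} (h : IsPM d) : AE (dT d) := by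
  classical
  intro S f hf δ hδ
  obtain ⟨k, hk⟩ := aem_bd S
  haveI := nonempty_Tk A k
  obtain ⟨g, hg⟩ : ∃ g : T A → Tk A k, ∀ (a : T A) (ha : a.1 ≤ k), g a = lift ha a.2 :=
    ⟨fun a => if ha : a.1 ≤ k then lift ha a.2 else Classical.arbitrary _, fun a ha => dif_pos ha⟩
  have hdk := isPM_dk h k
  have hdist : ∀ a ∈ S, ∀ b ∈ S, dk d k (g a) (g b) = dT d a b := by
    intro a ha b hb
    rw [hg a (hk a ha), hg b (hk b hb)]
    exact (dT_eq d a b k (hk a ha) (hk b hb)).symm
  have hfeq : ∀ a ∈ S, ∀ b ∈ S, g a = g b → f a = f b := by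
    intro a ha b hb hab
    have h1 := (hf.2 a ha b hb).1
    rw [← hdist a ha b hb, hab, hdk.self] at h1
    exact sub_eq_zero.1 (abs_nonpos_iff.1 h1)
  obtain ⟨f', hf'⟩ : ∃ f' : Tk A k → ℝ, ∀ a ∈ S, f' (g a) = f a := by
    refine ⟨fun x => if hx : ∃ a, a ∈ S ∧ g a = x then f hx.choose else 0, fun a ha => ?_⟩
    have hx : ∃ b, b ∈ S ∧ g b = g a := ⟨a, ha, rfl⟩
    show (if hx : ∃ b, b ∈ S ∧ g b = g a then f hx.choose else 0) = f a
    rw [dif_pos hx]
    exact hfeq _ hx.choose_spec.1 a ha hx.choose_spec.2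
  have hK : Kat (dk d k) {x | x ∈ S.map g} f' := by
    constructor
    · intro x hx
      obtain ⟨a, ha, rfl⟩ := List.mem_map.1 hx
      rw [hf' a ha]
      exact hf.1 a ha
    · intro x hx y hy
      obtain ⟨a, ha, rfl⟩ := List.mem_map.1 hx
      obtain ⟨b, hb, rfl⟩ := List.mem_map.1 hy
      rw [hf' a ha, hf' b hb, hdist a ha b hb]
      exact hf.2 a ha b hb
  choose q hq using fun a : T A => aem_q (f a) δ hδ
  obtain ⟨L, hL⟩ : ∃ L : List (Tk A k × ℚ), L = S.map fun a => (g a, q a) := ⟨_, rfl⟩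
  have hkf := kf_approx hdk (S.map g) f' hK δ hδ.le L (by
    intro p hp
    rw [hL] at hp
    obtain ⟨a, ha, rfl⟩ := List.mem_map.1 hp
    have h1 := hq a (hf.1 a ha).1
    refine ⟨List.mem_map_of_mem ha, ?_, h1.2⟩
    show |(q a : ℝ) - f' (g a)| ≤ δ
    rw [hf' a ha]
    exact h1.1) (by
    intro x hx
    obtain ⟨a, ha, rfl⟩ := List.mem_map.1 hx
    refine ⟨(g a, q a), ?_, rfl⟩
    rw [hL]
    exact List.mem_map.2 ⟨a, ha, rfl⟩)
  refine ⟨⟨k + 1, (Sum.inr L : Tk A (k + 1))⟩, fun a ha => ?_⟩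
  have e1 := dT_eq d (⟨k + 1, (Sum.inr L : Tk A (k + 1))⟩ : T A) a (k + 1) le_rfl
    ((hk a ha).trans (Nat.le_succ k))
  rw [e1, lift_self, ← lift_lift (hk a ha) (Nat.le_succ k), aem_lift, ← hg a (hk a ha),
    ← hf' a ha]
  exact hkf (g a) (List.mem_map_of_mem ha)

end Pool.Agent.H93.EO
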