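import Pool.Agent.H93.EO.Def3
set_option autoImplicit false

/-!
# H93/EO/Br: approximate bridges between two pseudo-metrics on `ℕ` (definitions)

A bridge is a triple `(p, q, 2^(-s))`: point `p` of `(ℕ, D)` and point `q` of `(ℕ, D')` are glued up
to `2^(-s)`. Bridge `s` has a prescribed end (`p` for `s` even, `q` for `s` odd), the other end is
chosen least such that the new bridge is compatible with all former ones.
-/

namespace Pool.Agent.H93.EO

open Set Topology

/-- the prescribed end of bridge `s`; every number occurs infinitely often for both parities -/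
def tgt (s : ℕ) : ℕ := (Nat.unpair (s / 2)).1

/-- `(p,q,2^-s)` is compatible with the bridges `b t`, `t < s` -/
def BrOk (D D' : ℕ → ℕ → ℝ) (s : ℕ) (b : ℕ → ℕ × ℕ) (p q : ℕ) : Prop :=
  ∀ t < s, |D (b t).1 p - D' (b t).2 q| ≤ (1 / 2 : ℝ) ^ t + (1 / 2 : ℝ) ^ s

/-- the next bridge -/
noncomputable def nxt (D D' : ℕ → ℕ → ℝ) (s : ℕ) (b : ℕ → ℕ × ℕ) : ℕ × ℕ :=
  if s % 2 = 0 then (tgt s, sInf {q | BrOk D D' s b (tgt s) q})
  else (sInf {p | BrOk D D' s b p (tgt s)}, tgt s)

/-- the first `s` bridges -/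
noncomputable def hist (D D' : ℕ → ℕ → ℝ) : ℕ → ℕ → ℕ × ℕ
  | 0 => fun _ => (0, 0)
  | s + 1 => Function.update (hist D D' s) s (nxt D D' s (hist D D' s))

/-- bridge number `s` -/
noncomputable def br (D D' : ℕ → ℕ → ℝ) (s : ℕ) : ℕ × ℕ := hist D D' (s + 1) s

end Pool.Agent.H93.EO
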