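import Pool.Agent.H93.EO.Br
set_option autoImplicit false

/-!
# H93/EO/BrEx: a compatible bridge with one prescribed end exists

Write `p_t = (b t).1`, `q_t = (b t).2`, `δ_t = 2^(-t)`, pairwise condition
`|D p_t p_u - D' q_t q_u| <= δ_t + δ_u` for `t, u < s` (for `t = u` trivial). Given `p`.
If `s = 0` every `q` works. Put, for `x : ℕ`,
`f x = min (1, min_{t < s} (D p p_t + δ_t + D' q_t x))`
(a finite minimum; define it by `Finset.inf'` over `range s`, or by recursion on `s`; the API needed: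
`f x <= 1`, `f x <= D p p_t + δ_t + D' q_t x`, and `f x = 1` or equality for some `t`).
`f` is Katetov on the list of the `q_t`, `t < s`, for `D'` (even everywhere on the set):
* `0 <= f <= 1`;
* `f x <= D' x y + f y` : triangle inequality for `D'`;
* `D' x y <= f x + f y` for all `x, y`: clear if one value is `1`; otherwise
  `(D p p_t + δ_t + D' q_t x) + (D p p_u + δ_u + D' q_u y) >= D p_t p_u + δ_t + δ_u + D' q_t x + D' q_u y
   >= D' q_t q_u + D' q_t x + D' q_u y >= D' x y`.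
Also `|f q_t - D p_t p| <= δ_t`: `f q_t <= D p p_t + δ_t`; and `f q_t >= D p_t p - δ_t`: clear if
`f q_t = 1`, otherwise `D p p_u + δ_u + D' q_u q_t >= D p p_u + δ_u + D p_u p_t - δ_u - δ_t
>= D p p_t - δ_t`.
`AE D'` with `δ = δ_s` gives `q` with `|D' q q_t - f q_t| <= δ_s` for `t < s`, so
`|D p_t p - D' q_t q| <= δ_t + δ_s`.
The second theorem is the first one with the roles exchanged (swap the pairs, `abs_sub_comm`).
-/

namespace Pool.Agent.H93.EO

open Set Topology

private noncomputable def fm (D D' : ℕ → ℕ → ℝ) (b : ℕ → ℕ × ℕ) (p : ℕ) : ℕ → ℕ → ℝ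
  | 0, _ => 1
  | s + 1, x => min (fm D D' b p s x) (D p (b s).1 + (1 / 2 : ℝ) ^ s + D' (b s).2 x)

private lemma fm_le_one (D D' : ℕ → ℕ → ℝ) (b : ℕ → ℕ × ℕ) (p s x : ℕ) :
    fm D D' b p s x ≤ 1 := by
  induction s with
  | zero => exact le_refl _
  | succ s ih => exact (min_le_left _ _).trans ih

private lemma fm_le (D D' : ℕ → ℕ → ℝ) (b : ℕ → ℕ × ℕ) (p s x t : ℕ) (ht : t < s) :
    fm D D' b p s x ≤ D p (b t).1 + (1 / 2 : ℝ) ^ t + D' (b t).2 x := by
  induction s with
  | zero => omega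
  | succ s ih =>
    rcases Nat.lt_or_ge t s with h | h
    · exact (min_le_left _ _).trans (ih h)
    · have : t = s := by omega
      subst this
      exact min_le_right _ _

private lemma fm_eq (D D' : ℕ → ℕ → ℝ) (b : ℕ → ℕ × ℕ) (p s x : ℕ) :
    fm D D' b p s x = 1 ∨
      ∃ t < s, fm D D' b p s x = D p (b t).1 + (1 / 2 : ℝ) ^ t + D' (b t).2 x := by
  induction s with
  | zero => exact Or.inl rfl
  | succ s ih =>
    rcases min_choice (fm D D' b p s x) (D p (b s).1 + (1 / 2 : ℝ) ^ s + D' (b s).2 x) with h | h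
    · rcases ih with h1 | ⟨t, ht, h1⟩
      · exact Or.inl (by rw [fm, h, h1])
      · exact Or.inr ⟨t, by omega, by rw [fm, h, h1]⟩
    · exact Or.inr ⟨s, by omega, by rw [fm, h]⟩

private lemma fm_nonneg {D D' : ℕ → ℕ → ℝ} (h : IsPM D) (h' : IsPM D') (b : ℕ → ℕ × ℕ)
    (p s x : ℕ) : 0 ≤ fm D D' b p s x := by
  rcases fm_eq D D' b p s x with h1 | ⟨t, _, h1⟩
  · rw [h1]
    norm_num
  · rw [h1]
    have h2 := h.nonneg p (b t).1
    have h3 := h'.nonneg (b t).2 x
    positivity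

private lemma fm_lip {D D' : ℕ → ℕ → ℝ} (h' : IsPM D') (b : ℕ → ℕ × ℕ)
    (p s x y : ℕ) : fm D D' b p s x ≤ D' x y + fm D D' b p s y := by
  rcases fm_eq D D' b p s y with h1 | ⟨t, ht, h1⟩
  · rw [h1]
    have h2 := fm_le_one D D' b p s x
    have h3 := h'.nonneg x y
    linarith
  · rw [h1]
    have h2 := fm_le D D' b p s x t ht
    have h3 := h'.tri (b t).2 y x
    have h4 := h'.symm x y
    linarith

theorem brEx {D D' : ℕ → ℕ → ℝ} (h : IsPM D) (h' : IsPM D') (hA : AE D') (s : ℕ)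
    (b : ℕ → ℕ × ℕ)
    (hb : ∀ t < s, ∀ u < s, |D (b t).1 (b u).1 - D' (b t).2 (b u).2| ≤
      (1 / 2 : ℝ) ^ t + (1 / 2 : ℝ) ^ u) (p : ℕ) : ∃ q, BrOk D D' s b p q := by
  have htri : ∀ x y, D' x y ≤ fm D D' b p s x + fm D D' b p s y := by
    intro x y
    rcases fm_eq D D' b p s x with h1 | ⟨t, ht, h1⟩
    · rw [h1]
      have h2 := h'.le_one x y
      have h3 := fm_nonneg h h' b p s y
      linarith
    rcases fm_eq D D' b p s y with h2 | ⟨u, hu, h2⟩
    · rw [h2]
      have h3 := h'.le_one x y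
      have h4 := fm_nonneg h h' b p s x
      linarith
    rw [h1, h2]
    have h3 := abs_le.mp (hb t ht u hu)
    have h4 := h.tri (b t).1 p (b u).1
    have h5 := h.symm (b t).1 p
    have h6 := h'.tri x (b t).2 y
    have h7 := h'.tri (b t).2 (b u).2 y
    have h8 := h'.symm x (b t).2
    linarith [h3.1, h3.2]
  obtain ⟨q, hq⟩ := hA ((List.range s).map fun t => (b t).2) (fm D D' b p s)
    ⟨fun a _ => ⟨fm_nonneg h h' b p s a, fm_le_one D D' b p s a⟩, fun x _ y _ =>
      ⟨by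
        have h1 := fm_lip (D := D) h' b p s x y
        have h2 := fm_lip (D := D) h' b p s y x
        have h3 := h'.symm x y
        rw [abs_le]
        constructor <;> linarith, htri x y⟩⟩ ((1 / 2 : ℝ) ^ s) (by positivity)
  refine ⟨q, fun t ht => ?_⟩
  have h1 := hq (b t).2 (List.mem_map.mpr ⟨t, List.mem_range.mpr ht, rfl⟩)
  have h2 : |fm D D' b p s (b t).2 - D (b t).1 p| ≤ (1 / 2 : ℝ) ^ t := by
    rw [abs_le]
    have h3 := h.symm (b t).1 p
    constructor
    · rcases fm_eq D D' b p s (b t).2 with h4 | ⟨u, hu, h4⟩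
      · rw [h4]
        have h5 := h.le_one (b t).1 p
        have h6 : (0 : ℝ) ≤ (1 / 2 : ℝ) ^ t := by positivity
        linarith
      · rw [h4]
        have h5 := abs_le.mp (hb u hu t ht)
        have h6 := h.tri p (b u).1 (b t).1
        linarith [h5.1, h5.2]
    · have h4 := fm_le D D' b p s (b t).2 t ht
      have h5 := h'.self (b t).2
      linarith
  have h3 := h'.symm (b t).2 q
  rw [abs_le] at h1 h2 ⊢
  constructor <;> linarith [h1.1, h1.2, h2.1, h2.2]

theorem brEx' {D D' : ℕ → ℕ → ℝ} (h : IsPM D) (h' : IsPM D') (hA : AE D) (s : ℕ)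
    (b : ℕ → ℕ × ℕ)
    (hb : ∀ t < s, ∀ u < s, |D (b t).1 (b u).1 - D' (b t).2 (b u).2| ≤
      (1 / 2 : ℝ) ^ t + (1 / 2 : ℝ) ^ u) (q : ℕ) : ∃ p, BrOk D D' s b p q := by
  obtain ⟨p, hp⟩ := brEx h' h hA s (fun t => ((b t).2, (b t).1))
    (fun t ht u hu => by
      rw [abs_sub_comm]
      exact hb t ht u hu) q
  refine ⟨p, fun t ht => ?_⟩
  rw [abs_sub_comm]
  exact hp t ht

end Pool.Agent.H93.EO
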