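import Pool.Agent.H93.EO.Br
set_option autoImplicit false

/-!
# H93/EO/BrMeas: the bridges depend measurably on the matrix `D`

`ω ↦ hist (D ω) D' s t` is measurable into `ℕ × ℕ` (discrete sigma-algebra, countable) for all
`s, t`: induction on `s`. Step `t = s`: `nxt (D ω) D' s (hist (D ω) D' s)`. For fixed `p, q` the set
`{ω | BrOk (D ω) D' s (hist (D ω) D' s) p q}` is measurable: finite intersection over `t < s` of
`{ω | |D ω (b ω t).1 p - D' (b ω t).2 q| <= c}`, where `ω ↦ D ω (b ω t).1 p` is measurable because
`b ω t` takes countably many values (split over the values: `measurable_from_prod_countable...`, or: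
the set is the countable union over `(i,j)` of `{b ω t = (i,j)} ∩ {|D ω i p - D' j q| <= c}`).
`ω ↦ sInf {q | BrOk ..}` is measurable into `ℕ` (`measurable_to_countable'`): for `n`, the set
`{sInf = n}` is `{n in the set, no m < n in it}`, plus for `n = 0` the set where it is empty
(`Nat.sInf_def`, `Nat.sInf_empty`, `Nat.sInf_mem`, `Nat.sInf_le`).
-/

namespace Pool.Agent.H93.EO

open Set Topology

/-- the value of the matrix at a measurable index -/
private theorem bm_val {Ω : Type} [MeasurableSpace Ω] (D : Ω → ℕ → ℕ → ℝ)
    (hD : ∀ n m, Measurable fun ω => D ω n m) {f g : Ω → ℕ} (hf : Measurable f)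
    (hg : Measurable g) : Measurable fun ω => D ω (f ω) (g ω) := by
  intro S hS
  have h1 : (fun ω => D ω (f ω) (g ω)) ⁻¹' S =
      ⋃ i : ℕ, ⋃ j : ℕ, (f ⁻¹' {i} ∩ g ⁻¹' {j} ∩ (fun ω => D ω i j) ⁻¹' S) := by
    ext ω
    simp only [mem_preimage, mem_iUnion, mem_inter_iff, mem_singleton_iff]
    constructor
    · intro h
      exact ⟨f ω, g ω, ⟨rfl, rfl⟩, h⟩
    · rintro ⟨i, j, ⟨rfl, rfl⟩, h⟩
      exact h
  rw [h1]
  exact MeasurableSet.iUnion fun i => MeasurableSet.iUnion fun j =>
    ((hf (measurableSet_singleton i)).inter (hg (measurableSet_singleton j))).inter (hD i j hS)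

/-- the least element of a set depending measurably on the parameter -/
private theorem bm_inf {Ω : Type} [MeasurableSpace Ω] (P : Ω → ℕ → Prop)
    (hP : ∀ n, MeasurableSet {ω | P ω n}) : Measurable fun ω => sInf {n | P ω n} := by
  refine measurable_to_countable' fun n => ?_
  have h1 : (fun ω => sInf {n | P ω n}) ⁻¹' {n} =
      ({ω | P ω n} ∩ ⋂ m ∈ {m : ℕ | m < n}, {ω | P ω m}ᶜ) ∪
        (if n = 0 then ⋂ m : ℕ, {ω | P ω m}ᶜ else ∅) := by
    ext ω
    simp only [mem_preimage, mem_singleton_iff, mem_union, mem_inter_iff, mem_iInter, mem_compl_iff,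
      mem_ofPred_eq]
    constructor
    · intro h
      by_cases hne : {m | P ω m}.Nonempty
      · left
        refine ⟨?_, fun m hm hPm => ?_⟩
        · have := Nat.sInf_mem hne
          rw [h] at this
          exact this
        · have := Nat.sInf_le (s := {m | P ω m}) hPm
          omega
      · right
        rw [not_nonempty_iff_eq_empty] at hne
        rw [hne, Nat.sInf_empty] at h
        rw [if_pos h.symm]
        simp only [mem_iInter, mem_compl_iff, mem_ofPred_eq]
        intro m hm
        have h2 : m ∈ {m | P ω m} := hm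
        rw [hne] at h2
        exact h2
    · rintro (⟨h2, h3⟩ | h2)
      · apply le_antisymm
        · exact Nat.sInf_le (s := {m | P ω m}) h2
        · by_contra hlt
          push Not at hlt
          exact h3 _ hlt (Nat.sInf_mem (s := {m | P ω m}) ⟨n, h2⟩)
      · split_ifs at h2 with h0
        · simp only [mem_iInter, mem_compl_iff, mem_ofPred_eq] at h2
          have h3 : {m | P ω m} = ∅ := by
            rw [eq_empty_iff_forall_notMem]
            exact h2
          rw [h3, Nat.sInf_empty, h0]
        · exact absurd h2 (notMem_empty _)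
  rw [h1]
  refine MeasurableSet.union ((hP n).inter ?_) ?_
  · exact MeasurableSet.biInter (to_countable _) fun m _ => (hP m).compl
  · split_ifs
    · exact MeasurableSet.iInter fun m => (hP m).compl
    · exact MeasurableSet.empty

theorem measurable_hist {Ω : Type} [MeasurableSpace Ω] (D : Ω → ℕ → ℕ → ℝ)
    (hD : ∀ n m, Measurable fun ω => D ω n m) (D' : ℕ → ℕ → ℝ) (s t : ℕ) :
    Measurable fun ω => hist (D ω) D' s t := by
  induction s generalizing t with
  | zero => exact measurable_const
  | succ s ih =>
    have hok : ∀ p q, MeasurableSet {ω | BrOk (D ω) D' s (hist (D ω) D' s) p q} := by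
      intro p q
      have h1 : {ω | BrOk (D ω) D' s (hist (D ω) D' s) p q} =
          ⋂ t ∈ {t : ℕ | t < s}, {ω | |D ω (hist (D ω) D' s t).1 p -
            D' (hist (D ω) D' s t).2 q| ≤ (1 / 2 : ℝ) ^ t + (1 / 2 : ℝ) ^ s} := by
        ext ω
        simp only [BrOk, mem_ofPred_eq, mem_iInter]
      rw [h1]
      refine MeasurableSet.biInter (to_countable _) fun t _ => ?_
      refine measurableSet_le ?_ measurable_const
      refine continuous_abs.measurable.comp ((bm_val D hD (ih t).fst measurable_const).sub ?_)
      exact bm_val (fun _ => D') (fun _ _ => measurable_const) (ih t).snd measurable_const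
    by_cases hts : t = s
    · subst hts
      have h2 : (fun ω => hist (D ω) D' (t + 1) t) =
          fun ω => nxt (D ω) D' t (hist (D ω) D' t) := by
        funext ω
        rw [hist, Function.update_self]
      rw [h2]
      unfold nxt
      split_ifs
      · exact measurable_const.prodMk (bm_inf _ fun q => hok _ q)
      · exact (bm_inf _ fun p => hok p _).prodMk measurable_const
    · have h2 : (fun ω => hist (D ω) D' (s + 1) t) = fun ω => hist (D ω) D' s t := by
        funext ω
        rw [hist, Function.update_of_ne hts]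
      rw [h2]
      exact ih t

theorem measurable_br {Ω : Type} [MeasurableSpace Ω] (D : Ω → ℕ → ℕ → ℝ)
    (hD : ∀ n m, Measurable fun ω => D ω n m) (D' : ℕ → ℕ → ℝ) (s : ℕ) :
    Measurable fun ω => br (D ω) D' s :=
  measurable_hist D hD D' (s + 1) s

end Pool.Agent.H93.EO
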