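import Pool.Agent.H93.EO.BrEx
set_option autoImplicit false

/-!
# H93/EO/BrSeq: the bridges are pairwise compatible

* `hist_eq` : `hist s t = br t` for `t < s` (induction on `s`, `Function.update_of_ne`,
  `Function.update_self`).
* `br_ok` : for `t, s`: `|D (br t).1 (br s).1 - D' (br t).2 (br s).2| <= 2^-t + 2^-s`.
  Strong induction: prove for all `s` that the condition holds for all `t, u < s`. Step: the new
  bridge `br s = nxt s (hist s)` satisfies `BrOk s (hist s)`, because the set is nonempty by `brEx`
  (`brEx'` for `s` odd), `Nat.sInf_mem`; the former ones agree with `hist s` (`hist_eq`).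
  `t = u`: the left side is `|0 - 0|`. Symmetry: `h.symm`, `h'.symm`.
* `br_even`, `br_odd` : by definition; `2 * u / 2 = u`, `(2 * u + 1) / 2 = u`.
-/

namespace Pool.Agent.H93.EO

open Set Topology

theorem hist_eq (D D' : ℕ → ℕ → ℝ) {s t : ℕ} (h : t < s) : hist D D' s t = br D D' t := by
  induction s with
  | zero => omega
  | succ s ih =>
    rcases Nat.lt_or_ge t s with h1 | h1
    · rw [hist, Function.update_of_ne h1.ne]
      exact ih h1
    · have h2 : t = s := by omega
      subst h2
      rfl

theorem br_eq_nxt (D D' : ℕ → ℕ → ℝ) (s : ℕ) : br D D' s = nxt D D' s (hist D D' s) := by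
  rw [br, hist, Function.update_self]

theorem br_ok {D D' : ℕ → ℕ → ℝ} (h : IsPM D) (h' : IsPM D') (hA : AE D) (hA' : AE D')
    (t s : ℕ) : |D (br D D' t).1 (br D D' s).1 - D' (br D D' t).2 (br D D' s).2| ≤
      (1 / 2 : ℝ) ^ t + (1 / 2 : ℝ) ^ s := by
  have key : ∀ n : ℕ, ∀ t < n, ∀ u < n,
      |D (br D D' t).1 (br D D' u).1 - D' (br D D' t).2 (br D D' u).2| ≤
        (1 / 2 : ℝ) ^ t + (1 / 2 : ℝ) ^ u := by
    intro n
    induction n with
    | zero => intro t ht; omega
    | succ n ih =>
      have hb : ∀ t < n, ∀ u < n, |D (hist D D' n t).1 (hist D D' n u).1 -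
          D' (hist D D' n t).2 (hist D D' n u).2| ≤ (1 / 2 : ℝ) ^ t + (1 / 2 : ℝ) ^ u := by
        intro t ht u hu
        rw [hist_eq D D' ht, hist_eq D D' hu]
        exact ih t ht u hu
      have hok : BrOk D D' n (hist D D' n) (br D D' n).1 (br D D' n).2 := by
        rw [br_eq_nxt, nxt]
        split_ifs with hpar
        · exact Nat.sInf_mem (s := {q | BrOk D D' n (hist D D' n) (tgt n) q})
            (brEx h h' hA' n (hist D D' n) hb (tgt n))
        · exact Nat.sInf_mem (s := {p | BrOk D D' n (hist D D' n) p (tgt n)})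
            (brEx' h h' hA n (hist D D' n) hb (tgt n))
      have hok' : ∀ t < n, |D (br D D' t).1 (br D D' n).1 - D' (br D D' t).2 (br D D' n).2| ≤
          (1 / 2 : ℝ) ^ t + (1 / 2 : ℝ) ^ n := by
        intro t ht
        have h1 := hok t ht
        rwa [hist_eq D D' ht] at h1
      intro t ht u hu
      rcases Nat.lt_or_ge t n with h1 | h1
      · rcases Nat.lt_or_ge u n with h2 | h2
        · exact ih t h1 u h2
        · have h3 : u = n := by omega
          subst h3
          exact hok' t h1
      · have h3 : t = n := by omega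
        subst h3
        rcases Nat.lt_or_ge u t with h2 | h2
        · have h4 := hok' u h2
          rw [h.symm, h'.symm, add_comm] at h4
          exact h4
        · have h3 : u = t := by omega
          subst h3
          rw [h.self, h'.self, sub_zero, abs_zero]
          positivity
  exact key (max t s + 1) t (by omega) s (by omega)

theorem br_even (D D' : ℕ → ℕ → ℝ) (u : ℕ) : (br D D' (2 * u)).1 = (Nat.unpair u).1 := by
  rw [br_eq_nxt, nxt, if_pos (by omega)]
  show (Nat.unpair (2 * u / 2)).1 = _
  rw [show 2 * u / 2 = u by omega]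

theorem br_odd (D D' : ℕ → ℕ → ℝ) (u : ℕ) : (br D D' (2 * u + 1)).2 = (Nat.unpair u).1 := by
  rw [br_eq_nxt, nxt, if_neg (by omega)]
  show (Nat.unpair ((2 * u + 1) / 2)).1 = _
  rw [show (2 * u + 1) / 2 = u by omega]

end Pool.Agent.H93.EO
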