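import Pool.Agent.H93.EO.CatH
set_option autoImplicit false

/-!
# H93/EO/CatBP: Borel subsets of `X` have the Baire property in the classes

Fix `q` and `x` with `Quotient.mk F x = q`.
* `code_inj`: if `y, y' : Cl C q` have the same code then `y = y'`: the space is T0 and the sets
  `Bq C q x n` are a base: if `y ≠ y'` some `Bq C q x n` contains `y` and not `y'`
  (the space is T1: `{y'}ᶜ` is open).
* `code_borel`: for `B` measurable in `ℕ → Bool` the set `{y : Cl C q | code C x y.1 ∈ B}` has the Baire
  property: with `borel (Cl C q)` the map `y ↦ code C x y.1` is measurable (`measurable_pi_iff`,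
  `measurable_to_bool`: the preimage of `true` under coordinate `n` is `Bq C q x n`, open);
  `MeasurableSet.baireMeasurableSet`.
* `cat_bp`: the class `{y | Quotient.mk F y = q}` is measurable in `X` (preimage of `C.mF` under
  `y ↦ (x, y)`), so the subtype is standard Borel (`MeasurableSet.standardBorel`) and
  `f : {y : X // Quotient.mk F y = q} → (ℕ → Bool)`, `f y = code C x y.1` is measurable
  for the subtype sigma-algebra (`C.mO n`) and injective. So `B = f '' {y | y.1 ∈ A}` is
  measurable (`MeasurableSet.image_of_measurable_injOn` or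
  `Measurable.measurableEmbedding`) and `y.1 ∈ A ↔ f y ∈ B`. Apply `code_borel`.
-/

namespace Pool.Agent.H93.EO

open Set Topology TopologicalSpace

variable {X : Type} [MeasurableSpace X] {F : Setoid X}

private theorem code_true {C : CatData X F} {x y : X} {n : ℕ} :
    code C x y n = true ↔ y ∈ C.O n x := by
  unfold code
  simp

theorem code_inj (C : CatData X F) {q : Quotient F} {x : X} (h : Quotient.mk F x = q)
    {y y' : Cl C q} (hc : code C x y.1 = code C x y'.1) : y = y' := by
  have h1 : Inseparable y y' := by
    rw [(base' C h).inseparable_iff]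
    rintro _ ⟨n, rfl⟩
    have h2 := congrFun hc n
    constructor
    · intro hy
      exact code_true.1 (h2 ▸ code_true.2 hy)
    · intro hy
      exact code_true.1 (h2 ▸ code_true.2 hy)
  exact h1.eq

theorem code_borel (C : CatData X F) {q : Quotient F} {x : X} (h : Quotient.mk F x = q)
    {B : Set (ℕ → Bool)} (hB : MeasurableSet B) :
    BaireMeasurableSet {y : Cl C q | code C x y.1 ∈ B} := by
  let _ : MeasurableSpace (Cl C q) := borel _
  have _ : BorelSpace (Cl C q) := ⟨rfl⟩
  have hm : Measurable (fun y : Cl C q => code C x y.1) := by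
    refine measurable_pi_iff.2 fun n => measurable_to_bool ?_
    have he : (fun y : Cl C q => code C x y.1 n) ⁻¹' {true} = Bq C q x n := by
      ext y
      exact code_true
    rw [he]
    exact ((base' C h).isOpen (mem_range_self n)).measurableSet
  exact (hm hB).baireMeasurableSet

theorem cat_bp [StandardBorelSpace X] (C : CatData X F) (q : Quotient F) {A : Set X}
    (hA : MeasurableSet A) : BaireMeasurableSet {y : Cl C q | y.1 ∈ A} := by
  obtain ⟨x, hx⟩ := Quotient.exists_rep q
  have hD : MeasurableSet {y : X | Quotient.mk F y = q} := by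
    have he : {y : X | Quotient.mk F y = q} = (fun y => (x, y)) ⁻¹' {p : X × X | F p.1 p.2} := by
      ext y
      constructor
      · intro hy
        exact Quotient.exact (hx.trans (show q = Quotient.mk F y from hy.symm))
      · intro hy
        exact (Quotient.sound (F.symm hy)).trans hx
    rw [he]
    exact measurable_prodMk_left C.mF
  have _ : StandardBorelSpace {y : X | Quotient.mk F y = q} := hD.standardBorel
  set f : {y : X | Quotient.mk F y = q} → (ℕ → Bool) := fun y => code C x y.1 with hf
  have hfm : Measurable f := by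
    refine measurable_pi_iff.2 fun n => measurable_to_bool ?_
    have he : (fun y : {y : X | Quotient.mk F y = q} => f y n) ⁻¹' {true}
        = (fun y : {y : X | Quotient.mk F y = q} => (x, y.1)) ⁻¹' {p : X × X | p.2 ∈ C.O n p.1} := by
      ext y
      exact code_true
    rw [he]
    exact (measurable_prodMk_left.comp measurable_subtype_coe) (C.mO n)
  have hfi : Function.Injective f := by
    intro y y' hy
    have h1 := code_inj C hx (y := ⟨y.1, y.2⟩) (y' := ⟨y'.1, y'.2⟩) hy
    exact Subtype.ext (Subtype.mk.inj h1)
  have hBm : MeasurableSet (f '' {y | y.1 ∈ A}) :=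
    (measurable_subtype_coe hA).image_of_measurable_injOn hfm hfi.injOn
  have h2 := code_borel C hx hBm
  have h3 : {y : Cl C q | y.1 ∈ A} = {y : Cl C q | code C x y.1 ∈ f '' {y | y.1 ∈ A}} := by
    ext y
    constructor
    · intro hy
      exact ⟨⟨y.1, y.2⟩, hy, rfl⟩
    · rintro ⟨z, hz1, hz2⟩
      have h4 : z = ⟨y.1, y.2⟩ := hfi hz2
      rw [h4] at hz1
      exact hz1
  rw [h3]
  exact h2

theorem gn_bp [StandardBorelSpace X] (C : CatData X F) (x : X) {A : Set X}
    (hA : MeasurableSet A) :
    gn C x fun y => y ∈ A → ∃ n, y ∈ HH C n x ∧ gn C x fun z => z ∈ HH C n x → z ∈ A := by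
  rw [gn_iff C rfl]
  filter_upwards [res_bp (base' C (q := Quotient.mk F x) rfl) (cat_bp C (Quotient.mk F x) hA)]
    with y hy hyA
  obtain ⟨n, h1, h2⟩ := hy hyA
  refine ⟨n, (mem_HH C rfl n y).2 h1, (gn_iff C rfl _).2 ?_⟩
  filter_upwards [h2] with z hz hzn
  exact hz ((mem_HH C rfl n z).1 hzn)

end Pool.Agent.H93.EO
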