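import Pool.Agent.H93.EO.RegA
set_option autoImplicit false

/-!
# H93/EO/RegB: category in a Baire space with a countable base of regular open sets
-/

namespace Pool.Agent.H93.EO

open Set Topology TopologicalSpace

variable {T : Type} [TopologicalSpace T] {B : ℕ → Set T}

theorem res_open [BaireSpace T] {U : Set T} (hU : IsOpen U) (h : U.Nonempty) :
    ¬ {y | y ∉ U} ∈ residual T := by
  intro hr
  obtain ⟨y, hy1, hy2⟩ := (dense_of_mem_residual hr).inter_open_nonempty U hU h
  exact hy2 hy1

theorem res_dense (hB : IsTopologicalBasis (range B)) (N : Set ℕ)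
    (h : ∀ m y, y ∈ interior (closure (B m)) →
      ∃ n ∈ N, ∃ z, z ∈ interior (closure (B m)) ∧ z ∈ interior (closure (B n))) :
    {z | ∃ n ∈ N, z ∈ interior (closure (B n))} ∈ residual T := by
  have he : {z | ∃ n ∈ N, z ∈ interior (closure (B n))}
      = ⋃ n ∈ N, interior (closure (B n)) := by
    ext z
    simp
  apply residual_of_dense_open
  · rw [he]
    exact isOpen_biUnion fun n _ => isOpen_interior
  · rw [dense_iff_inter_open]
    rintro U hU ⟨y, hy⟩
    obtain ⟨V, ⟨m, rfl⟩, hm1, hm2⟩ := hB.mem_nhds_iff.1 (hU.mem_nhds hy)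
    obtain ⟨n, hn, z, hz1, hz2⟩ := h m y (sub_ic (hB.isOpen ⟨m, rfl⟩) hm1)
    obtain ⟨u, hu1, hu2⟩ := meet_ic isOpen_interior hz1 hz2
    exact ⟨u, hm2 hu1, n, hn, hu2⟩

private theorem rb_dense {V : Set T} (hV : IsOpen V) :
    {y | y ∈ closure V → y ∈ V} ∈ residual T := by
  have he : {y | y ∈ closure V → y ∈ V} = (closure V)ᶜ ∪ V := by
    ext y
    simp only [mem_ofPred_eq, mem_union, mem_compl_iff]
    tauto
  apply residual_of_dense_open
  · rw [he]
    exact (isClosed_closure.isOpen_compl).union hV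
  · rw [dense_iff_inter_open]
    rintro U hU ⟨y, hy⟩
    by_cases hc : y ∈ closure V
    · obtain ⟨z, hz1, hz2⟩ := mem_closure_iff.1 hc U hU hy
      exact ⟨z, hz1, fun _ => hz2⟩
    · exact ⟨y, hy, fun h => absurd h hc⟩

theorem res_basic [BaireSpace T] (hB : IsTopologicalBasis (range B)) (m n : ℕ) :
    {y | y ∈ interior (closure (B m)) → y ∈ B n} ∈ residual T ↔
      interior (closure (B m)) ⊆ interior (closure (B n)) := by
  constructor
  · intro h
    refine interior_maximal ?_ isOpen_interior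
    intro z hz
    by_contra hn
    obtain ⟨y, hy1, hy2⟩ := (dense_of_mem_residual h).inter_open_nonempty
      (interior (closure (B m)) \ closure (B n)) (isOpen_interior.sdiff isClosed_closure) ⟨z, hz, hn⟩
    exact hy1.2 (subset_closure (hy2 hy1.1))
  · intro h
    filter_upwards [rb_dense (hB.isOpen (mem_range_self n))] with y hy hm
    exact hy (interior_subset (h hm))

theorem res_compl [BaireSpace T] (hB : IsTopologicalBasis (range B)) {U A : Set T}
    (hU : interior (closure U) = U) (hA : BaireMeasurableSet A) :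
    {y | y ∈ U → y ∉ A} ∈ residual T ↔
      ∀ k, (interior (closure (B k))).Nonempty → interior (closure (B k)) ⊆ U →
        ¬ {y | y ∈ interior (closure (B k)) → y ∈ A} ∈ residual T := by
  have hUo : IsOpen U := by rw [← hU]; exact isOpen_interior
  constructor
  · intro h k hk hkU h2
    refine res_open (isOpen_interior (s := closure (B k))) hk ?_
    filter_upwards [h, h2] with y h3 h4 h5
    exact h3 (hkU h5) (h4 h5)
  · intro h
    obtain ⟨O, hO, hAO⟩ := hA.residualEq_isOpen
    have hOU : ∀ z, z ∈ O → z ∉ U := by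
      intro z hz hzU
      obtain ⟨V, ⟨k, rfl⟩, hk1, hk2⟩ := hB.mem_nhds_iff.1
        ((hO.inter hUo).mem_nhds (⟨hz, hzU⟩ : z ∈ O ∩ U))
      have hk3 : interior (closure (B k)) ⊆ U := by
        have := ic_mono (hk2.trans inter_subset_right)
        rwa [hU] at this
      refine h k ⟨z, sub_ic (hB.isOpen ⟨k, rfl⟩) hk1⟩ hk3 ?_
      filter_upwards [hAO, rb_dense (hB.isOpen (mem_range_self k))] with y hy hd hyk
      exact hy.mpr (hk2 (hd (interior_subset hyk))).1
    filter_upwards [hAO] with y hy hyU hyA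
    exact hOU y (hy.mp hyA) hyU

theorem res_bp (hB : IsTopologicalBasis (range B)) {A : Set T}
    (hA : BaireMeasurableSet A) :
    {y | y ∈ A → ∃ n, y ∈ interior (closure (B n)) ∧
      {z | z ∈ interior (closure (B n)) → z ∈ A} ∈ residual T} ∈ residual T := by
  obtain ⟨O, hO, hAO⟩ := hA.residualEq_isOpen
  filter_upwards [hAO] with y hy hyA
  obtain ⟨V, ⟨n, rfl⟩, hn1, hn2⟩ := hB.mem_nhds_iff.1 (hO.mem_nhds (hy.mp hyA))
  refine ⟨n, sub_ic (hB.isOpen ⟨n, rfl⟩) hn1, ?_⟩
  filter_upwards [hAO, rb_dense (hB.isOpen (mem_range_self n))] with z hz hd hzn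
  exact hz.mpr (hn2 (hd (interior_subset hzn)))

end Pool.Agent.H93.EO
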