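import Pool.Agent.H93.EO.Def0
import Pool.Agent.H93.EO.RegB
set_option autoImplicit false

/-!
# H93/EO/CatH: the fields of the category structure that do not speak about measurability

Let `q = Quotient.mk F x`. For `y` with `Quotient.mk F y = q` write `y' : Cl C q`. All statements are the
statements of RegA and RegB for `T = Cl C q`, `B = Bq C q x` (`base' C rfl`), translated by `mem_HH`
and `gn_iff`; for a second point `x'` with `F x x'` (so `Quotient.mk F x' = q`, `Quotient.sound`) also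
`B' = Bq C q x'` is a base (`base'`) and `mem_HH`, `gn_iff` apply with the same `q`.
An inclusion `HH C k x ⊆ HH C n x` is tested on points of the class (`HH_mk`).
* `hh_cover`: `reg_cover`. `hh_inter`, `hh_change`: `reg_base` with `U` the intersection, or the
  set `interior (closure (Bq C q x n))` and the base `B'`. `hh_regular`:
  `reg_regular`.
* `hh_dense`: `e1_dense` and openness (`Dense.exists_mem_open` or `Dense.inter_open_nonempty`).
* `gn_mono`, `gn_nat` (`countable_iInter_mem` / `eventually_countable_forall`), `gn_inv`: `gn_iff`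
  twice. `gn_baire`: `res_open`. `gn_openDense`: `res_dense`.
-/

namespace Pool.Agent.H93.EO

open Set Topology TopologicalSpace

variable {X : Type} [MeasurableSpace X] {F : Setoid X}

theorem hh_sub {C : CatData X F} {n : ℕ} {x y : X} (h : y ∈ HH C n x) : F x y :=
  F.symm (Quotient.exact (HH_mk h))

private theorem hh_mem (C : CatData X F) {q : Quotient F} {x : X} (hx : Quotient.mk F x = q) {n : ℕ}
    {y : X} (h : y ∈ HH C n x) : ∃ y' : Cl C q, y'.1 = y ∧ y' ∈ interior (closure (Bq C q x n)) := by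
  refine ⟨⟨y, (HH_mk h).trans hx⟩, rfl, ?_⟩
  exact (mem_HH C hx n _).1 h

private theorem hh_F {C : CatData X F} {q : Quotient F} {x : X} (hx : Quotient.mk F x = q) (y : Cl C q) :
    F x y.1 := Quotient.exact (hx.trans y.2.symm)

private theorem hh_ex (C : CatData X F) {q : Quotient F} {x y : X} (hx : Quotient.mk F x = q) (h : F x y) :
    ∃ y' : Cl C q, y'.1 = y := ⟨⟨y, (Quotient.sound (F.symm h)).trans hx⟩, rfl⟩

theorem hh_cover (C : CatData X F) {x y : X} (h : F x y) : ∃ n, y ∈ HH C n x := by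
  obtain ⟨y', rfl⟩ := hh_ex C (q := Quotient.mk F x) rfl h
  obtain ⟨n, hn⟩ := reg_cover (base' C (x := x) rfl) y'
  exact ⟨n, (mem_HH C rfl n y').2 hn⟩

theorem hh_inter (C : CatData X F) {x y : X} {n m : ℕ} (h : y ∈ HH C n x) (h' : y ∈ HH C m x) :
    ∃ k, y ∈ HH C k x ∧ HH C k x ⊆ HH C n x ∩ HH C m x := by
  obtain ⟨y', rfl, h1⟩ := hh_mem C (q := Quotient.mk F x) rfl h
  have h2 := (mem_HH C rfl m y').1 h'
  obtain ⟨k, h3, h4⟩ := reg_base (base' C (x := x) rfl) (ic_inter (ic_ic _) (ic_ic _))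
    (show y' ∈ interior (closure (Bq C (Quotient.mk F x) x n)) ∩
      interior (closure (Bq C (Quotient.mk F x) x m)) from ⟨h1, h2⟩)
  refine ⟨k, (mem_HH C rfl k y').2 h3, ?_⟩
  intro z hz
  obtain ⟨z', rfl, h5⟩ := hh_mem C (q := Quotient.mk F x) rfl hz
  have h6 := h4 h5
  exact ⟨(mem_HH C rfl n z').2 h6.1, (mem_HH C rfl m z').2 h6.2⟩

theorem hh_change (C : CatData X F) {x x' y : X} {n : ℕ} (hx : F x x') (h : y ∈ HH C n x) :
    ∃ k, y ∈ HH C k x' ∧ HH C k x' ⊆ HH C n x := by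
  obtain ⟨y', rfl, h1⟩ := hh_mem C (q := Quotient.mk F x) rfl h
  have hx' : Quotient.mk F x' = Quotient.mk F x := Quotient.sound (F.symm hx)
  obtain ⟨k, h3, h4⟩ := reg_base (base' C hx') (ic_ic _) h1
  refine ⟨k, (mem_HH C hx' k y').2 h3, ?_⟩
  intro z hz
  obtain ⟨z', rfl, h5⟩ := hh_mem C hx' hz
  exact (mem_HH C rfl n z').2 (h4 h5)

theorem hh_dense (C : CatData X F) {n : ℕ} {x y : X} (h : y ∈ HH C n x) :
    ∃ i, e1 C i x ∈ HH C n x := by
  obtain ⟨y', rfl, h1⟩ := hh_mem C (q := Quotient.mk F x) rfl h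
  obtain ⟨z, h2, i, h3⟩ := (e1_dense C (x := x) rfl).inter_open_nonempty _ isOpen_interior ⟨y', h1⟩
  refine ⟨i, ?_⟩
  rw [← h3]
  exact (mem_HH C rfl n z).2 h2

theorem hh_regular (C : CatData X F) {n m : ℕ} {x : X}
    (h : ∀ k z, z ∈ HH C k x → HH C k x ⊆ HH C m x → ∃ w ∈ HH C k x, w ∈ HH C n x) :
    HH C m x ⊆ HH C n x := by
  have h1 := reg_regular (base' C (q := Quotient.mk F x) (x := x) rfl) (n := n) (m := m) (by
    intro k z hz hs
    obtain ⟨w, hw, hw'⟩ := h k z.1 ((mem_HH C rfl k z).2 hz) (by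
      intro u hu
      obtain ⟨u', rfl, h5⟩ := hh_mem C (q := Quotient.mk F x) rfl hu
      exact (mem_HH C rfl m u').2 (hs h5))
    obtain ⟨w', rfl, h5⟩ := hh_mem C (q := Quotient.mk F x) rfl hw
    exact ⟨w', h5, (mem_HH C rfl n w').1 hw'⟩)
  intro z hz
  obtain ⟨z', rfl, h5⟩ := hh_mem C (q := Quotient.mk F x) rfl hz
  exact (mem_HH C rfl n z').2 (h1 h5)

theorem gn_mono {C : CatData X F} {x : X} {P Q : X → Prop} (h : ∀ y, F x y → P y → Q y)
    (hP : gn C x P) : gn C x Q := by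
  unfold gn at hP ⊢
  filter_upwards [hP] with y hy
  exact h y.1 (hh_F rfl y) hy

theorem gn_nat {C : CatData X F} {x : X} {P : ℕ → X → Prop} (h : ∀ n, gn C x (P n)) :
    gn C x fun y => ∀ n, P n y := by
  unfold gn at h ⊢
  have h1 := (countable_iInter_mem (l := residual (Cl C (Quotient.mk F x)))
    (s := fun n : ℕ => {y : Cl C (Quotient.mk F x) | P n y.1})).2 h
  filter_upwards [h1] with y hy n
  exact Set.mem_iInter.1 hy n

theorem gn_inv {C : CatData X F} {x x' : X} {P : X → Prop} (hx : F x x') (h : gn C x P) :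
    gn C x' P := by
  have hx' : Quotient.mk F x' = Quotient.mk F x := Quotient.sound (F.symm hx)
  rw [gn_iff C hx']
  exact h

theorem gn_baire {C : CatData X F} {x y : X} {n : ℕ} (h : y ∈ HH C n x) :
    ¬ gn C x fun z => z ∉ HH C n x := by
  obtain ⟨y', rfl, h1⟩ := hh_mem C (q := Quotient.mk F x) rfl h
  intro h2
  apply res_open isOpen_interior ⟨y', h1⟩
  unfold gn at h2
  filter_upwards [h2] with z hz
  intro h3
  exact hz ((mem_HH C rfl n z).2 h3)

theorem gn_openDense (C : CatData X F) {x : X} (N : Set ℕ)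
    (h : ∀ m y, y ∈ HH C m x → ∃ n ∈ N, ∃ z, z ∈ HH C m x ∧ z ∈ HH C n x) :
    gn C x fun z => ∃ n ∈ N, z ∈ HH C n x := by
  have h1 := res_dense (base' C (q := Quotient.mk F x) (x := x) rfl) N (by
    intro m y hy
    obtain ⟨n, hn, z, hz, hz'⟩ := h m y.1 ((mem_HH C rfl m y).2 hy)
    obtain ⟨z', rfl, h5⟩ := hh_mem C (q := Quotient.mk F x) rfl hz
    exact ⟨n, hn, z', h5, (mem_HH C rfl n z').1 hz'⟩)
  unfold gn
  filter_upwards [h1] with z hz
  obtain ⟨n, hn, h2⟩ := hz
  exact ⟨n, hn, (mem_HH C rfl n z).2 h2⟩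

end Pool.Agent.H93.EO
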