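import Pool.Agent.H93.EO.CatH
set_option autoImplicit false

/-!
# H93/EO/CatMH: measurability of the regular open bases

* `me1`: `Measurable.ite` (set `{x | F x (e i x)}`: preimage of `C.mF` under `x ↦ (x, e i x)`).
* `HH_iff`: for `F x y`: `mem_HH C rfl`, `mem_ic_iff (base' C rfl)`; for open sets `U, U'` of the class
  `(U ∩ U').Nonempty ↔ ∃ i, (e1 C i x) ∈ U ∩ U'` (`e1_dense`, `e1_mk`); membership in
  `Bq C q x n` is membership in `O n x`.
* `mHH`: by `HH_iff` and `hh_sub` the set is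
  `{p | F p.1 p.2 ∧ ∃ k, p.2 ∈ O k p.1 ∧ ∀ m, (∃ i, e1 i p.1 ∈ O m p.1 ∧ e1 i p.1 ∈ O k p.1) →
  ∃ i, e1 i p.1 ∈ O m p.1 ∧ e1 i p.1 ∈ O n p.1}`, measurable by `C.mF`, `C.mO` and `me1`
  (`{p | e1 i p.1 ∈ O m p.1}` is the preimage of the set of `C.mO m` under `p ↦ (p.1, e1 i p.1)`).
-/

namespace Pool.Agent.H93.EO

open Set Topology TopologicalSpace

variable {X : Type} [MeasurableSpace X] {F : Setoid X}

theorem me1 (C : CatData X F) (i : ℕ) : Measurable (e1 C i) := by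
  have h : MeasurableSet {x | F x (C.e i x)} :=
    (measurable_id.prodMk (C.me i)) C.mF
  unfold e1
  exact Measurable.ite h (C.me i) measurable_id

theorem HH_iff (C : CatData X F) {x y : X} (h : F x y) (n : ℕ) : y ∈ HH C n x ↔
    ∃ k, y ∈ C.O k x ∧ ∀ m, (∃ i, e1 C i x ∈ C.O m x ∧ e1 C i x ∈ C.O k x) →
      ∃ i, e1 C i x ∈ C.O m x ∧ e1 C i x ∈ C.O n x := by
  obtain ⟨y', rfl⟩ : ∃ y' : Cl C (Quotient.mk F x), y'.1 = y :=
    ⟨⟨y, Quotient.sound (F.symm h)⟩, rfl⟩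
  have hB := base' C (q := Quotient.mk F x) (x := x) rfl
  have hopen : ∀ m, IsOpen (Bq C (Quotient.mk F x) x m) := fun m => hB.isOpen ⟨m, rfl⟩
  have key : ∀ m k, (Bq C (Quotient.mk F x) x m ∩ Bq C (Quotient.mk F x) x k).Nonempty ↔
      ∃ i, e1 C i x ∈ C.O m x ∧ e1 C i x ∈ C.O k x := by
    intro m k
    constructor
    · intro hne
      obtain ⟨z, h2, i, h3⟩ := (e1_dense C (x := x) rfl).inter_open_nonempty _
        ((hopen m).inter (hopen k)) hne
      refine ⟨i, ?_⟩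
      rw [← h3]
      exact h2
    · rintro ⟨i, h1, h2⟩
      exact ⟨⟨e1 C i x, e1_mk C i x⟩, h1, h2⟩
  rw [mem_HH C rfl, mem_ic_iff hB]
  constructor
  · rintro ⟨k, h1, h2⟩
    refine ⟨k, h1, fun m hm => (key m n).1 (h2 m ((key m k).2 hm))⟩
  · rintro ⟨k, h1, h2⟩
    refine ⟨k, h1, fun m hm => (key m n).2 (h2 m ((key m k).1 hm))⟩

theorem mHH (C : CatData X F) (n : ℕ) : MeasurableSet {p : X × X | p.2 ∈ HH C n p.1} := by
  have h0 : ∀ i m, MeasurableSet {p : X × X | e1 C i p.1 ∈ C.O m p.1} := by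
    intro i m
    exact (measurable_fst.prodMk ((me1 C i).comp measurable_fst)) (C.mO m)
  have h1 : {p : X × X | p.2 ∈ HH C n p.1} = {p : X × X | F p.1 p.2} ∩
      ⋃ k, ({p : X × X | p.2 ∈ C.O k p.1} ∩ ⋂ m,
        ((⋃ i, ({p : X × X | e1 C i p.1 ∈ C.O m p.1} ∩ {p : X × X | e1 C i p.1 ∈ C.O k p.1}))ᶜ ∪
          ⋃ i, ({p : X × X | e1 C i p.1 ∈ C.O m p.1} ∩ {p : X × X | e1 C i p.1 ∈ C.O n p.1}))) := by
    ext p
    simp only [mem_ofPred_eq, mem_inter_iff, mem_iUnion, mem_iInter, mem_union, mem_compl_iff]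
    constructor
    · intro h
      have hF := hh_sub h
      obtain ⟨k, hk, hm⟩ := (HH_iff C hF n).1 h
      refine ⟨hF, k, hk, fun m => ?_⟩
      by_cases hc : ∃ i, e1 C i p.1 ∈ C.O m p.1 ∧ e1 C i p.1 ∈ C.O k p.1
      · exact Or.inr (hm m hc)
      · exact Or.inl hc
    · rintro ⟨hF, k, hk, hm⟩
      refine (HH_iff C hF n).2 ⟨k, hk, fun m hc => ?_⟩
      rcases hm m with h | h
      · exact absurd hc h
      · exact h
  rw [h1]
  refine C.mF.inter (MeasurableSet.iUnion fun k => (C.mO k).inter (MeasurableSet.iInter fun m => ?_))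
  exact ((MeasurableSet.iUnion fun i => (h0 i m).inter (h0 i k)).compl).union
    (MeasurableSet.iUnion fun i => (h0 i m).inter (h0 i n))

end Pool.Agent.H93.EO
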