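import Pool.Agent.H93.EO.G2
set_option autoImplicit false

/-!
# H93/EO/VL: the neighbourhoods `V k z` and level zero

`V k z = {y | F z y and y ∈ H j z for all j ≤ k with z ∈ H j z}`.

* `V_self`, `V_F`, `V_anti`: immediate.
* `V_ro`: induction on `k`: `V 0 z = [z] ∩ H 0 z` or `[z]`, `V (k+1) z = V k z ∩ H (k+1) z` or
  `V k z` (according to `z ∈ H (k+1) z`); `ro_cls`, `ro_H`, `ro_inter`.
* `V_base`: `U` open in the class of `x`, `z ∈ U`: then `U` is open at `z` (`op_inv`; `F x z` by
  `(hU).1`), take `n` with `z ∈ H n z ⊆ U`; `V n z ⊆ H n z` (`j = n`).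
* `V_base_ge`: the same with `k ≥ m` (`V_anti`, `k = max`).
* `V_op`: `V k z` is open in the class of every `x` related to `z`.
* `mV`: the set is `{F} ∩ ⋂_{j ≤ k} ({p | p.1 ∈ H j p.1}ᶜ ∪ {p | p.2 ∈ H j p.1})`; the set
  `{x | x ∈ H j x}` is the preimage of the measurable `mH j` under `x ↦ (x, x)`.
* `good_zero`: level zero is `D = univ`, `W z = [z]`.
-/

namespace Pool.Agent.H93.EO

open Set

variable {X : Type} [MeasurableSpace X] {F : X → X → Prop}

theorem V_self (hF : Equivalence F) (S : GenStr X F) (k : ℕ) (z : X) : z ∈ V S k z :=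
  ⟨hF.refl z, fun _ _ h => h⟩

theorem V_F {S : GenStr X F} {k : ℕ} {z y : X} (h : y ∈ V S k z) : F z y := h.1

theorem V_anti (S : GenStr X F) {k l : ℕ} (h : k ≤ l) (z : X) : V S l z ⊆ V S k z :=
  fun _ hy => ⟨hy.1, fun j hj => hy.2 j (hj.trans h)⟩

theorem V_ro (S : GenStr X F) (k : ℕ) (z : X) : RO S z (V S k z) := by
  induction k with
  | zero =>
    by_cases h : z ∈ S.H 0 z
    · have e : V S 0 z = {y | F z y} ∩ S.H 0 z := by
        ext y
        constructor
        · exact fun hy => ⟨hy.1, hy.2 0 le_rfl h⟩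
        · rintro ⟨h1, h2⟩
          refine ⟨h1, fun j hj _ => ?_⟩
          have : j = 0 := by omega
          rw [this]
          exact h2
      rw [e]
      exact ro_inter (ro_cls S z) (ro_H S 0 z)
    · have e : V S 0 z = {y | F z y} := by
        ext y
        constructor
        · exact fun hy => hy.1
        · intro h1
          refine ⟨h1, fun j hj h3 => ?_⟩
          have h4 : j = 0 := by omega
          rw [h4] at h3
          exact absurd h3 h
      rw [e]
      exact ro_cls S z
  | succ k ih =>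
    by_cases h : z ∈ S.H (k + 1) z
    · have e : V S (k + 1) z = V S k z ∩ S.H (k + 1) z := by
        ext y
        constructor
        · exact fun hy => ⟨V_anti S (Nat.le_succ k) z hy, hy.2 (k + 1) le_rfl h⟩
        · rintro ⟨h1, h2⟩
          refine ⟨h1.1, fun j hj h3 => ?_⟩
          rcases Nat.lt_or_ge j (k + 1) with h4 | h4
          · exact h1.2 j (by omega) h3
          · have h5 : j = k + 1 := by omega
            rw [h5]
            exact h2
      rw [e]
      exact ro_inter ih (ro_H S (k + 1) z)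
    · have e : V S (k + 1) z = V S k z := by
        ext y
        constructor
        · exact fun hy => V_anti S (Nat.le_succ k) z hy
        · intro h1
          refine ⟨h1.1, fun j hj h3 => ?_⟩
          rcases Nat.lt_or_ge j (k + 1) with h4 | h4
          · exact h1.2 j (by omega) h3
          · have h5 : j = k + 1 := by omega
            rw [h5] at h3
            exact absurd h3 h
      rw [e]
      exact ih

theorem V_op (hF : Equivalence F) (S : GenStr X F) (k : ℕ) {x z : X} (h : F x z) :
    Op S x (V S k z) :=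
  op_inv hF (hF.symm h) (V_ro S k z).1

theorem V_roi (hF : Equivalence F) (S : GenStr X F) (k : ℕ) {x z : X} (h : F x z) :
    RO S x (V S k z) :=
  ro_inv hF (hF.symm h) (V_ro S k z)

theorem V_base (hF : Equivalence F) {S : GenStr X F} {x z : X} {U : Set X} (hU : Op S x U)
    (hz : z ∈ U) : ∃ k, V S k z ⊆ U := by
  obtain ⟨n, h1, h2⟩ := (op_inv hF (hU.1 z hz) hU).2 z hz
  exact ⟨n, fun y hy => h2 (hy.2 n le_rfl h1)⟩

theorem V_base_ge (hF : Equivalence F) {S : GenStr X F} {x z : X} {U : Set X} (hU : Op S x U)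
    (hz : z ∈ U) (m : ℕ) : ∃ k, m ≤ k ∧ V S k z ⊆ U := by
  obtain ⟨k, hk⟩ := V_base hF hU hz
  exact ⟨max m k, le_max_left m k, (V_anti S (le_max_right m k) z).trans hk⟩

theorem mV (mF : MeasurableSet {p : X × X | F p.1 p.2}) (S : GenStr X F) (k : ℕ) :
    MeasurableSet {p : X × X | p.2 ∈ V S k p.1} := by
  have e : {p : X × X | p.2 ∈ V S k p.1} = {p : X × X | F p.1 p.2} ∩
      ⋂ j : ℕ, ⋂ _ : j ≤ k, ((fun p : X × X => (p.1, p.1)) ⁻¹' {p : X × X | p.2 ∈ S.H j p.1})ᶜ ∪
        {p : X × X | p.2 ∈ S.H j p.1} := by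
    ext p
    simp only [V, mem_ofPred_eq, mem_inter_iff, mem_iInter, mem_union, mem_compl_iff, mem_preimage]
    constructor
    · rintro ⟨h1, h2⟩
      refine ⟨h1, fun j hj => ?_⟩
      by_cases h3 : p.1 ∈ S.H j p.1
      · exact Or.inr (h2 j hj h3)
      · exact Or.inl h3
    · rintro ⟨h1, h2⟩
      refine ⟨h1, fun j hj h3 => ?_⟩
      rcases h2 j hj with h4 | h4
      · exact absurd h3 h4
      · exact h4
  rw [e]
  refine mF.inter (MeasurableSet.iInter fun j => MeasurableSet.iInter fun _ => ?_)
  refine MeasurableSet.union ?_ (S.mH j)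
  exact ((measurable_fst.prodMk measurable_fst) (S.mH j)).compl

theorem good_zero (hF : Equivalence F) (mF : MeasurableSet {p : X × X | F p.1 p.2})
    (S : GenStr X F) : Good S (lev S 0) where
  self z _ := hF.refl z
  ro z := ro_cls S z
  mD := MeasurableSet.univ
  mW := mF
  gD _ := gen_of fun _ _ => mem_univ _

end Pool.Agent.H93.EO
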