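import Pool.Agent.H93.EO.Def2
import Pool.Agent.H93.EO.VL

/-!
# H93/EO/ClsTop: the metric and the topology of a class

* `near_c`: `P1` at `y`, `n` gives `ε' > 0`; `N1` at `y` with `min ε ε'` gives `k`; `V k y` is open at
  `x` (`V_op`, `F x y`) and contains `y` (`V_self`): `m` with `y ∈ H m x ⊆ V k y`; `cd` gives `i` with
  `c i x ∈ H m x ⊆ V k y`; `c i x ∈ Y`.
* `cpt_dense`: from `near_c` (`Metric.denseRange_iff`).
* `cls_open`: an open subset `U` of `Cls M x` contains a ball around `y`; `N1`; `V k y` is open at `x`: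
  `n` with `y.1 ∈ H n x ⊆ V k y`.
* `cls_nhd`: `H n x` is open at `x` and contains `y.1`: `V_base` gives `k` with `V k y ⊆ H n x`; `N2`.
-/

set_option autoImplicit false

namespace Pool.Agent.H93.EO

open Set

variable {X : Type} [MeasurableSpace X] {F : X → X → Prop} {S : GenStr X F} {P : ℕ → Set X}

theorem near_c (hF : Equivalence F) (M : MetStr S P) {x y : X} (hy : y ∈ M.Y) (h : F x y)
    (n : ℕ) {ε : ℝ} (hε : 0 < ε) : ∃ i, M.ρ y (M.c i x) < ε ∧ (M.c i x ∈ P n ↔ y ∈ P n) := by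
  obtain ⟨ε', hε', h1⟩ := M.P1 y hy n
  obtain ⟨k, hk⟩ := M.N1 y hy (min ε ε') (lt_min hε hε')
  obtain ⟨m, hm, hs⟩ := (V_op hF S k h).2 y (V_self hF S k y)
  obtain ⟨i, hi⟩ := M.cd m x y hm
  have h2 := hk (M.c i x) (M.cY i x) (hs hi)
  exact ⟨i, h2.trans_le (min_le_left _ _), h1 _ (M.cY i x) (h2.trans_le (min_le_right _ _))⟩

theorem cpt_dense (hF : Equivalence F) (M : MetStr S P) (x : X) : DenseRange (cpt M x) := by
  rw [Metric.denseRange_iff]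
  intro y r hr
  obtain ⟨i, hi, -⟩ := near_c hF M y.2.1 y.2.2 0 hr
  exact ⟨i, hi⟩

theorem cls_open (hF : Equivalence F) (M : MetStr S P) (x : X) {U : Set (Cls M x)}
    (hU : IsOpen U) {y : Cls M x} (hy : y ∈ U) :
    ∃ n, y.1 ∈ S.H n x ∧ ∀ b : Cls M x, b.1 ∈ S.H n x → b ∈ U := by
  obtain ⟨ε, hε, hb⟩ := Metric.isOpen_iff.1 hU y hy
  obtain ⟨k, hk⟩ := M.N1 y.1 y.2.1 ε hε
  obtain ⟨n, hn, hs⟩ := (V_op hF S k y.2.2).2 y.1 (V_self hF S k y.1)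
  refine ⟨n, hn, fun b hbn => hb ?_⟩
  rw [Metric.mem_ball, dist_comm]
  exact hk b.1 b.2.1 (hs hbn)

theorem cls_nhd (hF : Equivalence F) (M : MetStr S P) (x : X) {n : ℕ} {y : Cls M x}
    (hy : y.1 ∈ S.H n x) :
    ∃ ε : ℝ, 0 < ε ∧ ∀ b : Cls M x, dist y b < ε → b.1 ∈ S.H n x := by
  have hop : Op S x (S.H n x) :=
    ⟨fun z hz => S.sub n x z hz, fun z hz => ⟨n, hz, subset_rfl⟩⟩
  obtain ⟨k, hk⟩ := V_base hF hop hy
  obtain ⟨ε, hε, h1⟩ := M.N2 y.1 y.2.1 k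
  exact ⟨ε, hε, fun b hb => hk (h1 b.1 b.2.1 hb)⟩

end Pool.Agent.H93.EO
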