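import Pool.Agent.H93.EO.CatMH
import Pool.Agent.H93.EO.CatBP
set_option autoImplicit false

/-!
# H93/EO/CqA: sets of codes with measurable local category quantifier

`GoodS C π B`: `B ⊆ P × (ℕ → Bool)` is measurable and for every `m` the set of `p` such that
`(p, code y) ∈ B` for generic `y` of `H m (π p)` is measurable.
* `good_fst` (`B = {q | q.1 ∈ D}`): the condition is `p ∈ D ∨ ¬ ∃ i, e1 i (π p) ∈ H m (π p)`
  (`gn_baire`, `hh_dense`, `gn_mono`); measurable: `mHH m`, `me1`, `hπ`.
* `good_snd` (`B = {q | q.2 n = true}`): the condition is `HH C m (π p) ⊆ HH C n (π p)`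
  (`res_basic`, `gn_iff`), that is `∀ i, e1 i (π p) ∈ H m (π p) → e1 i (π p) ∈ H n (π p)` (`<-`:
  `hh_regular`: a nonempty `H k ⊆ H m` contains some `e1 i`, `hh_dense`).
* `good_compl`: `res_compl` (`U = H m`, `A = {y | (p, code y) ∈ B}`, Baire property by
  `code_borel` for the measurable section `{b | (p, b) ∈ B}`): the condition for `Bᶜ` is: for all
  `k` with `H k (π p)` nonempty (`∃ i, e1 i (π p) ∈ H k (π p)`) and `H k (π p) ⊆ H m (π p)`
  (`∀ i, ...` as above) the condition for `B` and `k` fails.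
* `good_iInter`: `gn` of a countable conjunction (`gn_nat`, `gn_mono`): the condition is the conjunction
  of the conditions.
-/

namespace Pool.Agent.H93.EO

open Set Topology TopologicalSpace

variable {X : Type} [MeasurableSpace X] {F : Setoid X} {P : Type} [MeasurableSpace P]

/-- measurable sets of codes with measurable local category quantifiers -/
def GoodS (C : CatData X F) (π : P → X) (B : Set (P × (ℕ → Bool))) : Prop :=
  MeasurableSet B ∧
    ∀ m, MeasurableSet {p | gn C (π p) fun y => y ∈ HH C m (π p) → (p, code C (π p) y) ∈ B}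

private theorem cqa_true {C : CatData X F} {x y : X} {n : ℕ} :
    code C x y n = true ↔ y ∈ C.O n x := by
  unfold code
  simp

private theorem cqa_all (C : CatData X F) (x : X) {A : X → Prop} (h : ∀ y, A y) : gn C x A :=
  (gn_iff C rfl _).2 (Filter.mem_of_superset Filter.univ_mem fun y _ => h y.1)

theorem HH_sub_iff (C : CatData X F) (x : X) (m n : ℕ) : HH C m x ⊆ HH C n x ↔
    ∀ i, e1 C i x ∈ HH C m x → e1 C i x ∈ HH C n x := by
  constructor
  · intro h i hi
    exact h hi
  · intro h
    refine hh_regular C fun k z hz hk => ?_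
    obtain ⟨i, hi⟩ := hh_dense C hz
    exact ⟨_, hi, h i (hk hi)⟩

private theorem cqa_ne (C : CatData X F) (x : X) (m : ℕ) :
    (HH C m x).Nonempty ↔ ∃ i, e1 C i x ∈ HH C m x :=
  ⟨fun ⟨_, hy⟩ => hh_dense C hy, fun ⟨_, hi⟩ => ⟨_, hi⟩⟩

private theorem cqa_sub (C : CatData X F) (x : X) (m n : ℕ) : HH C m x ⊆ HH C n x ↔
    interior (closure (Bq C (Quotient.mk F x) x m))
      ⊆ interior (closure (Bq C (Quotient.mk F x) x n)) := by
  constructor
  · intro h y hy
    exact (mem_HH C rfl n y).1 (h ((mem_HH C rfl m y).2 hy))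
  · rintro h y ⟨h1, h2⟩
    exact ⟨h1, h h2⟩

private theorem cqa_neic (C : CatData X F) (x : X) (m : ℕ) : (HH C m x).Nonempty ↔
    (interior (closure (Bq C (Quotient.mk F x) x m))).Nonempty := by
  constructor
  · rintro ⟨y, h1, h2⟩
    exact ⟨_, h2⟩
  · rintro ⟨y, hy⟩
    exact ⟨y.1, (mem_HH C rfl m y).2 hy⟩

private theorem cqa_mE (C : CatData X F) {π : P → X} (hπ : Measurable π) (i m : ℕ) :
    Measurable fun p : P => e1 C i (π p) ∈ HH C m (π p) :=
  measurableSet_setOfPred.1 ((hπ.prodMk ((me1 C i).comp hπ)) (mHH C m))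

private theorem cqa_mSub (C : CatData X F) {π : P → X} (hπ : Measurable π) (m n : ℕ) :
    Measurable fun p : P => HH C m (π p) ⊆ HH C n (π p) := by
  have h : (fun p : P => HH C m (π p) ⊆ HH C n (π p)) =
      fun p : P => ∀ i, e1 C i (π p) ∈ HH C m (π p) → e1 C i (π p) ∈ HH C n (π p) := by
    ext p
    exact HH_sub_iff C (π p) m n
  rw [h]
  exact Measurable.forall fun i => (cqa_mE C hπ i m).imp (cqa_mE C hπ i n)

private theorem cqa_mNe (C : CatData X F) {π : P → X} (hπ : Measurable π) (m : ℕ) :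
    Measurable fun p : P => (HH C m (π p)).Nonempty := by
  have h : (fun p : P => (HH C m (π p)).Nonempty) =
      fun p : P => ∃ i, e1 C i (π p) ∈ HH C m (π p) := by
    ext p
    exact cqa_ne C (π p) m
  rw [h]
  exact Measurable.exists fun i => cqa_mE C hπ i m

theorem good_fst (C : CatData X F) {π : P → X} (hπ : Measurable π) {D : Set P}
    (hD : MeasurableSet D) : GoodS C π {q | q.1 ∈ D} := by
  refine ⟨measurable_fst hD, fun m => ?_⟩
  have h : {p | gn C (π p) fun y => y ∈ HH C m (π p) → (p, code C (π p) y) ∈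
      {q : P × (ℕ → Bool) | q.1 ∈ D}} = {p | p ∈ D ∨ ¬ (HH C m (π p)).Nonempty} := by
    ext p
    constructor
    · intro (hp : gn C (π p) fun y => y ∈ HH C m (π p) → p ∈ D)
      by_contra hn
      have h1 : p ∉ D := fun h => hn (Or.inl h)
      have h2 : (HH C m (π p)).Nonempty := by
        by_contra h
        exact hn (Or.inr h)
      obtain ⟨y, hy⟩ := h2
      exact gn_baire hy (gn_mono (fun z _ hz hzm => h1 (hz hzm)) hp)
    · intro hp
      change gn C (π p) fun y => y ∈ HH C m (π p) → p ∈ D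
      rcases hp with h1 | h1
      · exact cqa_all C _ fun y _ => h1
      · exact cqa_all C _ fun y hy => absurd ⟨y, hy⟩ h1
  rw [h]
  exact measurableSet_setOfPred.2 ((measurableSet_setOfPred.1 hD).or (cqa_mNe C hπ m).not)

theorem good_snd (C : CatData X F) {π : P → X} (hπ : Measurable π) (n : ℕ) :
    GoodS C π {q | q.2 n = true} := by
  have h0 : Measurable fun q : P × (ℕ → Bool) => q.2 n :=
    (measurable_pi_apply n).comp measurable_snd
  refine ⟨h0 (measurableSet_singleton true), fun m => ?_⟩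
  have h : {p | gn C (π p) fun y => y ∈ HH C m (π p) → (p, code C (π p) y) ∈
      {q : P × (ℕ → Bool) | q.2 n = true}} = {p | HH C m (π p) ⊆ HH C n (π p)} := by
    ext p
    have h1 := res_basic (base' C (q := Quotient.mk F (π p)) rfl) m n
    rw [← cqa_sub] at h1
    refine Iff.trans ?_ h1
    change (gn C (π p) fun y => y ∈ HH C m (π p) → (p, code C (π p) y) ∈
      {q : P × (ℕ → Bool) | q.2 n = true}) ↔ _
    refine Iff.trans (gn_iff C rfl _) ?_
    have h2 : {y : Cl C (Quotient.mk F (π p)) | y.1 ∈ HH C m (π p) →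
        (p, code C (π p) y.1) ∈ {q : P × (ℕ → Bool) | q.2 n = true}} =
        {y | y ∈ interior (closure (Bq C (Quotient.mk F (π p)) (π p) m)) →
          y ∈ Bq C (Quotient.mk F (π p)) (π p) n} := by
      ext y
      exact imp_congr (mem_HH C rfl m y) cqa_true
    rw [h2]
  rw [h]
  exact measurableSet_setOfPred.2 (cqa_mSub C hπ m n)

theorem good_compl (C : CatData X F) {π : P → X} (hπ : Measurable π)
    {B : Set (P × (ℕ → Bool))} (hB : GoodS C π B) : GoodS C π Bᶜ := by
  refine ⟨hB.1.compl, fun m => ?_⟩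
  have h : {p | gn C (π p) fun y => y ∈ HH C m (π p) → (p, code C (π p) y) ∈ Bᶜ} =
      {p | ∀ k, (HH C k (π p)).Nonempty → HH C k (π p) ⊆ HH C m (π p) →
        ¬ gn C (π p) fun y => y ∈ HH C k (π p) → (p, code C (π p) y) ∈ B} := by
    ext p
    have hA : BaireMeasurableSet {y : Cl C (Quotient.mk F (π p)) |
        code C (π p) y.1 ∈ {b : ℕ → Bool | (p, b) ∈ B}} :=
      code_borel C rfl (measurable_prodMk_left hB.1)
    have h1 := res_compl (base' C (q := Quotient.mk F (π p)) rfl)
      (ic_ic (Bq C (Quotient.mk F (π p)) (π p) m)) hA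
    have h2 : ∀ (k : ℕ) (A : Set (P × (ℕ → Bool))),
        (gn C (π p) fun y => y ∈ HH C k (π p) → (p, code C (π p) y) ∈ A) ↔
        {y : Cl C (Quotient.mk F (π p)) |
          y ∈ interior (closure (Bq C (Quotient.mk F (π p)) (π p) k)) →
          (p, code C (π p) y.1) ∈ A} ∈ residual (Cl C (Quotient.mk F (π p))) := by
      intro k A
      refine Iff.trans (gn_iff C rfl _) ?_
      have h3 : {y : Cl C (Quotient.mk F (π p)) | y.1 ∈ HH C k (π p) →
          (p, code C (π p) y.1) ∈ A} = {y |
          y ∈ interior (closure (Bq C (Quotient.mk F (π p)) (π p) k)) →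
          (p, code C (π p) y.1) ∈ A} := by
        ext y
        exact imp_congr (mem_HH C rfl k y) Iff.rfl
      rw [h3]
    refine Iff.trans (h2 m Bᶜ) (Iff.trans h1 (forall_congr' fun k => ?_))
    exact imp_congr (cqa_neic C (π p) k).symm (imp_congr (cqa_sub C (π p) k m).symm
      (not_congr (h2 k B).symm))
  rw [h]
  exact measurableSet_setOfPred.2 (Measurable.forall fun k => (cqa_mNe C hπ k).imp
    ((cqa_mSub C hπ k m).imp (measurableSet_setOfPred.1 (hB.2 k)).not))

theorem good_iInter (C : CatData X F) {π : P → X} {B : ℕ → Set (P × (ℕ → Bool))}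
    (hB : ∀ n, GoodS C π (B n)) : GoodS C π (⋂ n, B n) := by
  refine ⟨MeasurableSet.iInter fun n => (hB n).1, fun m => ?_⟩
  have h : {p | gn C (π p) fun y => y ∈ HH C m (π p) → (p, code C (π p) y) ∈ ⋂ n, B n} =
      {p | ∀ n, gn C (π p) fun y => y ∈ HH C m (π p) → (p, code C (π p) y) ∈ B n} := by
    ext p
    constructor
    · intro (hp : gn C (π p) fun y => y ∈ HH C m (π p) → (p, code C (π p) y) ∈ ⋂ n, B n) n
      exact gn_mono (fun y _ hy hym => mem_iInter.1 (hy hym) n) hp
    · intro hp
      exact gn_mono (fun y _ hy hym => mem_iInter.2 fun n => hy n hym) (gn_nat hp)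
  rw [h]
  exact measurableSet_setOfPred.2 (Measurable.forall fun n => measurableSet_setOfPred.1 ((hB n).2 m))

end Pool.Agent.H93.EO
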