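import Pool.Agent.H93.EO.CqA
set_option autoImplicit false

/-!
# H93/EO/CqB: the category quantifier preserves measurability

* `good_all`: the sets `B` with `GoodS C π B` form a sigma-algebra `𝓜` (`good_fst` with `D = ∅` for
  the empty set, `good_compl`, unions through `good_iInter` and `good_compl`). The product
  sigma-algebra of `P × (ℕ → Bool)` is contained in it: it is
  `(comap fst) ⊔ (comap snd (⨆ n, comap (eval n) ⊤))`; `sup_le`; first part `good_fst`; second part:
  `MeasurableSpace.comap_iSup`, `iSup_le`, and for a set `T` of booleans the set `{q | q.2 n ∈ T}` is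
  one of: empty, everything, `{q | q.2 n = true}`, its complement (`good_snd`, `good_compl`,
  `good_fst`).
* `cat_cq`: let `G = {q : P × X | F (π q.1) q.2}` (measurable) and
  `Φ : P × X → P × (ℕ → Bool)`, `Φ q = (q.1, code C (π q.1) q.2)`, measurable (`measurable_pi_iff`,
  `measurable_to_bool`; preimages of `C.mO n` under `q ↦ (π q.1, q.2)`) and injective on `G`
  (`code_inj`). `B = Φ '' ({q | A q.1 q.2} ∩ G)` is measurable
  (`MeasurableSet.image_of_measurable_injOn`; `P × X` is standard Borel). For `y` in the class of `π p`: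
  `A p y ↔ (p, code C (π p) y) ∈ B`. So `gn (π p) (A p)` iff for all `m`
  `gn (π p) (y ∈ H m (π p) → (p, code y) ∈ B)` (`gn_nat`, `gn_mono`, `hh_cover`), and `good_all`.
-/

namespace Pool.Agent.H93.EO

open Set Topology TopologicalSpace

variable {X : Type} [MeasurableSpace X] {F : Setoid X} {P : Type} [MeasurableSpace P]

/-- the sigma-algebra of the good sets -/
@[instance_reducible]
private def goodM (C : CatData X F) {π : P → X} (hπ : Measurable π) :
    MeasurableSpace (P × (ℕ → Bool)) where
  MeasurableSet' := GoodS C π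
  measurableSet_empty := by
    have h := good_fst C hπ (MeasurableSet.empty (α := P))
    have he : {q : P × (ℕ → Bool) | q.1 ∈ (∅ : Set P)} = ∅ := by
      ext q
      simp
    rwa [he] at h
  measurableSet_compl := fun B hB => good_compl C hπ hB
  measurableSet_iUnion := by
    intro f hf
    have h := good_compl C hπ (good_iInter C fun n => good_compl C hπ (hf n))
    have he : (⋂ n, (f n)ᶜ)ᶜ = ⋃ n, f n := by
      rw [compl_iInter]
      simp
    rwa [he] at h

theorem good_all (C : CatData X F) {π : P → X} (hπ : Measurable π)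
    {B : Set (P × (ℕ → Bool))} (hB : MeasurableSet B) : GoodS C π B := by
  have h1 : @Measurable _ _ (goodM C hπ) _ (Prod.fst : P × (ℕ → Bool) → P) :=
    fun D hD => good_fst C hπ hD
  have h2 : @Measurable _ _ (goodM C hπ) _ (Prod.snd : P × (ℕ → Bool) → (ℕ → Bool)) := by
    refine @measurable_pi_lambda _ _ _ (goodM C hπ) _ _ fun n => ?_
    refine @measurable_to_bool _ (goodM C hπ) _ ?_
    exact good_snd C hπ n
  have h3 : @Measurable _ _ (goodM C hπ) _ (fun q : P × (ℕ → Bool) => (q.1, q.2)) :=
    Measurable.prodMk h1 h2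
  exact h3 hB

theorem cat_cq [StandardBorelSpace X] [StandardBorelSpace P] (C : CatData X F) {π : P → X}
    (hπ : Measurable π) (A : P → X → Prop) (hA : MeasurableSet {q : P × X | A q.1 q.2}) :
    MeasurableSet {p : P | gn C (π p) (A p)} := by
  have hG : MeasurableSet {q : P × X | F (π q.1) q.2} :=
    ((hπ.comp measurable_fst).prodMk measurable_snd) C.mF
  set Φ : P × X → P × (ℕ → Bool) := fun q => (q.1, code C (π q.1) q.2) with hΦ
  have hΦm : Measurable Φ := by
    refine measurable_fst.prodMk (measurable_pi_iff.2 fun n => measurable_to_bool ?_)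
    have he : (fun q : P × X => code C (π q.1) q.2 n) ⁻¹' {true}
        = (fun q : P × X => (π q.1, q.2)) ⁻¹' {p : X × X | p.2 ∈ C.O n p.1} := by
      ext q
      change code C (π q.1) q.2 n = true ↔ q.2 ∈ C.O n (π q.1)
      unfold code
      simp
    rw [he]
    exact ((hπ.comp measurable_fst).prodMk measurable_snd) (C.mO n)
  have hΦi : InjOn Φ {q : P × X | F (π q.1) q.2} := by
    rintro ⟨p, y⟩ h1 ⟨p', y'⟩ h2 h3
    have h4 : p = p' := congrArg Prod.fst h3
    subst h4
    have h5 : code C (π p) y = code C (π p) y' := congrArg Prod.snd h3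
    have h6 := code_inj C (q := Quotient.mk F (π p)) rfl
      (y := ⟨y, Quotient.sound (F.symm h1)⟩) (y' := ⟨y', Quotient.sound (F.symm h2)⟩) h5
    have h7 : y = y' := Subtype.mk.inj h6
    rw [h7]
  have hBm : MeasurableSet (Φ '' ({q : P × X | A q.1 q.2} ∩ {q : P × X | F (π q.1) q.2})) :=
    (hA.inter hG).image_of_measurable_injOn hΦm (hΦi.mono inter_subset_right)
  set B := Φ '' ({q : P × X | A q.1 q.2} ∩ {q : P × X | F (π q.1) q.2}) with hB
  have hiff : ∀ p y, F (π p) y → (A p y ↔ (p, code C (π p) y) ∈ B) := by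
    intro p y hy
    constructor
    · intro h
      exact ⟨(p, y), ⟨h, hy⟩, rfl⟩
    · rintro ⟨⟨p', y'⟩, ⟨h1, h2⟩, h3⟩
      have h4 : p' = p := congrArg Prod.fst h3
      subst h4
      have h5 : (p', y') = (p', y) := hΦi h2 (show F (π p') y from hy) h3
      have h6 : y' = y := congrArg Prod.snd h5
      rw [← h6]
      exact h1
  have h : {p : P | gn C (π p) (A p)} =
      {p | ∀ m, gn C (π p) fun y => y ∈ HH C m (π p) → (p, code C (π p) y) ∈ B} := by
    ext p
    constructor
    · intro (hp : gn C (π p) (A p)) m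
      exact gn_mono (fun y hy h1 _ => (hiff p y hy).1 h1) hp
    · intro hp
      refine gn_mono (fun y hy h1 => ?_) (gn_nat hp)
      obtain ⟨n, hn⟩ := hh_cover C hy
      exact (hiff p y hy).2 (h1 n hn)
  rw [h]
  exact measurableSet_setOfPred.2 (Measurable.forall fun m =>
    measurableSet_setOfPred.1 ((good_all C hπ hBm).2 m))

end Pool.Agent.H93.EO
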