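import Mathlib
set_option autoImplicit false

/-!
# H93/EO/Def0: topologies on the classes of an equivalence relation (definitions)

`CatData X F`: a T0 Baire topology on every class of `F`, with bases `O n x` of the class of `x` and
dense sequences `e i x` which depend in a Borel way on `x`.
`Cl C q`: the class `q` with its topology. `HH C n x`: the interior of the closure of `O n x` in the
class of `x`, as a set of points of `X`. `gn C x A`: the set of `y` in the class of `x` with `A y` is
comeager.
-/

namespace Pool.Agent.H93.EO

open Set Topology TopologicalSpace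

/-- topologies on the classes of `F` depending in a Borel way on the point -/
structure CatData (X : Type) [MeasurableSpace X] (F : Setoid X) where
  /-- the topologies of the classes -/
  τ : ∀ q : Quotient F, TopologicalSpace {y : X // Quotient.mk F y = q}
  t0 : ∀ q, @T0Space _ (τ q)
  baire : ∀ q, @BaireSpace _ (τ q)
  /-- the bases -/
  O : ℕ → X → Set X
  /-- the dense sequences -/
  e : ℕ → X → X
  mF : MeasurableSet {p : X × X | F p.1 p.2}
  mO : ∀ n, MeasurableSet {p : X × X | p.2 ∈ O n p.1}
  base : ∀ x, @IsTopologicalBasis _ (τ (Quotient.mk F x)) (range fun n => {y | y.1 ∈ O n x})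
  me : ∀ i, Measurable (e i)
  dense : ∀ x, @Dense _ (τ (Quotient.mk F x)) {y | ∃ i, y.1 = e i x}

variable {X : Type} [MeasurableSpace X] {F : Setoid X}

/-- the class `q` -/
def Cl (_ : CatData X F) (q : Quotient F) : Type := {y : X // Quotient.mk F y = q}

instance (C : CatData X F) (q : Quotient F) : TopologicalSpace (Cl C q) := C.τ q

instance (C : CatData X F) (q : Quotient F) : T0Space (Cl C q) := C.t0 q

instance (C : CatData X F) (q : Quotient F) : BaireSpace (Cl C q) := C.baire q

/-- basic open set as a subset of the class -/
def Bq (C : CatData X F) (q : Quotient F) (x : X) (n : ℕ) : Set (Cl C q) := {y | y.1 ∈ C.O n x}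

theorem base' (C : CatData X F) {q : Quotient F} {x : X} (h : Quotient.mk F x = q) :
    IsTopologicalBasis (range (Bq C q x)) := by
  subst h; exact C.base x

/-- the regular open basic sets -/
def HH (C : CatData X F) (n : ℕ) (x : X) : Set X :=
  {y | ∃ h : Quotient.mk F y = Quotient.mk F x,
    (⟨y, h⟩ : Cl C (Quotient.mk F x)) ∈ interior (closure (Bq C (Quotient.mk F x) x n))}

/-- for generic points of the class of `x` -/
def gn (C : CatData X F) (x : X) (A : X → Prop) : Prop :=
  {y : Cl C (Quotient.mk F x) | A y.1} ∈ residual (Cl C (Quotient.mk F x))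

theorem mem_HH (C : CatData X F) {q : Quotient F} {x : X} (h : Quotient.mk F x = q) (n : ℕ)
    (y : Cl C q) : y.1 ∈ HH C n x ↔ y ∈ interior (closure (Bq C q x n)) := by
  subst h
  exact ⟨fun ⟨_, h⟩ => h, fun h => ⟨y.2, h⟩⟩

theorem gn_iff (C : CatData X F) {q : Quotient F} {x : X} (h : Quotient.mk F x = q)
    (A : X → Prop) : gn C x A ↔ {y : Cl C q | A y.1} ∈ residual (Cl C q) := by
  subst h; rfl

theorem HH_mk {C : CatData X F} {n : ℕ} {x y : X} (h : y ∈ HH C n x) :
    Quotient.mk F y = Quotient.mk F x := h.1

open Classical in
/-- the dense sequence, corrected so that it lies in the class -/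
noncomputable def e1 (C : CatData X F) (i : ℕ) (x : X) : X :=
  if F x (C.e i x) then C.e i x else x

theorem e1_F (C : CatData X F) (i : ℕ) (x : X) : F x (e1 C i x) := by
  unfold e1
  split_ifs with h
  · exact h
  · exact F.refl x

theorem e1_mk (C : CatData X F) (i : ℕ) (x : X) :
    Quotient.mk F (e1 C i x) = Quotient.mk F x := Quotient.sound (F.symm (e1_F C i x))

theorem e1_dense (C : CatData X F) {q : Quotient F} {x : X} (h : Quotient.mk F x = q) :
    Dense {y : Cl C q | ∃ i, y.1 = e1 C i x} := by
  subst h
  refine Dense.mono ?_ (C.dense x)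
  rintro y ⟨i, hi⟩
  refine ⟨i, ?_⟩
  have h1 : F x (C.e i x) := by
    rw [← hi]; exact Quotient.exact y.2.symm
  rw [e1, if_pos h1]; exact hi

open Classical in
/-- the code of a point with respect to the basis of the class -/
noncomputable def code (C : CatData X F) (x y : X) (n : ℕ) : Bool := decide (y ∈ C.O n x)

end Pool.Agent.H93.EO
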