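import Mathlib
set_option autoImplicit false

/-!
# H93/EO/Def1: abstract category structure on the classes of an equivalence relation

`GenStr X F` collects the properties of second countable T0 Baire topologies on the classes of `F`
which depend in a Borel way on the point: `H n x` (`n : ℕ`) is a base of the topology of the class
`[x]` consisting of REGULAR OPEN sets, `e i x` (`i : ℕ`) is dense in `[x]`, `gen x P` means: the set
of `y` in `[x]` with `P y` is comeager in `[x]`. Everything in parts 1 and 2 uses only the fields of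
this structure (no topology appears).
-/

namespace Pool.Agent.H93.EO

open Set

/-- abstract category structure on the classes of `F` -/
structure GenStr (X : Type) [MeasurableSpace X] (F : X → X → Prop) where
  /-- regular open base of the class of `x` -/
  H : ℕ → X → Set X
  /-- dense sequence of the class of `x` -/
  e : ℕ → X → X
  /-- for generic `y` in the class of `x` -/
  gen : X → (X → Prop) → Prop
  sub : ∀ n x y, y ∈ H n x → F x y
  cover : ∀ x y, F x y → ∃ n, y ∈ H n x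
  inter : ∀ x y n m, y ∈ H n x → y ∈ H m x → ∃ k, y ∈ H k x ∧ H k x ⊆ H n x ∩ H m x
  change : ∀ x x' y n, F x x' → y ∈ H n x → ∃ k, y ∈ H k x' ∧ H k x' ⊆ H n x
  eF : ∀ i x, F x (e i x)
  dense : ∀ n x y, y ∈ H n x → ∃ i, e i x ∈ H n x
  regular : ∀ n m x, (∀ k z, z ∈ H k x → H k x ⊆ H m x → ∃ w ∈ H k x, w ∈ H n x) →
    H m x ⊆ H n x
  mono : ∀ x (P Q : X → Prop), (∀ y, F x y → P y → Q y) → gen x P → gen x Q
  nat : ∀ x (P : ℕ → X → Prop), (∀ n, gen x (P n)) → gen x fun y => ∀ n, P n y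
  inv : ∀ x x' (P : X → Prop), F x x' → gen x P → gen x' P
  baire : ∀ x n y, y ∈ H n x → ¬ gen x fun z => z ∉ H n x
  openDense : ∀ x (N : Set ℕ), (∀ m y, y ∈ H m x → ∃ n ∈ N, ∃ z, z ∈ H m x ∧ z ∈ H n x) →
    gen x fun z => ∃ n ∈ N, z ∈ H n x
  bp : ∀ x (A : Set X), MeasurableSet A →
    gen x fun y => y ∈ A → ∃ n, y ∈ H n x ∧ gen x fun z => z ∈ H n x → z ∈ A
  mH : ∀ n, MeasurableSet {p : X × X | p.2 ∈ H n p.1}
  me : ∀ i, Measurable (e i)
  cq : ∀ (P : Type) [MeasurableSpace P] [StandardBorelSpace P] (π : P → X), Measurable π →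
    ∀ A : P → X → Prop, MeasurableSet {q : P × X | A q.1 q.2} →
      MeasurableSet {p : P | gen (π p) (A p)}

variable {X : Type} [MeasurableSpace X] {F : X → X → Prop}

/-- open subset of the class of `x` -/
def Op (S : GenStr X F) (x : X) (U : Set X) : Prop :=
  (∀ y ∈ U, F x y) ∧ ∀ y ∈ U, ∃ n, y ∈ S.H n x ∧ S.H n x ⊆ U

/-- `U` meets every nonempty basic open subset of `V` -/
def DenseIn (S : GenStr X F) (x : X) (V U : Set X) : Prop :=
  ∀ k z, z ∈ S.H k x → S.H k x ⊆ V → ∃ w ∈ S.H k x, w ∈ U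

/-- regular open subset of the class of `x` -/
def RO (S : GenStr X F) (x : X) (U : Set X) : Prop :=
  Op S x U ∧ ∀ m, DenseIn S x (S.H m x) U → S.H m x ⊆ U

/-- the decreasing neighbourhood base at `z` -/
def V (S : GenStr X F) (k : ℕ) (z : X) : Set X :=
  {y | F z y ∧ ∀ j ≤ k, z ∈ S.H j z → y ∈ S.H j z}

/-- a set of points and a set valued function -/
structure Lev (X : Type) where
  /-- the points -/
  D : Set X
  /-- the neighbourhoods -/
  W : X → Set X

/-- `V k z` is contained in the neighbourhood `L.W y` of the generic point `y` of `V k z` -/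
def Q (S : GenStr X F) (L : Lev X) (k : ℕ) (z : X) : Prop :=
  S.gen z fun y => y ∈ V S k z → y ∈ L.D ∧ V S k z ⊆ L.W y

/-- one step -/
noncomputable def step (S : GenStr X F) (m : ℕ) (L : Lev X) : Lev X where
  D := {z | z ∈ L.D ∧ ∃ k, m ≤ k ∧ Q S L k z}
  W := fun z => V S (sInf {k | m ≤ k ∧ Q S L k z}) z

/-- the levels -/
noncomputable def lev (S : GenStr X F) : ℕ → Lev X
  | 0 => ⟨univ, fun z => {y | F z y}⟩
  | m + 1 => step S m (lev S m)

/-- what is known about a level -/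
structure Good (S : GenStr X F) (L : Lev X) : Prop where
  self : ∀ z ∈ L.D, z ∈ L.W z
  ro : ∀ z, RO S z (L.W z)
  mD : MeasurableSet L.D
  mW : MeasurableSet {p : X × X | p.2 ∈ L.W p.1}
  gD : ∀ x, S.gen x fun y => y ∈ L.D

/-- the invariant relations: for nonmeager many `z` both points lie in `W_m(z)` -/
def Rr (S : GenStr X F) (m : ℕ) (a b : X) : Prop :=
  ¬ S.gen a fun z => ¬ (z ∈ (lev S m).D ∧ a ∈ (lev S m).W z ∧ b ∈ (lev S m).W z)

/-- points at which the neighbourhoods of generic near points are small -/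
def Sm (S : GenStr X F) : Set X :=
  {y | ∀ n, ∃ j k, S.gen y fun u => u ∈ V S k y → V S j u ⊆ V S n y}

/-- points of continuity of the sets `P n` -/
def Ct (S : GenStr X F) (P : ℕ → Set X) : Set X :=
  {y | ∀ n, ∃ k, S.gen y fun u => u ∈ V S k y → (u ∈ P n ↔ y ∈ P n)}

/-- the good points -/
def Y0 (S : GenStr X F) (P : ℕ → Set X) : Set X :=
  {y | (∀ m, y ∈ (lev S m).D) ∧ y ∈ Sm S ∧ y ∈ Ct S P}

open Classical in
/-- the pre-distance -/
noncomputable def rho (S : GenStr X F) (a b : X) : ℝ :=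
  if h : ∃ m, ¬ Rr S (2 * m) a b then (1 / 2 : ℝ) ^ (Nat.find h - 1) else 0

/-- length of a chain from `a` to `b` through the points of the list -/
noncomputable def chain (S : GenStr X F) : X → X → List X → ℝ
  | a, b, [] => rho S a b
  | a, b, x :: l => rho S a x + chain S x b l

/-- a canonical metric on a Borel set `Y` comeager in every class, with dense sequences -/
structure MetStr (S : GenStr X F) (P : ℕ → Set X) where
  /-- the Borel set -/
  Y : Set X
  /-- the metric (`1` for points of different classes) -/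
  ρ : X → X → ℝ
  /-- dense sequences -/
  c : ℕ → X → X
  mY : MeasurableSet Y
  gY : ∀ x, S.gen x fun y => y ∈ Y
  mρ : Measurable fun p : X × X => ρ p.1 p.2
  nonneg : ∀ a ∈ Y, ∀ b ∈ Y, 0 ≤ ρ a b
  le_one : ∀ a ∈ Y, ∀ b ∈ Y, ρ a b ≤ 1
  self : ∀ a ∈ Y, ρ a a = 0
  symm : ∀ a ∈ Y, ∀ b ∈ Y, ρ a b = ρ b a
  tri : ∀ a ∈ Y, ∀ b ∈ Y, ∀ d ∈ Y, ρ a d ≤ ρ a b + ρ b d
  eq : ∀ a ∈ Y, ∀ b ∈ Y, ρ a b = 0 → a = b
  mc : ∀ i, Measurable (c i)
  cY : ∀ i x, c i x ∈ Y
  cF : ∀ i x, F x (c i x)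
  cd : ∀ n x y, y ∈ S.H n x → ∃ i, c i x ∈ S.H n x
  N1 : ∀ y ∈ Y, ∀ ε : ℝ, 0 < ε → ∃ k, ∀ b ∈ Y, b ∈ V S k y → ρ y b < ε
  N2 : ∀ y ∈ Y, ∀ n, ∃ ε : ℝ, 0 < ε ∧ ∀ b ∈ Y, ρ y b < ε → b ∈ V S n y
  P1 : ∀ y ∈ Y, ∀ n, ∃ ε : ℝ, 0 < ε ∧ ∀ b ∈ Y, ρ y b < ε → (b ∈ P n ↔ y ∈ P n)

end Pool.Agent.H93.EO
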