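import Pool.Agent.H93.EO.Def1
set_option autoImplicit false

/-!
# H93/EO/Def2: the metric spaces of the classes (definitions)
-/

namespace Pool.Agent.H93.EO

open Set

variable {X : Type} [MeasurableSpace X] {F : X → X → Prop} {S : GenStr X F} {P : ℕ → Set X}

/-- the good points of the class of `x` -/
def Cls (M : MetStr S P) (x : X) : Type := {y : X // y ∈ M.Y ∧ F x y}

noncomputable instance clsMet (M : MetStr S P) (x : X) : MetricSpace (Cls M x) where
  dist a b := M.ρ a.1 b.1
  dist_self a := M.self a.1 a.2.1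
  dist_comm a b := M.symm a.1 a.2.1 b.1 b.2.1
  dist_triangle a b c := M.tri a.1 a.2.1 b.1 b.2.1 c.1 c.2.1
  eq_of_dist_eq_zero {a b} h := Subtype.ext (M.eq a.1 a.2.1 b.1 b.2.1 h)

theorem cls_dist (M : MetStr S P) (x : X) (a b : Cls M x) : dist a b = M.ρ a.1 b.1 := rfl

/-- the points of the dense sequence -/
def cpt (M : MetStr S P) (x : X) (i : ℕ) : Cls M x := ⟨M.c i x, M.cY i x, M.cF i x⟩

/-- the code of a class: distances -/
noncomputable def codeR (M : MetStr S P) (x : X) (i j : ℕ) : ℝ := M.ρ (M.c i x) (M.c j x)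

/-- the code of a class: indices of the points in `P n` -/
def codeA (M : MetStr S P) (x : X) (n : ℕ) : Set ℕ := {i | M.c i x ∈ P n}

end Pool.Agent.H93.EO
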