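import Pool.Agent.H93.EO.Lsu
set_option autoImplicit false

/-!
# H93/EO/DenseSeq: dense sequences inside a Borel set comeager in every class

For `n : ℕ`: `D n = {x | ∃ i, e i x ∈ H n x}` is measurable (`mH`, `me`) and equals
`{x | (H n x).Nonempty}` (field `dense`); `B n = {p | p.2 ∈ Y ∧ p.2 ∈ H n p.1}` is measurable; for
`x ∈ D n`: `gen x (y ∉ B n x)` together with `gen x (y ∈ Y)` would give `gen x (y ∉ H n x)`, against
`baire`. `lsu` gives `s n`. Similarly `lsu` with `D = univ`, `B = {p | F p.1 p.2 ∧ p.2 ∈ Y}` (against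
`gen_false`: `gen x (¬ (F x y ∧ y ∈ Y))` and `gen x (y ∈ Y)` give `gen x False` by `mono`, which has
`F x y` as hypothesis) gives `s'`. Let `c n x = s n x` if `x ∈ D n` and `s' x` otherwise
(`Measurable.ite`). `cF`: `sub`.
-/

namespace Pool.Agent.H93.EO

open Set

variable {X : Type} [MeasurableSpace X] {F : X → X → Prop}

theorem denseSeq [StandardBorelSpace X] (hF : Equivalence F)
    (mF : MeasurableSet {p : X × X | F p.1 p.2}) (S : GenStr X F) {Y : Set X}
    (mY : MeasurableSet Y) (gY : ∀ x, S.gen x fun y => y ∈ Y) :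
    ∃ c : ℕ → X → X, (∀ i, Measurable (c i)) ∧ (∀ i x, c i x ∈ Y) ∧ (∀ i x, F x (c i x)) ∧
      ∀ n x y, y ∈ S.H n x → ∃ i, c i x ∈ S.H n x := by
  classical
  have mD : ∀ n, MeasurableSet {x : X | ∃ i, S.e i x ∈ S.H n x} := by
    intro n
    have h1 : {x : X | ∃ i, S.e i x ∈ S.H n x} = ⋃ i, {x | S.e i x ∈ S.H n x} := by
      ext x
      simp
    rw [h1]
    refine MeasurableSet.iUnion fun i => ?_
    have h2 : Measurable fun x : X => (x, S.e i x) := measurable_id.prodMk (S.me i)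
    exact h2 (S.mH n)
  have mB : ∀ n, MeasurableSet {p : X × X | p.2 ∈ Y ∧ p.2 ∈ S.H n p.1} := by
    intro n
    exact (measurable_snd mY).inter (S.mH n)
  have hs : ∀ n, ∃ s : X → X, Measurable s ∧ ∀ x ∈ {x : X | ∃ i, S.e i x ∈ S.H n x},
      (x, s x) ∈ {p : X × X | p.2 ∈ Y ∧ p.2 ∈ S.H n p.1} := by
    intro n
    refine lsu S (mB n) (mD n) ?_
    rintro x ⟨i, hi⟩ hg
    refine S.baire x n (S.e i x) hi ?_
    refine S.mono x _ _ ?_ (gen_and hg (gY x))
    intro y _ h1 h2
    exact h1.1 ⟨h1.2, h2⟩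
  have mB' : MeasurableSet {p : X × X | F p.1 p.2 ∧ p.2 ∈ Y} := mF.inter (measurable_snd mY)
  obtain ⟨s', ms', hs'⟩ := lsu S mB' (D := univ) MeasurableSet.univ (by
    intro x _ hg
    refine gen_false hF S x ?_
    refine S.mono x _ _ ?_ (gen_and hg (gY x))
    intro y hy h1
    exact h1.1 ⟨hy, h1.2⟩)
  choose s ms hs using hs
  have hin : ∀ n x, (∃ i, S.e i x ∈ S.H n x) → s n x ∈ Y ∧ s n x ∈ S.H n x := fun n x hx => hs n x hx
  have hin' : ∀ x, F x (s' x) ∧ s' x ∈ Y := fun x => hs' x (mem_univ x)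
  refine ⟨fun n x => if (∃ i, S.e i x ∈ S.H n x) then s n x else s' x, ?_, ?_, ?_, ?_⟩
  · intro n
    exact Measurable.ite (mD n) (ms n) ms'
  · intro n x
    by_cases h : ∃ i, S.e i x ∈ S.H n x
    · simp only [if_pos h]
      exact (hin n x h).1
    · simp only [if_neg h]
      exact (hin' x).2
  · intro n x
    by_cases h : ∃ i, S.e i x ∈ S.H n x
    · simp only [if_pos h]
      exact S.sub n x _ (hin n x h).2
    · simp only [if_neg h]
      exact (hin' x).1
  · intro n x y hy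
    have h : ∃ i, S.e i x ∈ S.H n x := S.dense n x y hy
    refine ⟨n, ?_⟩
    simp only [if_pos h]
    exact (hin n x h).2

end Pool.Agent.H93.EO
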