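import Pool.Agent.H93.EO.KFb
set_option autoImplicit false

/-!
# H93/EO/EMap: the one step extension is a functor for isometric maps with dense range

`i : A → B` with `dB (i x) (i y) = dA x y` and dense range. Then `mapE i` is the same kind of map
from `dE dA` to `dE dB`.

Isometric: `(x,y)` clear; `(x,L)`: `kf_map`. `(L,L')`: put `Li = L.map ..`, `Li' = ..`; then
`sup_{b in B} |kf dB Li b - kf dB Li' b| = sup_{a in A} |kf dA L a - kf dA L' a|`:
`>=`: `b = i a` and `kf_map`. `<=`: for `b` and `ε > 0` choose `a` with `dB (i a) b < ε`; as both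
functions are 1-Lipschitz (`kf_kat`), `|kf Li b - kf Li' b| <= |kf Li (i a) - kf Li' (i a)| + 2 ε`;
`le_of_forall_pos_le_add`. Bounded by 1 (`BddAbove`), `le_ciSup`, `ciSup_le` (`Nonempty B` from
`Nonempty A`).

Dense: `inl b`: `inl (i a)` with `dB (i a) b < ε`. `inr L'` (`L'` a list in `B × ℚ`): choose for each
entry `(b,q)` an `a` with `dB (i a) b < ε/2`; the list `L` of the `(a,q)` has
`Forall₂ (dist <= ε/2, same rational) (L.map ..) L'`, so by `kf_stab` the supremum is `<= ε/2 < ε`.
(Existence of `L`: induction on `L'`.)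
-/

namespace Pool.Agent.H93.EO

open Set Topology

theorem denseIso_mapE {A B : Type} [Nonempty A] {dA : A → A → ℝ} {dB : B → B → ℝ}
    (hA : IsPM dA) (hB : IsPM dB) (i : A → B) (hi : DenseIso dA dB i) :
    DenseIso (dE dA) (dE dB) (mapE i) := by
  have hBn : Nonempty B := ‹Nonempty A›.map i
  have hlip : ∀ (L L' : List (B × ℚ)) (b b' : B), |kf dB L b - kf dB L' b| ≤
      |kf dB L b' - kf dB L' b'| + 2 * dB b' b := by
    intro L L' b b'
    have h1 := abs_le.1 ((kf_kat hB L).2 b' (mem_univ _) b (mem_univ _)).1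
    have h2 := abs_le.1 ((kf_kat hB L').2 b' (mem_univ _) b (mem_univ _)).1
    rcases abs_cases (kf dB L b - kf dB L' b) with ⟨h3, _⟩ | ⟨h3, _⟩
    · rw [h3]
      have h4 := le_abs_self (kf dB L b' - kf dB L' b')
      linarith
    · rw [h3]
      have h4 := neg_abs_le (kf dB L b' - kf dB L' b')
      linarith
  have hbddA : ∀ L L' : List (A × ℚ), BddAbove (range fun x => |kf dA L x - kf dA L' x|) := by
    intro L L'
    refine ⟨1, ?_⟩
    rintro _ ⟨x, rfl⟩
    have h1 := (kf_kat hA L).1 x (mem_univ x)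
    have h2 := (kf_kat hA L').1 x (mem_univ x)
    exact abs_le.2 ⟨by linarith, by linarith⟩
  have hbddB : ∀ L L' : List (B × ℚ), BddAbove (range fun x => |kf dB L x - kf dB L' x|) := by
    intro L L'
    refine ⟨1, ?_⟩
    rintro _ ⟨x, rfl⟩
    have h1 := (kf_kat hB L).1 x (mem_univ x)
    have h2 := (kf_kat hB L').1 x (mem_univ x)
    exact abs_le.2 ⟨by linarith, by linarith⟩
  constructor
  · intro x y
    rcases x with x | L <;> rcases y with y | L'
    · exact hi.1 x y
    · exact kf_map i hi.1 L' x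
    · exact kf_map i hi.1 L y
    · show (⨆ b : B, |kf dB (L.map fun p => (i p.1, p.2)) b -
          kf dB (L'.map fun p => (i p.1, p.2)) b|) = ⨆ a : A, |kf dA L a - kf dA L' a|
      apply le_antisymm
      · refine ciSup_le fun b => le_of_forall_pos_le_add fun ε hε => ?_
        obtain ⟨a, ha⟩ := hi.2 b (ε / 2) (by linarith)
        have h1 := hlip (L.map fun p => (i p.1, p.2)) (L'.map fun p => (i p.1, p.2)) b (i a)
        rw [kf_map i hi.1 L a, kf_map i hi.1 L' a] at h1
        have h2 := le_ciSup (hbddA L L') a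
        linarith
      · refine ciSup_le fun a => ?_
        have h1 := le_ciSup (hbddB (L.map fun p => (i p.1, p.2)) (L'.map fun p => (i p.1, p.2)))
          (i a)
        rwa [kf_map i hi.1 L a, kf_map i hi.1 L' a] at h1
  · intro b ε hε
    rcases b with b | L'
    · obtain ⟨a, ha⟩ := hi.2 b ε hε
      exact ⟨Sum.inl a, ha⟩
    · have hL : ∃ L : List (A × ℚ), List.Forall₂ (fun p q : B × ℚ => dB p.1 q.1 ≤ ε / 2 ∧
          p.2 = q.2) (L.map fun p => (i p.1, p.2)) L' := by
        induction L' with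
        | nil => exact ⟨[], List.Forall₂.nil⟩
        | cons q L' ih =>
          obtain ⟨L, hL⟩ := ih
          obtain ⟨a, ha⟩ := hi.2 q.1 (ε / 2) (by linarith)
          exact ⟨(a, q.2) :: L, List.Forall₂.cons ⟨ha.le, rfl⟩ hL⟩
      obtain ⟨L, hL⟩ := hL
      refine ⟨Sum.inr L, ?_⟩
      show (⨆ x : B, |kf dB (L.map fun p => (i p.1, p.2)) x - kf dB L' x|) < ε
      have h1 : (⨆ x : B, |kf dB (L.map fun p => (i p.1, p.2)) x - kf dB L' x|) ≤ ε / 2 :=
        ciSup_le fun x => kf_stab hB (ε / 2) (by linarith) _ _ hL x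
      linarith

end Pool.Agent.H93.EO
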