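import Pool.Agent.H93.EO.KFa
set_option autoImplicit false

/-!
# H93/EO/EPm: the one step extension is a pseudo-metric with values in `[0,1]`

Write `f = kf d L`, `g = kf d L'`; both are Katetov on `univ` (`kf_kat`), values in `[0,1]`, so the
family `x ↦ |f x - g x|` is bounded by `1` (`BddAbove`), use `le_ciSup`, `ciSup_le` (`A` nonempty).
Cases on the constructors of the three points:
* `(x,y,L)`: `f x <= d x y + f y` and `d x y <= f x + f y`.
* `(x,L,L')`: `g x <= f x + sup |f - g|`, and `sup |f - g| <= f x + g x`: for each `y`,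
  `f y - g y <= (f x + d x y) - (d x y - g x) = f x + g x` and symmetrically.
* `(L,L',L'')`: triangle inequality for the supremum.
* `(L,x,L')` : `sup |f - g| <= f x + g x` as above.
-/

namespace Pool.Agent.H93.EO

open Set Topology

theorem kf_mem {A : Type} {d : A → A → ℝ} (h : IsPM d) (L : List (A × ℚ)) (x : A) :
    0 ≤ kf d L x ∧ kf d L x ≤ 1 :=
  (kf_kat h L).1 x (mem_univ x)

theorem kf_two {A : Type} {d : A → A → ℝ} (h : IsPM d) (L : List (A × ℚ)) (x y : A) :
    |kf d L x - kf d L y| ≤ d x y ∧ d x y ≤ kf d L x + kf d L y :=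
  (kf_kat h L).2 x (mem_univ x) y (mem_univ y)

theorem kf_bdd {A : Type} {d : A → A → ℝ} (h : IsPM d) (L L' : List (A × ℚ)) :
    BddAbove (range fun x => |kf d L x - kf d L' x|) := by
  refine ⟨1, ?_⟩
  rintro _ ⟨x, rfl⟩
  have h1 := kf_mem h L x
  have h2 := kf_mem h L' x
  exact abs_le.2 ⟨by linarith, by linarith⟩

theorem kf_le_sup {A : Type} {d : A → A → ℝ} (h : IsPM d) (L L' : List (A × ℚ)) (x : A) :
    |kf d L x - kf d L' x| ≤ ⨆ x : A, |kf d L x - kf d L' x| :=
  le_ciSup (kf_bdd h L L') x

theorem kf_sup_le_one {A : Type} [Nonempty A] {d : A → A → ℝ} (h : IsPM d)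
    (L L' : List (A × ℚ)) : (⨆ x : A, |kf d L x - kf d L' x|) ≤ 1 := by
  refine ciSup_le fun x => ?_
  have h1 := kf_mem h L x
  have h2 := kf_mem h L' x
  exact abs_le.2 ⟨by linarith, by linarith⟩

theorem kf_sup_nonneg {A : Type} {d : A → A → ℝ} (L L' : List (A × ℚ)) :
    0 ≤ ⨆ x : A, |kf d L x - kf d L' x| :=
  Real.iSup_nonneg fun _ => abs_nonneg _

theorem kf_sup_symm {A : Type} {d : A → A → ℝ} (L L' : List (A × ℚ)) :
    (⨆ x : A, |kf d L x - kf d L' x|) = ⨆ x : A, |kf d L' x - kf d L x| := by
  congr 1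
  funext x
  exact abs_sub_comm _ _

theorem kf_sup_le_add {A : Type} [Nonempty A] {d : A → A → ℝ} (h : IsPM d)
    (L L' : List (A × ℚ)) (x : A) :
    (⨆ y : A, |kf d L y - kf d L' y|) ≤ kf d L x + kf d L' x := by
  refine ciSup_le fun y => ?_
  have h1 := kf_two h L x y
  have h2 := kf_two h L' x y
  have h3 := abs_le.1 h1.1
  have h4 := abs_le.1 h2.1
  exact abs_le.2 ⟨by linarith [h1.2, h2.2], by linarith [h1.2, h2.2]⟩

theorem isPM_dE {A : Type} [Nonempty A] {d : A → A → ℝ} (h : IsPM d) : IsPM (dE d) where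
  nonneg a b := by
    rcases a with x | L <;> rcases b with y | L'
    · exact h.nonneg x y
    · exact (kf_mem h L' x).1
    · exact (kf_mem h L y).1
    · exact kf_sup_nonneg L L'
  le_one a b := by
    rcases a with x | L <;> rcases b with y | L'
    · exact h.le_one x y
    · exact (kf_mem h L' x).2
    · exact (kf_mem h L y).2
    · exact kf_sup_le_one h L L'
  self a := by
    rcases a with x | L
    · exact h.self x
    · show (⨆ x : A, |kf d L x - kf d L x|) = 0
      simp
  symm a b := by
    rcases a with x | L <;> rcases b with y | L'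
    · exact h.symm x y
    · rfl
    · rfl
    · exact kf_sup_symm L L'
  tri a b c := by
    rcases a with x | L <;> rcases b with y | L' <;> rcases c with z | L''
    · exact h.tri x y z
    · show kf d L'' x ≤ d x y + kf d L'' y
      have := abs_le.1 (kf_two h L'' x y).1
      linarith
    · show d x z ≤ kf d L' x + kf d L' z
      exact (kf_two h L' x z).2
    · show kf d L'' x ≤ kf d L' x + ⨆ x : A, |kf d L' x - kf d L'' x|
      have h1 := abs_le.1 (kf_le_sup h L' L'' x)
      linarith
    · show kf d L z ≤ kf d L y + d y z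
      have := abs_le.1 (kf_two h L y z).1
      linarith
    · show (⨆ x : A, |kf d L x - kf d L'' x|) ≤ kf d L y + kf d L'' y
      exact kf_sup_le_add h L L'' y
    · show kf d L z ≤ (⨆ x : A, |kf d L x - kf d L' x|) + kf d L' z
      have h1 := abs_le.1 (kf_le_sup h L L' z)
      linarith
    · show (⨆ x : A, |kf d L x - kf d L'' x|) ≤
        (⨆ x : A, |kf d L x - kf d L' x|) + ⨆ x : A, |kf d L' x - kf d L'' x|
      refine ciSup_le fun x => ?_
      have h1 := kf_le_sup h L L' x
      have h2 := kf_le_sup h L' L'' x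
      have h3 := abs_sub_le (kf d L x) (kf d L' x) (kf d L'' x)
      linarith

end Pool.Agent.H93.EO
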