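import Pool.Agent.H93.EO.BrSeq
import Pool.Agent.H93.EO.BrMeas
set_option autoImplicit false

/-!
# H93/EO/Emb: measurable choice of a dense copy of `(ℕ, D)` in the fixed space `U`

`U` complete, `ι : ℕ → U` dense, `D' n m = dist (ι n) (ι m) <= 1`, `AE D'`; `IsPM D'` is clear.
For `ω` let `b s = br (D ω) D' s` and for `n, k` let `σ n k = 2 * Nat.pair n k`, so `(b (σ n k)).1 = n`
(`br_even`, `Nat.unpair_pair`). Put `x n k = ι (b (σ n k)).2`. By `br_ok` with equal first
components (`D ω n n = 0`): `dist (x n k) (x n l) <= 2^-σ(n,k) + 2^-σ(n,l)`, and `σ n k >= k`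
(`Nat.right_le_pair`), so `(x n k)_k` is Cauchy; `u ω n` is its limit (exists by completeness).
* Measurable: `ω ↦ x n k` is measurable (a function of `br`, which is measurable into the countable
  discrete `ℕ × ℕ`: `measurable_from_top.comp`, or `measurable_of_countable`), and pointwise limits
  of measurable maps into a metric space are measurable (`measurable_of_tendsto_metrizable`,
  limit along `k`, `tendsto_pi_nhds`).
* `dist (u n) (u m) = D ω n m` : `|D ω n m - dist (x n k) (x m k)| <= 2^-k + 2^-k`, pass to the limit.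
* Dense: let `m`, `ε > 0`; take `j` with `2^-s < ε/2`, `s = 2 * Nat.pair m j + 1`, so
  `(b s).2 = m` (`br_odd`). Put `n = (b s).1`. For all `k`, `br_ok` (first components both `n`) gives
  `dist (x n k) (ι m) <= 2^-σ + 2^-s`, so `dist (u n) (ι m) <= 2^-s < ε`. As `ι` is dense, `u ω` is.
To choose `u` as a function: for all `ω, n` there is a limit; use `Classical.choose` (axiom of choice:
`choose u hu using ...`).
-/

namespace Pool.Agent.H93.EO

open Set Topology

theorem emb {Ω U : Type} [MeasurableSpace Ω] [MetricSpace U] [CompleteSpace U]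
    [MeasurableSpace U] [BorelSpace U] (ι : ℕ → U) (hι : DenseRange ι)
    (hb : ∀ n m, dist (ι n) (ι m) ≤ 1) (hA : AE fun n m => dist (ι n) (ι m))
    (D : Ω → ℕ → ℕ → ℝ) (hD : ∀ ω, IsPM (D ω)) (hDA : ∀ ω, AE (D ω))
    (hm : ∀ n m, Measurable fun ω => D ω n m) :
    ∃ u : Ω → ℕ → U, (∀ n, Measurable fun ω => u ω n) ∧
      (∀ ω n m, dist (u ω n) (u ω m) = D ω n m) ∧ ∀ ω, DenseRange (u ω) := by
  obtain ⟨D', hD'⟩ : ∃ D' : ℕ → ℕ → ℝ, ∀ n m, D' n m = dist (ι n) (ι m) :=
    ⟨fun n m => dist (ι n) (ι m), fun _ _ => rfl⟩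
  have hfun : D' = fun n m => dist (ι n) (ι m) := funext fun n => funext fun m => hD' n m
  have hPM : IsPM D' := by
    rw [hfun]
    exact ⟨fun _ _ => dist_nonneg, hb, fun _ => dist_self _, fun _ _ => dist_comm _ _,
      fun _ _ _ => dist_triangle _ _ _⟩
  have hA' : AE D' := by
    rw [hfun]
    exact hA
  obtain ⟨β, hβ⟩ : ∃ β : Ω → ℕ → ℕ × ℕ, ∀ ω s, β ω s = br (D ω) D' s :=
    ⟨fun ω s => br (D ω) D' s, fun _ _ => rfl⟩
  have hok : ∀ ω t s, |D ω (β ω t).1 (β ω s).1 - dist (ι (β ω t).2) (ι (β ω s).2)| ≤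
      (1 / 2 : ℝ) ^ t + (1 / 2 : ℝ) ^ s := by
    intro ω t s
    rw [← hD', hβ, hβ]
    exact br_ok (hD ω) hPM (hDA ω) hA' t s
  have heven : ∀ ω n k, (β ω (2 * Nat.pair n k)).1 = n := by
    intro ω n k
    rw [hβ, br_even, Nat.unpair_pair]
  have hodd : ∀ ω n k, (β ω (2 * Nat.pair n k + 1)).2 = n := by
    intro ω n k
    rw [hβ, br_odd, Nat.unpair_pair]
  have hβm : ∀ s, Measurable fun ω => β ω s := by
    intro s
    have h1 := measurable_br D hm D' s
    have h2 : (fun ω => β ω s) = fun ω => br (D ω) D' s := funext fun ω => hβ ω s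
    rw [h2]
    exact h1
  have hpow : ∀ n k : ℕ, (1 / 2 : ℝ) ^ (2 * Nat.pair n k) ≤ (1 / 2 : ℝ) ^ k := by
    intro n k
    refine pow_le_pow_of_le_one (by norm_num) (by norm_num) ?_
    have h1 := Nat.right_le_pair n k
    omega
  have hlim : Filter.Tendsto (fun k : ℕ => (1 / 2 : ℝ) ^ k) Filter.atTop (𝓝 0) :=
    tendsto_pow_atTop_nhds_zero_of_lt_one (by norm_num) (by norm_num)
  have hlim2 : Filter.Tendsto (fun k : ℕ => (1 / 2 : ℝ) ^ k + (1 / 2 : ℝ) ^ k) Filter.atTop
      (𝓝 0) := by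
    have h1 := hlim.add hlim
    rwa [add_zero] at h1
  obtain ⟨x, hx⟩ : ∃ x : Ω → ℕ → ℕ → U, ∀ ω n k, x ω n k = ι (β ω (2 * Nat.pair n k)).2 :=
    ⟨fun ω n k => ι (β ω (2 * Nat.pair n k)).2, fun _ _ _ => rfl⟩
  have hxm : ∀ n k, Measurable fun ω => x ω n k := by
    intro n k
    have h2 : (fun ω => x ω n k) = ι ∘ Prod.snd ∘ fun ω => β ω (2 * Nat.pair n k) :=
      funext fun ω => hx ω n k
    rw [h2]
    exact measurable_from_nat.comp (measurable_snd.comp (hβm _))
  have hxx : ∀ ω n m k l, |D ω n m - dist (x ω n k) (x ω m l)| ≤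
      (1 / 2 : ℝ) ^ k + (1 / 2 : ℝ) ^ l := by
    intro ω n m k l
    have h1 := hok ω (2 * Nat.pair n k) (2 * Nat.pair m l)
    rw [heven, heven, ← hx, ← hx] at h1
    exact h1.trans (add_le_add (hpow n k) (hpow m l))
  have hcau : ∀ ω n, CauchySeq (x ω n) := by
    intro ω n
    refine cauchySeq_of_le_tendsto_0 (fun k => (1 / 2 : ℝ) ^ k + (1 / 2 : ℝ) ^ k) ?_ hlim2
    intro k l N hk hl
    have h1 := hxx ω n n k l
    rw [(hD ω).self, zero_sub, abs_neg, abs_of_nonneg dist_nonneg] at h1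
    exact h1.trans (add_le_add (pow_le_pow_of_le_one (by norm_num) (by norm_num) hk)
      (pow_le_pow_of_le_one (by norm_num) (by norm_num) hl))
  choose u hu using fun ω n => cauchySeq_tendsto_of_complete (hcau ω n)
  refine ⟨u, fun n => ?_, fun ω n m => ?_, fun ω => ?_⟩
  · refine measurable_of_tendsto_metrizable (f := fun k ω => x ω n k) (fun k => hxm n k) ?_
    rw [tendsto_pi_nhds]
    exact fun ω => hu ω n
  · have h1 : Filter.Tendsto (fun k => |D ω n m - dist (x ω n k) (x ω m k)|) Filter.atTop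
        (𝓝 |D ω n m - dist (u ω n) (u ω m)|) :=
      (tendsto_const_nhds.sub ((hu ω n).dist (hu ω m))).abs
    have h2 := le_of_tendsto_of_tendsto' h1 hlim2 fun k => hxx ω n m k k
    have h3 := abs_nonpos_iff.1 h2
    linarith
  · rw [Metric.denseRange_iff]
    intro y r hr
    obtain ⟨m, hm'⟩ := (Metric.denseRange_iff.1 hι) y (r / 2) (by linarith)
    obtain ⟨j, hj⟩ := exists_pow_lt_of_lt_one (show 0 < r / 2 by linarith)
      (show (1 / 2 : ℝ) < 1 by norm_num)
    obtain ⟨s, hs⟩ : ∃ s, s = 2 * Nat.pair m j + 1 := ⟨_, rfl⟩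
    have hs1 : (1 / 2 : ℝ) ^ s ≤ (1 / 2 : ℝ) ^ j := by
      refine pow_le_pow_of_le_one (by norm_num) (by norm_num) ?_
      have h1 := Nat.right_le_pair m j
      omega
    have hs2 : (β ω s).2 = m := by rw [hs, hodd]
    obtain ⟨n, hn⟩ : ∃ n, n = (β ω s).1 := ⟨_, rfl⟩
    have h1 : ∀ k, dist (x ω n k) (ι m) ≤ (1 / 2 : ℝ) ^ k + (1 / 2 : ℝ) ^ s := by
      intro k
      have h2 := hok ω (2 * Nat.pair n k) s
      rw [heven, ← hn, ← hx, hs2, (hD ω).self, zero_sub, abs_neg,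
        abs_of_nonneg dist_nonneg] at h2
      exact h2.trans (add_le_add_left (hpow n k) _)
    have h2 : Filter.Tendsto (fun k => dist (x ω n k) (ι m)) Filter.atTop
        (𝓝 (dist (u ω n) (ι m))) := (hu ω n).dist tendsto_const_nhds
    have h3 : Filter.Tendsto (fun k : ℕ => (1 / 2 : ℝ) ^ k + (1 / 2 : ℝ) ^ s) Filter.atTop
        (𝓝 (0 + (1 / 2 : ℝ) ^ s)) := hlim.add tendsto_const_nhds
    have h4 := le_of_tendsto_of_tendsto' h2 h3 h1
    refine ⟨n, ?_⟩
    have h5 := dist_triangle y (ι m) (u ω n)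
    rw [dist_comm (ι m)] at h5
    linarith

end Pool.Agent.H93.EO
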