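import Pool.Agent.H93.EO.TT
set_option autoImplicit false

/-!
# H93/EO/MeasT: Borel dependence of the tower on the matrix

`Ω` a measurable space, `d : Ω → A → A → ℝ`, `A` countable, every `ω ↦ d ω a b` measurable. Then
`ω ↦ dk (d ω) k s t` is measurable for all `k, s, t`: induction on `k`; `up`, `lo`, `kf` by
induction on the list (`Measurable.min`, `.max`, `.add`, `.sub`, constants); the supremum is over
the countable type `Tk A k` (`countable_Tk`), use `Measurable.iSup`. Then `dT` (fixed lifts).
-/

namespace Pool.Agent.H93.EO

open Set Topology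

theorem measurable_up {Ω A : Type} [MeasurableSpace Ω] (d : Ω → A → A → ℝ)
    (hd : ∀ a b, Measurable fun ω => d ω a b) (L : List (A × ℚ)) (x : A) :
    Measurable fun ω => up (d ω) L x := by
  induction L with
  | nil => exact measurable_const
  | cons p L ih =>
    show Measurable fun ω => min (|(p.2 : ℝ)| + d ω p.1 x) (up (d ω) L x)
    exact (measurable_const.add (hd p.1 x)).min ih

theorem measurable_lo {Ω A : Type} [MeasurableSpace Ω] (d : Ω → A → A → ℝ)
    (hd : ∀ a b, Measurable fun ω => d ω a b) (L : List (A × ℚ)) (x : A) :
    Measurable fun ω => lo (d ω) L x := by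
  induction L with
  | nil => exact measurable_const
  | cons p L ih =>
    show Measurable fun ω => max (d ω p.1 x - |(p.2 : ℝ)|) (lo (d ω) L x)
    exact ((hd p.1 x).sub measurable_const).max ih

theorem measurable_kf {Ω A : Type} [MeasurableSpace Ω] (d : Ω → A → A → ℝ)
    (hd : ∀ a b, Measurable fun ω => d ω a b) (L : List (A × ℚ)) (x : A) :
    Measurable fun ω => kf (d ω) L x :=
  (measurable_up d hd L x).max (measurable_lo d hd L x)

theorem measurable_dk {Ω A : Type} [MeasurableSpace Ω] [Countable A] (d : Ω → A → A → ℝ)
    (hd : ∀ a b, Measurable fun ω => d ω a b) (k : ℕ) (s t : Tk A k) :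
    Measurable fun ω => dk (d ω) k s t := by
  induction k with
  | zero => exact hd s t
  | succ k ih =>
    have hc : Countable (Tk A k) := countable_Tk A k
    rcases s with s | s <;> rcases t with t | t
    · exact ih s t
    · exact measurable_kf (fun ω => dk (d ω) k) ih t s
    · exact measurable_kf (fun ω => dk (d ω) k) ih s t
    · show Measurable fun ω => ⨆ x : Tk A k, |kf (dk (d ω) k) s x - kf (dk (d ω) k) t x|
      refine Measurable.iSup fun x => ?_
      exact continuous_abs.measurable.comp
        ((measurable_kf (fun ω => dk (d ω) k) ih s x).sub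
          (measurable_kf (fun ω => dk (d ω) k) ih t x))

theorem measurable_dT {Ω A : Type} [MeasurableSpace Ω] [Countable A] (d : Ω → A → A → ℝ)
    (hd : ∀ a b, Measurable fun ω => d ω a b) (s t : T A) :
    Measurable fun ω => dT (d ω) s t :=
  measurable_dk d hd _ _ _

end Pool.Agent.H93.EO
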