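import Pool.Agent.H93.EO.Emb
import Pool.Agent.H93.EO.Compl
import Pool.Agent.H93.EO.AEm
import Pool.Agent.H93.EO.MeasT
set_option autoImplicit false

/-!
# H93/EO/Emb2: one space `U` contains dense copies of all term spaces, measurably

`T ℕ` is countable (`countable_T`) and nonempty: take a surjection `en : ℕ → T ℕ` and a right inverse
`idx : T ℕ → ℕ`, `en (idx t) = t`. `D0 n m = dT (fun _ _ => 0) (en n) (en m)`; the zero function is
`IsPM`. `complPM D0` gives `U`, `ι` (`SecondCountableTopology U`: separable because `range ι` is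
countable and dense; `UniformSpace.secondCountable_of_separable`; `borel U`). If `D` is `AE` on `T ℕ`
then `fun n m => D (en n) (en m)` is `AE` on `ℕ`: given a list `S` and `f`, the values of `f` at two
indices of the same term agree (distance 0), so `f` induces a Katetov function on the list
`S.map en` (choose a value); the point `q : T ℕ` obtained is `en (idx q)`.
`emb` applied to `D ω n m = dT (r ω) (en n) (en m)` (`isPM_dT`, `ae_dT`, `measurable_dT`) gives `u`;
put `v ω t = u ω (idx t)`. `u ω n = v ω (en n)` because their distance is `dT (en n) (en n) = 0`,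
so `v ω` has dense range.
-/

namespace Pool.Agent.H93.EO

open Set Topology

/-- `AE` is inherited along a surjective indexing -/
private theorem ae_comp {A : Type} {D : A → A → ℝ} (hD : IsPM D) (hA : AE D) (en : ℕ → A)
    (idx : A → ℕ) (h : ∀ t, en (idx t) = t) : AE (fun n m => D (en n) (en m)) := by
  classical
  intro S f hf δ hδ
  let g : A → ℝ := fun t => if ht : ∃ n, n ∈ S ∧ en n = t then f ht.choose else 0
  have hg : ∀ n ∈ S, g (en n) = f n := by
    intro n hn
    have ht : ∃ m, m ∈ S ∧ en m = en n := ⟨n, hn, rfl⟩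
    have h1 : g (en n) = f ht.choose := dif_pos ht
    rw [h1]
    have h2 := (hf.2 ht.choose ht.choose_spec.1 n hn).1
    have h3 : D (en ht.choose) (en n) = 0 := by
      rw [ht.choose_spec.2]
      exact hD.self _
    simp only [h3] at h2
    have h4 := abs_nonneg (f ht.choose - f n)
    have h5 : |f ht.choose - f n| = 0 := le_antisymm h2 h4
    have h6 := abs_eq_zero.mp h5
    linarith
  have hK : Kat D {a | a ∈ S.map en} g := by
    constructor
    · intro a ha
      obtain ⟨n, hn, rfl⟩ := List.mem_map.mp ha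
      rw [hg n hn]
      exact hf.1 n hn
    · intro a ha b hb
      obtain ⟨n, hn, rfl⟩ := List.mem_map.mp ha
      obtain ⟨m, hm, rfl⟩ := List.mem_map.mp hb
      rw [hg n hn, hg m hm]
      exact hf.2 n hn m hm
  obtain ⟨q, hq⟩ := hA (S.map en) g hK δ hδ
  refine ⟨idx q, fun a ha => ?_⟩
  have h1 := hq (en a) (List.mem_map.mpr ⟨a, ha, rfl⟩)
  rw [hg a ha] at h1
  simp only [h]
  exact h1

private theorem isPM_comp {A B : Type} {D : A → A → ℝ} (hD : IsPM D) (en : B → A) :
    IsPM (fun n m => D (en n) (en m)) where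
  nonneg _ _ := hD.nonneg _ _
  le_one _ _ := hD.le_one _ _
  self _ := hD.self _
  symm _ _ := hD.symm _ _
  tri _ _ _ := hD.tri _ _ _

theorem emb2 {Ω : Type} [MeasurableSpace Ω] (r : Ω → ℕ → ℕ → ℝ) (hr : ∀ ω, IsPM (r ω))
    (hm : ∀ i j, Measurable fun ω => r ω i j) :
    ∃ (U : Type) (_ : MetricSpace U) (_ : CompleteSpace U) (_ : SecondCountableTopology U)
      (_ : MeasurableSpace U) (_ : BorelSpace U) (v : Ω → T ℕ → U),
      (∀ t, Measurable fun ω => v ω t) ∧ (∀ ω s t, dist (v ω s) (v ω t) = dT (r ω) s t) ∧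
      ∀ ω, DenseRange (v ω) := by
  haveI : Countable (T ℕ) := countable_T ℕ
  haveI : Nonempty (T ℕ) := ⟨pt 0⟩
  obtain ⟨en, hen⟩ := exists_surjective_nat (T ℕ)
  obtain ⟨idx, hidx⟩ := hen.hasRightInverse
  have hidx' : ∀ t, en (idx t) = t := hidx
  have h0 : IsPM (fun _ _ : ℕ => (0 : ℝ)) :=
    ⟨fun _ _ => le_rfl, fun _ _ => zero_le_one, fun _ => rfl, fun _ _ => rfl,
      fun _ _ _ => by norm_num⟩
  have hT0 : IsPM (dT (fun _ _ : ℕ => (0 : ℝ))) := isPM_dT h0
  obtain ⟨U, iM, iC, ι, hι, hd⟩ := complPM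
    (fun n m => dT (fun _ _ : ℕ => (0 : ℝ)) (en n) (en m)) (isPM_comp hT0 en)
  have hsep : TopologicalSpace.SeparableSpace U := ⟨Set.range ι, Set.countable_range ι, hι⟩
  have hsc : SecondCountableTopology U := UniformSpace.secondCountable_of_separable U
  letI : MeasurableSpace U := borel U
  haveI : BorelSpace U := ⟨rfl⟩
  have hAE0 : AE (fun n m => dist (ι n) (ι m)) := by
    have h1 := ae_comp hT0 (ae_dT h0) en idx hidx'
    have h2 : (fun n m => dist (ι n) (ι m)) =
        fun n m => dT (fun _ _ : ℕ => (0 : ℝ)) (en n) (en m) := by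
      funext n m
      exact hd n m
    rw [h2]
    exact h1
  obtain ⟨u, hu1, hu2, hu3⟩ := emb (Ω := Ω) ι hι
    (fun n m => by rw [hd]; exact hT0.le_one _ _) hAE0
    (fun ω n m => dT (r ω) (en n) (en m)) (fun ω => isPM_comp (isPM_dT (hr ω)) en)
    (fun ω => ae_comp (isPM_dT (hr ω)) (ae_dT (hr ω)) en idx hidx')
    (fun n m => measurable_dT r hm (en n) (en m))
  refine ⟨U, iM, iC, hsc, borel U, ⟨rfl⟩, fun ω t => u ω (idx t), fun t => hu1 _,
    fun ω s t => ?_, fun ω => ?_⟩
  · rw [hu2]
    simp only [hidx']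
  · refine (hu3 ω).mono ?_
    rintro _ ⟨n, rfl⟩
    refine ⟨en n, ?_⟩
    have h1 : dist (u ω (idx (en n))) (u ω n) = 0 := by
      rw [hu2]
      simp only [hidx']
      exact (isPM_dT (hr ω)).self _
    exact eq_of_dist_eq_zero h1

end Pool.Agent.H93.EO
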