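import Pool.Agent.H93.EO.Def1
set_option autoImplicit false

/-!
# H93/EO/G1: open and regular open subsets of the classes

`Op S x U`: `U` is an open subset of the class of `x`; `RO S x U`: regular open. All of this is
independent of the representative `x` by the field `change`.

* `dense_mono`: immediate (`DenseIn` is monotone in `U` and antitone in `V`).
* `op_inv`: `y ∈ U`: `n` with `y ∈ H n x ⊆ U`; `change x x' y n`. (`F x' y` by symmetry and
  transitivity.)
* `dense_inv`: for `z ∈ H k x' ⊆ V` take by `change x' x z k` some `H k' x ⊆ H k x'` containing `z`.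
* `ro_inv`: let `DenseIn S x' (H m x') U`, `y ∈ H m x'`; `change x' x y m` gives `k`,
  `y ∈ H k x ⊆ H m x'`; `DenseIn S x (H k x) U` by `dense_inv` and `dense_mono`; so `H k x ⊆ U`.
* `op_H`, `ro_H`: fields `sub` and `regular`.
* `op_cls`, `ro_cls`: fields `cover`, `sub`.
* `op_inter` (field `inter`), `ro_inter`.
* `ro_of_dense`: if `O` is open, `U` regular open, `U` dense in `O` then `O ⊆ U`: for `y ∈ O` take
  `n` with `y ∈ H n x ⊆ O`, then `DenseIn (H n x) U`.
* `incl`: an inclusion of an open set in a regular open set may be tested on the dense sequence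
  `e i x`: field `dense` and `ro_of_dense`.
* `exists_e`: a nonempty open set contains some `e i x`.
-/

namespace Pool.Agent.H93.EO

open Set

variable {X : Type} [MeasurableSpace X] {F : X → X → Prop}

theorem dense_mono {S : GenStr X F} {x : X} {V V' U U' : Set X} (hV : V' ⊆ V) (hU : U ⊆ U')
    (h : DenseIn S x V U) : DenseIn S x V' U' := by
  intro k z hz hs
  obtain ⟨w, hw, hwU⟩ := h k z hz (hs.trans hV)
  exact ⟨w, hw, hU hwU⟩

theorem op_inv (hF : Equivalence F) {S : GenStr X F} {x x' : X} (hx : F x x') {U : Set X}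
    (h : Op S x U) : Op S x' U := by
  refine ⟨fun y hy => hF.trans (hF.symm hx) (h.1 y hy), fun y hy => ?_⟩
  obtain ⟨n, hn, hnU⟩ := h.2 y hy
  obtain ⟨k, hk, hkn⟩ := S.change x x' y n hx hn
  exact ⟨k, hk, hkn.trans hnU⟩

theorem dense_inv (hF : Equivalence F) {S : GenStr X F} {x x' : X} (hx : F x x') {V U : Set X}
    (h : DenseIn S x V U) : DenseIn S x' V U := by
  intro k z hz hs
  obtain ⟨k', hk', hs'⟩ := S.change x' x z k (hF.symm hx) hz
  obtain ⟨w, hw, hwU⟩ := h k' z hk' (hs'.trans hs)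
  exact ⟨w, hs' hw, hwU⟩

theorem ro_inv (hF : Equivalence F) {S : GenStr X F} {x x' : X} (hx : F x x') {U : Set X}
    (h : RO S x U) : RO S x' U := by
  refine ⟨op_inv hF hx h.1, fun m hd y hy => ?_⟩
  obtain ⟨k, hk, hs⟩ := S.change x' x y m (hF.symm hx) hy
  have h1 : DenseIn S x (S.H k x) U :=
    dense_mono hs Subset.rfl (dense_inv hF (hF.symm hx) hd)
  exact h.2 k h1 hk

theorem op_H (S : GenStr X F) (n : ℕ) (x : X) : Op S x (S.H n x) := by
  exact ⟨fun y hy => S.sub n x y hy, fun y hy => ⟨n, hy, Subset.rfl⟩⟩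

theorem ro_H (S : GenStr X F) (n : ℕ) (x : X) : RO S x (S.H n x) := by
  exact ⟨op_H S n x, fun m h => S.regular n m x h⟩

theorem op_cls (S : GenStr X F) (x : X) : Op S x {y | F x y} := by
  refine ⟨fun y hy => hy, fun y hy => ?_⟩
  obtain ⟨n, hn⟩ := S.cover x y hy
  exact ⟨n, hn, fun z hz => S.sub n x z hz⟩

theorem ro_cls (S : GenStr X F) (x : X) : RO S x {y | F x y} := by
  exact ⟨op_cls S x, fun m _ z hz => S.sub m x z hz⟩

theorem op_inter {S : GenStr X F} {x : X} {U V : Set X} (hU : Op S x U) (hV : Op S x V) :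
    Op S x (U ∩ V) := by
  refine ⟨fun y hy => hU.1 y hy.1, fun y hy => ?_⟩
  obtain ⟨n, hn, hnU⟩ := hU.2 y hy.1
  obtain ⟨m, hm, hmV⟩ := hV.2 y hy.2
  obtain ⟨k, hk, hs⟩ := S.inter x y n m hn hm
  exact ⟨k, hk, fun z hz => ⟨hnU (hs hz).1, hmV (hs hz).2⟩⟩

theorem ro_inter {S : GenStr X F} {x : X} {U V : Set X} (hU : RO S x U) (hV : RO S x V) :
    RO S x (U ∩ V) := by
  refine ⟨op_inter hU.1 hV.1, fun m hd z hz => ⟨?_, ?_⟩⟩
  · exact hU.2 m (dense_mono Subset.rfl inter_subset_left hd) hz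
  · exact hV.2 m (dense_mono Subset.rfl inter_subset_right hd) hz

theorem ro_of_dense {S : GenStr X F} {x : X} {O U : Set X} (hO : Op S x O) (hU : RO S x U)
    (h : DenseIn S x O U) : O ⊆ U := by
  intro y hy
  obtain ⟨n, hn, hnO⟩ := hO.2 y hy
  exact hU.2 n (dense_mono hnO Subset.rfl h) hn

theorem exists_e {S : GenStr X F} {x : X} {O : Set X} (hO : Op S x O) (h : O.Nonempty) :
    ∃ i, S.e i x ∈ O := by
  obtain ⟨y, hy⟩ := h
  obtain ⟨n, hn, hnO⟩ := hO.2 y hy
  obtain ⟨i, hi⟩ := S.dense n x y hn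
  exact ⟨i, hnO hi⟩

theorem incl {S : GenStr X F} {x : X} {O U : Set X} (hO : Op S x O) (hU : RO S x U)
    (h : ∀ i, S.e i x ∈ O → S.e i x ∈ U) : O ⊆ U := by
  refine ro_of_dense hO hU fun k z hz hs => ?_
  obtain ⟨i, hi⟩ := S.dense k x z hz
  exact ⟨S.e i x, hi, h i (hs hi)⟩

end Pool.Agent.H93.EO
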