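import Pool.Agent.H93.EO.G1
set_option autoImplicit false

/-!
# H93/EO/G2: the category quantifier

* `gen_true`: `openDense x univ` (with `n = m`, `z = y`) and `mono`.
* `gen_of`: `mono` from `gen_true` (the hypothesis of `mono` has `F x y`).
* `gen_and`: `nat` with the sequence `if n = 0 then P else Q`, then `mono`.
* `gen_and3`, `gen_imp_congr`: `gen_and`, `mono`.
* `baire_op`: for `y ∈ U` open take `n` with `y ∈ H n x ⊆ U` and use `baire` and `mono`.
* `gen_exists`: otherwise `gen x (z ∉ U)` by `mono`.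
* `gen_exists'`: the same with `gen` at another point `x'` of the class (`inv`).
* `gen_false`: `gen_exists` with `U = [x]` (needs `F x x`).
* `not_gen_exists`: if `¬ gen x P` then some `y` of the class has `¬ P y` (`gen_of`).
* `gen_op_dense`: `O` open in the class and dense there: `openDense x {n | H n x ⊆ O}`.
* `bp_nonmeager`: field `bp`: if there is no such `n, y` then `gen x (y ∉ A)`.
* `gen_iff_inv`: `inv` in both directions.
-/

namespace Pool.Agent.H93.EO

open Set

variable {X : Type} [MeasurableSpace X] {F : X → X → Prop}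

theorem gen_true (S : GenStr X F) (x : X) : S.gen x fun _ => True := by
  have h := S.openDense x univ fun m y hy => ⟨m, mem_univ _, y, hy, hy⟩
  exact S.mono x _ _ (fun _ _ _ => trivial) h

theorem gen_of {S : GenStr X F} {x : X} {P : X → Prop} (h : ∀ y, F x y → P y) : S.gen x P := by
  exact S.mono x _ _ (fun y hy _ => h y hy) (gen_true S x)

theorem gen_and {S : GenStr X F} {x : X} {P Q : X → Prop} (hP : S.gen x P) (hQ : S.gen x Q) :
    S.gen x fun y => P y ∧ Q y := by
  have h := S.nat x (fun n => if n = 0 then P else Q) (by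
    intro n
    by_cases hn : n = 0
    · rw [if_pos hn]
      exact hP
    · rw [if_neg hn]
      exact hQ)
  refine S.mono x _ _ (fun y _ hy => ?_) h
  have h0 := hy 0
  have h1 := hy 1
  rw [if_pos rfl] at h0
  rw [if_neg one_ne_zero] at h1
  exact ⟨h0, h1⟩

theorem gen_and3 {S : GenStr X F} {x : X} {P Q R : X → Prop} (hP : S.gen x P) (hQ : S.gen x Q)
    (hR : S.gen x R) : S.gen x fun y => P y ∧ Q y ∧ R y := by
  exact gen_and hP (gen_and hQ hR)

theorem gen_congr {S : GenStr X F} {x : X} {P Q : X → Prop} (h : ∀ y, F x y → (P y ↔ Q y)) :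
    S.gen x P ↔ S.gen x Q := by
  exact ⟨S.mono x _ _ fun y hy => (h y hy).1, S.mono x _ _ fun y hy => (h y hy).2⟩

theorem gen_iff_inv (hF : Equivalence F) {S : GenStr X F} {x x' : X} (hx : F x x')
    (P : X → Prop) : S.gen x P ↔ S.gen x' P := by
  exact ⟨S.inv x x' P hx, S.inv x' x P (hF.symm hx)⟩

theorem baire_op {S : GenStr X F} {x : X} {U : Set X} (hU : Op S x U) (h : U.Nonempty) :
    ¬ S.gen x fun z => z ∉ U := by
  intro hg
  obtain ⟨y, hy⟩ := h
  obtain ⟨n, hn, hsub⟩ := hU.2 y hy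
  exact S.baire x n y hn (S.mono x _ _ (fun z _ hz hzH => hz (hsub hzH)) hg)

theorem gen_exists {S : GenStr X F} {x : X} {P : X → Prop} (hP : S.gen x P) {U : Set X}
    (hU : Op S x U) (h : U.Nonempty) : ∃ z ∈ U, P z := by
  by_contra hcon
  exact baire_op hU h (S.mono x _ _ (fun z _ hz hzU => hcon ⟨z, hzU, hz⟩) hP)

theorem gen_exists' (hF : Equivalence F) {S : GenStr X F} {x x' : X} (hx : F x x')
    {P : X → Prop} (hP : S.gen x' P) {U : Set X} (hU : Op S x U) (h : U.Nonempty) :
    ∃ z ∈ U, P z := by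
  exact gen_exists (S.inv x' x P (hF.symm hx) hP) hU h

theorem gen_false (hF : Equivalence F) (S : GenStr X F) (x : X) : ¬ S.gen x fun _ => False := by
  intro h
  obtain ⟨n, hn⟩ := S.cover x x (hF.refl x)
  exact S.baire x n x hn (S.mono x _ _ (fun z _ hz => hz.elim) h)

theorem not_gen_exists {S : GenStr X F} {x : X} {P : X → Prop} (h : ¬ S.gen x P) :
    ∃ y, F x y ∧ ¬ P y := by
  by_contra hcon
  apply h
  apply gen_of
  intro y hy
  by_contra hP
  exact hcon ⟨y, hy, hP⟩

theorem gen_op_dense {S : GenStr X F} {x : X} {O : Set X} (hO : Op S x O)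
    (h : DenseIn S x {y | F x y} O) : S.gen x fun z => z ∈ O := by
  have h1 := S.openDense x {n | S.H n x ⊆ O} (by
    intro m y hy
    obtain ⟨w, hw, hwO⟩ := h m y hy (fun z hz => S.sub m x z hz)
    obtain ⟨n, hn, hsub⟩ := hO.2 w hwO
    exact ⟨n, hsub, w, hw, hn⟩)
  refine S.mono x _ _ (fun z _ hz => ?_) h1
  obtain ⟨n, hn, hzn⟩ := hz
  exact hn hzn

theorem bp_nonmeager {S : GenStr X F} {x : X} {A : Set X} (hA : MeasurableSet A)
    (h : ¬ S.gen x fun y => y ∉ A) :
    ∃ n y, y ∈ S.H n x ∧ S.gen x fun z => z ∈ S.H n x → z ∈ A := by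
  by_contra hcon
  apply h
  refine S.mono x _ _ (fun y _ hy hyA => ?_) (S.bp x A hA)
  obtain ⟨n, hn, hg⟩ := hy hyA
  exact hcon ⟨n, y, hn, hg⟩

end Pool.Agent.H93.EO
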