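import Pool.Agent.H93.EO.ClsTop
set_option autoImplicit false

/-!
# H93/EO/GenRes: residual sets of a metric space containing a class densely pull back to generic sets

`mem_residual_iff`: `A` contains the intersection of countably many open dense sets; by `nat`
(enumerate the countable family; if it is empty use `gen_of`) it is enough to treat `A` open and dense.
Let `N = {n | ∀ b : Cls M x, b.1 ∈ H n x → j b ∈ A}`. `openDense x N` gives
`gen x (z ∈ H n x for some n ∈ N)`, and `mono` the claim. The hypothesis of `openDense`: let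
`y ∈ H m x`. By `gY` and `gen_exists` there is `y' ∈ H m x` with `y' ∈ Y` (and `F x y'` by `sub`); let
`b0 : Cls M x` be this point. `cls_nhd` gives `ε`. As `A` is dense there is `w ∈ A` with
`dist (j b0) w < ε/2`; `A` is open: `δ` with `ball w δ ⊆ A`; as `range j` is dense there is
`b1` with `dist (j b1) w < min δ (ε/2)`: so `dist b0 b1 < ε` (isometry), `b1.1 ∈ H m x`, and
`j b1 ∈ A`. `j ⁻¹' A` is open in `Cls M x` and contains `b1`; `cls_open` gives `n ∈ N` with
`b1.1 ∈ H n x`.
-/

namespace Pool.Agent.H93.EO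

open Set Topology

variable {X : Type} [MeasurableSpace X] {F : X → X → Prop} {S : GenStr X F} {P : ℕ → Set X}

private theorem gr_open (hF : Equivalence F) (M : MetStr S P) (x : X) {K : Type} [MetricSpace K]
    {j : Cls M x → K} (hj : Isometry j) (hd : DenseRange j) {A : Set K}
    (hA : IsOpen A) (hA' : Dense A) : S.gen x fun y => ∀ h : y ∈ M.Y ∧ F x y, j ⟨y, h⟩ ∈ A := by
  have h1 : S.gen x fun z => ∃ n ∈ {n | ∀ b : Cls M x, b.1 ∈ S.H n x → j b ∈ A}, z ∈ S.H n x := by
    refine S.openDense x _ fun m y hy => ?_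
    obtain ⟨i, hi⟩ := M.cd m x y hy
    obtain ⟨ε, hε, h2⟩ := cls_nhd hF M x (y := cpt M x i) hi
    obtain ⟨w, hw, h3⟩ := Metric.dense_iff.1 hA' (j (cpt M x i)) (ε / 2) (by linarith)
    rw [Metric.mem_ball, dist_comm] at hw
    obtain ⟨δ, hδ, h4⟩ := Metric.isOpen_iff.1 hA w h3
    obtain ⟨b1, h5⟩ := Metric.denseRange_iff.1 hd w (min δ (ε / 2)) (lt_min hδ (by linarith))
    have h6 : dist (cpt M x i) b1 < ε := by
      rw [← hj.dist_eq]
      have := dist_triangle (j (cpt M x i)) w (j b1)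
      have := min_le_right δ (ε / 2)
      linarith
    have h7 : j b1 ∈ A := by
      apply h4
      rw [Metric.mem_ball, dist_comm]
      exact h5.trans_le (min_le_left _ _)
    obtain ⟨n, h8, h9⟩ := cls_open hF M x (hA.preimage hj.continuous) (y := b1) h7
    exact ⟨n, h9, b1.1, h2 b1 h6, h8⟩
  refine S.mono x _ _ ?_ h1
  rintro y _ ⟨n, hn, hy⟩ h
  exact hn ⟨y, h⟩ hy

theorem gen_residual (hF : Equivalence F) (M : MetStr S P) (x : X) {K : Type} [MetricSpace K]
    {j : Cls M x → K} (hj : Isometry j) (hd : DenseRange j) {A : Set K}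
    (hA : A ∈ residual K) : S.gen x fun y => ∀ h : y ∈ M.Y ∧ F x y, j ⟨y, h⟩ ∈ A := by
  obtain ⟨T, h1, h2, h3, h4⟩ := mem_residual_iff.1 hA
  obtain ⟨f, hf⟩ := (h3.insert univ).exists_eq_range (insert_nonempty univ T)
  have h5 : ∀ n, IsOpen (f n) ∧ Dense (f n) := by
    intro n
    have h6 : f n ∈ insert univ T := by
      rw [hf]
      exact mem_range_self n
    rcases mem_insert_iff.1 h6 with h7 | h7
    · rw [h7]
      exact ⟨isOpen_univ, dense_univ⟩
    · exact ⟨h1 _ h7, h2 _ h7⟩
  refine S.mono x _ _ ?_ (S.nat x (fun n y => ∀ h : y ∈ M.Y ∧ F x y, j ⟨y, h⟩ ∈ f n)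
    fun n => gr_open hF M x hj hd (h5 n).1 (h5 n).2)
  intro y _ hy h
  apply h4
  intro t ht
  have h6 : t ∈ insert univ T := mem_insert_of_mem _ ht
  rw [hf] at h6
  obtain ⟨n, rfl⟩ := h6
  exact hy n h

end Pool.Agent.H93.EO
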