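import Mathlib
set_option autoImplicit false

/-!
# H93/EO/IsoG: the isometry group and the space of `[0,1]`-valued 1-Lipschitz functions
(definitions; the instances are in `IsoTop`, `IsoPol`, `LipPol`, `LipAct`)
-/

namespace Pool.Agent.H93.EO

open Set Topology

/-- the group of isometries of `U` -/
def IsoG (U : Type) [MetricSpace U] : Type := U ≃ᵢ U

noncomputable instance (U : Type) [MetricSpace U] : Group (IsoG U) :=
  inferInstanceAs (Group (U ≃ᵢ U))

/-- the underlying isometry -/
def IsoG.iso {U : Type} [MetricSpace U] (g : IsoG U) : U ≃ᵢ U := g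

/-- application -/
def IsoG.app {U : Type} [MetricSpace U] (g : IsoG U) : U → U := fun u => g.iso u

/-- topology of pointwise convergence -/
instance (U : Type) [MetricSpace U] : TopologicalSpace (IsoG U) :=
  TopologicalSpace.induced (fun g : IsoG U => g.app) inferInstance

/-- 1-Lipschitz functions with values in `[0,1]`, topology of pointwise convergence -/
def LipF (U : Type) [MetricSpace U] : Type :=
  {h : U → ℝ // (∀ u v, |h u - h v| ≤ dist u v) ∧ ∀ u, 0 ≤ h u ∧ h u ≤ 1}

instance (U : Type) [MetricSpace U] : TopologicalSpace (LipF U) :=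
  inferInstanceAs (TopologicalSpace {h : U → ℝ // (∀ u v, |h u - h v| ≤ dist u v) ∧
    ∀ u, 0 ≤ h u ∧ h u ≤ 1})

theorem IsoG.dist_app {U : Type} [MetricSpace U] (g : IsoG U) (u v : U) :
    dist (g.app u) (g.app v) = dist u v :=
  IsometryEquiv.dist_eq g.iso u v

@[simp] theorem IsoG.mul_app {U : Type} [MetricSpace U] (g h : IsoG U) (u : U) :
    (g * h).app u = g.app (h.app u) := by
  show (g.iso * h.iso) u = _
  rw [IsometryEquiv.coe_mul]
  rfl

@[simp] theorem IsoG.one_app {U : Type} [MetricSpace U] (u : U) :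
    (1 : IsoG U).app u = u := by
  show (1 : U ≃ᵢ U) u = u
  rw [IsometryEquiv.coe_one, id]

@[simp] theorem IsoG.inv_app_app {U : Type} [MetricSpace U] (g : IsoG U) (u : U) :
    g⁻¹.app (g.app u) = u := by
  have := IsoG.mul_app g⁻¹ g u
  rw [inv_mul_cancel] at this
  simpa using this.symm

@[simp] theorem IsoG.app_inv_app {U : Type} [MetricSpace U] (g : IsoG U) (u : U) :
    g.app (g⁻¹.app u) = u := by
  have := IsoG.mul_app g g⁻¹ u
  rw [mul_inv_cancel] at this
  simpa using this.symm

/-- `(g • h) u = h (g⁻¹ u)` -/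
noncomputable instance (U : Type) [MetricSpace U] : MulAction (IsoG U) (LipF U) where
  smul g h := ⟨fun u => h.1 (g⁻¹.app u),
    fun u v => by
      have := h.2.1 (g⁻¹.app u) (g⁻¹.app v)
      rwa [IsoG.dist_app] at this,
    fun u => h.2.2 _⟩
  one_smul h := by
    apply Subtype.ext
    funext u
    show h.1 ((1 : IsoG U)⁻¹.app u) = h.1 u
    rw [inv_one, IsoG.one_app]
  mul_smul g k h := by
    apply Subtype.ext
    funext u
    show h.1 ((g * k)⁻¹.app u) = h.1 (k⁻¹.app (g⁻¹.app u))
    rw [mul_inv_rev, IsoG.mul_app]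

theorem smul_val {U : Type} [MetricSpace U] (g : IsoG U) (h : LipF U) (u : U) :
    (g • h).1 u = h.1 (g⁻¹.app u) := rfl

end Pool.Agent.H93.EO
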