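import Pool.Agent.H93.EO.IsoG
set_option autoImplicit false

/-!
# H93/EO/IsoTop: the isometry group is a topological group

A map `φ : S → IsoG U` is continuous iff `s ↦ (φ s).app u` is continuous for every `u`
(`continuous_induced_rng`, `continuous_pi_iff`). In particular `continuous_app`.
* Multiplication: at `(g0,h0)`, for fixed `u`:
  `dist (g (h u)) (g0 (h0 u)) <= dist (g (h u)) (g (h0 u)) + dist (g (h0 u)) (g0 (h0 u))
   = dist (h u) (h0 u) + dist (g (h0 u)) (g0 (h0 u))`, both terms tend to `0`.
* Inverse: `dist (g⁻¹ u) (g0⁻¹ u) = dist u (g (g0⁻¹ u)) = dist (g0 v) (g v)` with `v = g0⁻¹ u`.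
-/

namespace Pool.Agent.H93.EO

open Set Topology

theorem continuous_iso_iff {U S : Type} [MetricSpace U] [TopologicalSpace S] (φ : S → IsoG U) :
    Continuous φ ↔ ∀ u, Continuous fun s => (φ s).app u :=
  continuous_induced_rng.trans continuous_pi_iff

theorem continuous_app {U : Type} [MetricSpace U] (u : U) :
    Continuous fun g : IsoG U => g.app u :=
  (continuous_iso_iff (fun g : IsoG U => g)).1 continuous_id u

instance topGroup_isoG (U : Type) [MetricSpace U] : IsTopologicalGroup (IsoG U) where
  continuous_mul := by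
    rw [continuous_iso_iff]
    intro u
    rw [continuous_iff_continuousAt]
    rintro ⟨g0, h0⟩
    rw [ContinuousAt, tendsto_iff_dist_tendsto_zero]
    have h1 : Filter.Tendsto (fun p : IsoG U × IsoG U => dist (p.2.app u) (h0.app u) +
        dist (p.1.app (h0.app u)) (g0.app (h0.app u))) (𝓝 (g0, h0)) (𝓝 0) := by
      have ha : Filter.Tendsto (fun p : IsoG U × IsoG U => dist (p.2.app u) (h0.app u))
          (𝓝 (g0, h0)) (𝓝 0) :=
        tendsto_iff_dist_tendsto_zero.1
          (((continuous_app u).comp continuous_snd).tendsto (g0, h0))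
      have hb : Filter.Tendsto (fun p : IsoG U × IsoG U =>
          dist (p.1.app (h0.app u)) (g0.app (h0.app u))) (𝓝 (g0, h0)) (𝓝 0) :=
        tendsto_iff_dist_tendsto_zero.1
          (((continuous_app (h0.app u)).comp continuous_fst).tendsto (g0, h0))
      simpa using ha.add hb
    refine squeeze_zero (fun _ => dist_nonneg) (fun p => ?_) h1
    rw [IsoG.mul_app, IsoG.mul_app]
    refine (dist_triangle _ (p.1.app (h0.app u)) _).trans (le_of_eq ?_)
    rw [IsoG.dist_app]
  continuous_inv := by
    rw [continuous_iso_iff]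
    intro u
    rw [continuous_iff_continuousAt]
    intro g0
    rw [ContinuousAt, tendsto_iff_dist_tendsto_zero]
    have h1 : Filter.Tendsto (fun g : IsoG U => dist (g.app (g0⁻¹.app u)) (g0.app (g0⁻¹.app u)))
        (𝓝 g0) (𝓝 0) :=
      tendsto_iff_dist_tendsto_zero.1 ((continuous_app (g0⁻¹.app u)).tendsto g0)
    refine squeeze_zero (fun _ => dist_nonneg) (fun g => ?_) h1
    rw [IsoG.app_inv_app, dist_comm (g.app _) u, ← IsoG.dist_app g (g⁻¹.app u), IsoG.app_inv_app]

end Pool.Agent.H93.EO
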