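import Pool.Agent.H93.EO.Def3
set_option autoImplicit false

/-!
# H93/EO/KFa: `kf d L` is a Katetov function

All by induction on the list `L` (`up`, `lo` are defined by recursion), with `d` symmetric,
`0 <= d <= 1`, triangle inequality.

* `up_le_one`, `up_nonneg`, `lo_nonneg`, `lo_le_one` : obvious inductions.
* `up_lip` : `up d L x <= d x y + up d L y`. Nil: `1 <= d x y + 1`. Cons: the minimum on the right
  is attained; if it is `|q| + d a y` then `|q| + d a x <= d x y + (|q| + d a y)`, otherwise the
  induction hypothesis. (Use `min_add_add_left`/`le_min_iff`/`min_le_iff`.)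
* `lo_lip` : `lo d L x <= d x y + lo d L y`, the same with `max`: `d a x - |q| <= d x y + (d a y - |q|)`.
* `le_up_add_lo` : `d x y <= up d L x + lo d L y`. Induction on `L`. Nil: `d x y <= 1 + 0`.
  Cons `(a,q)`: if `up = |q| + d a x` then `lo` of `y` is at least `d a y - |q|` and
  `(|q| + d a x) + (d a y - |q|) = d a x + d a y >= d x y`; otherwise `up d (p :: L) x = up d L x`
  and `lo d (p :: L) y >= lo d L y`, induction hypothesis.
* `kf_kat` : `0 <= up <= kf`, `kf <= 1`; Lipschitz from the two Lipschitz estimates (`abs_le`,
  `max_le_iff`); `d a b <= up a + lo b <= kf a + kf b`.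
-/

namespace Pool.Agent.H93.EO

open Set Topology

variable {A : Type} {d : A → A → ℝ}

theorem up_le_one (L : List (A × ℚ)) (x : A) : up d L x ≤ 1 := by
  induction L with
  | nil => simp [up]
  | cons p L ih => simp only [up]; exact le_trans (min_le_right _ _) ih

theorem up_nonneg (h : IsPM d) (L : List (A × ℚ)) (x : A) : 0 ≤ up d L x := by
  induction L with
  | nil => simp [up]
  | cons p L ih =>
    simp only [up]
    exact le_min (add_nonneg (abs_nonneg _) (h.nonneg _ _)) ih

theorem lo_nonneg (L : List (A × ℚ)) (x : A) : 0 ≤ lo d L x := by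
  induction L with
  | nil => simp [lo]
  | cons p L ih => simp only [lo]; exact le_trans ih (le_max_right _ _)

theorem lo_le_one (h : IsPM d) (L : List (A × ℚ)) (x : A) : lo d L x ≤ 1 := by
  induction L with
  | nil => simp [lo]
  | cons p L ih =>
    simp only [lo]
    refine max_le ?_ ih
    have h1 := h.le_one p.1 x
    have h2 := abs_nonneg (p.2 : ℝ)
    linarith

theorem up_lip (h : IsPM d) (L : List (A × ℚ)) (x y : A) : up d L x ≤ d x y + up d L y := by
  induction L with
  | nil => simp only [up]; linarith [h.nonneg x y]
  | cons p L ih =>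
    simp only [up]
    rw [← min_add_add_left]
    refine le_min ?_ ?_
    · refine le_trans (min_le_left _ _) ?_
      have h1 := h.tri p.1 y x
      have h2 := h.symm x y
      linarith
    · exact le_trans (min_le_right _ _) ih

theorem lo_lip (h : IsPM d) (L : List (A × ℚ)) (x y : A) : lo d L x ≤ d x y + lo d L y := by
  induction L with
  | nil => simp only [lo]; linarith [h.nonneg x y]
  | cons p L ih =>
    simp only [lo]
    rw [← max_add_add_left]
    refine max_le ?_ ?_
    · refine le_trans ?_ (le_max_left _ _)
      have h1 := h.tri p.1 y x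
      have h2 := h.symm x y
      linarith
    · exact le_trans ih (le_max_right _ _)

theorem le_up_add_lo (h : IsPM d) (L : List (A × ℚ)) (x y : A) :
    d x y ≤ up d L x + lo d L y := by
  induction L with
  | nil => simp only [up, lo]; linarith [h.le_one x y]
  | cons p L ih =>
    simp only [up, lo]
    rcases min_choice (|(p.2 : ℝ)| + d p.1 x) (up d L x) with h1 | h1
    · rw [h1]
      have h2 : d p.1 y - |(p.2 : ℝ)| ≤ max (d p.1 y - |(p.2 : ℝ)|) (lo d L y) := le_max_left _ _
      have h3 := h.tri x p.1 y
      have h4 := h.symm x p.1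
      linarith
    · rw [h1]
      have h2 : lo d L y ≤ max (d p.1 y - |(p.2 : ℝ)|) (lo d L y) := le_max_right _ _
      linarith

theorem kf_kat (h : IsPM d) (L : List (A × ℚ)) : Kat d univ (kf d L) := by
  have key : ∀ x y, kf d L x ≤ d x y + kf d L y := by
    intro x y
    unfold kf
    rw [← max_add_add_left]
    exact max_le_max (up_lip h L x y) (lo_lip h L x y)
  refine ⟨fun a _ => ⟨?_, ?_⟩, fun a _ b _ => ⟨?_, ?_⟩⟩
  · exact le_trans (up_nonneg h L a) (le_max_left _ _)
  · exact max_le (up_le_one L a) (lo_le_one h L a)
  · rw [abs_le]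
    have h1 := key a b
    have h2 := key b a
    have h3 := h.symm a b
    constructor <;> linarith
  · have h1 := le_up_add_lo h L a b
    have h2 : up d L a ≤ kf d L a := le_max_left _ _
    have h3 : lo d L b ≤ kf d L b := le_max_right _ _
    linarith

end Pool.Agent.H93.EO
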