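import Pool.Agent.H93.EO.KFa
set_option autoImplicit false

/-!
# H93/EO/KFb: values, stability and naturality of `kf`

* `kf_approx`. `f` Katetov on the finite set `S`, the data `L` are points `a` of `S` with rational
  values `q`, `0 <= q`, `|q - f a| <= δ`, and every `a` in `S` occurs. Then `|kf d L a - f a| <= δ`
  for `a` in `S`. Proof: fix `a` in `S`. Upper bound: `(a,q)` occurs in `L`, so
  `up d L a <= |q| + d a a = q <= f a + δ` (lemma: `p ∈ L -> up d L x <= |p.2| + d p.1 x`,
  induction); and `lo d L a <= f a + δ`: for `(b,q)` in `L`, `d b a - |q| = d b a - q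
  <= (f b + f a) - (f b - δ) = f a + δ`, and `0 <= f a + δ` (lemma: `lo <= c` if `0 <= c` and all
  `d b a - |q| <= c`). Lower bound: `kf >= up >= f a - δ`, because `1 >= f a - δ` and for `(b,q)`
  in `L`: `|q| + d b a >= (f b - δ) + (f a - f b)` (lemma: `c <= up` if `c <= 1` and all
  `c <= |q| + d b a`). Note `0 <= δ` is given.
* `kf_stab`. If `L` and `L'` have the same rational values and points at distance `<= ε`
  (`List.Forall₂`), then `|kf d L x - kf d L' x| <= ε`. Induction on `Forall₂`: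
  `|min a b - min a' b'| <= max |a-a'| |b-b'|` and the same for `max`
  (`abs_min_sub_min_le_max`, `abs_max_sub_max_le_max`), and `|d a x - d a' x| <= d a a'`.
* `kf_map`. `kf dB (L.map (i, id)) (i x) = kf dA L x` when `dB (i x) (i y) = dA x y`.
  Induction on `L` for `up` and `lo`.
-/

namespace Pool.Agent.H93.EO

open Set Topology

theorem up_le_of_mem {A : Type} {d : A → A → ℝ} (L : List (A × ℚ)) (x : A) (p : A × ℚ)
    (hp : p ∈ L) : up d L x ≤ |(p.2 : ℝ)| + d p.1 x := by
  induction L with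
  | nil => simp at hp
  | cons q L ih =>
    simp only [up]
    rcases List.mem_cons.1 hp with rfl | h1
    · exact min_le_left _ _
    · exact le_trans (min_le_right _ _) (ih h1)

theorem lo_le_of {A : Type} {d : A → A → ℝ} (L : List (A × ℚ)) (x : A) (c : ℝ) (hc : 0 ≤ c)
    (h : ∀ p ∈ L, d p.1 x - |(p.2 : ℝ)| ≤ c) : lo d L x ≤ c := by
  induction L with
  | nil => simpa only [lo] using hc
  | cons q L ih =>
    simp only [lo]
    exact max_le (h q (by simp)) (ih fun p hp => h p (by simp [hp]))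

theorem le_up_of {A : Type} {d : A → A → ℝ} (L : List (A × ℚ)) (x : A) (c : ℝ) (hc : c ≤ 1)
    (h : ∀ p ∈ L, c ≤ |(p.2 : ℝ)| + d p.1 x) : c ≤ up d L x := by
  induction L with
  | nil => simpa only [up] using hc
  | cons q L ih =>
    simp only [up]
    exact le_min (h q (by simp)) (ih fun p hp => h p (by simp [hp]))

theorem kf_approx {A : Type} {d : A → A → ℝ} (h : IsPM d) (S : List A) (f : A → ℝ)
    (hf : Kat d {a | a ∈ S} f) (δ : ℝ) (hδ : 0 ≤ δ) (L : List (A × ℚ))
    (hL : ∀ p ∈ L, p.1 ∈ S ∧ |(p.2 : ℝ) - f p.1| ≤ δ ∧ 0 ≤ p.2)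
    (hS : ∀ a ∈ S, ∃ p ∈ L, p.1 = a) : ∀ a ∈ S, |kf d L a - f a| ≤ δ := by
  intro a ha
  obtain ⟨hf1, hf2⟩ := hf
  have ha1 := hf1 a ha
  have hup : up d L a ≤ f a + δ := by
    obtain ⟨p, hp, rfl⟩ := hS a ha
    have h1 := up_le_of_mem (d := d) L p.1 p hp
    have h2 := hL p hp
    have h3 := abs_le.1 h2.2.1
    have h4 : (0 : ℝ) ≤ (p.2 : ℝ) := by exact_mod_cast h2.2.2
    rw [abs_of_nonneg h4, h.self] at h1
    linarith [h3.2]
  have hlo : lo d L a ≤ f a + δ := by
    refine lo_le_of L a _ (by linarith [ha1.1]) ?_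
    intro p hp
    have h2 := hL p hp
    have h3 := abs_le.1 h2.2.1
    have h4 : (0 : ℝ) ≤ (p.2 : ℝ) := by exact_mod_cast h2.2.2
    rw [abs_of_nonneg h4]
    have h5 := (hf2 p.1 h2.1 a ha).2
    linarith [h3.1]
  have hlow : f a - δ ≤ up d L a := by
    refine le_up_of L a _ (by linarith [ha1.2]) ?_
    intro p hp
    have h2 := hL p hp
    have h3 := abs_le.1 h2.2.1
    have h4 : (0 : ℝ) ≤ (p.2 : ℝ) := by exact_mod_cast h2.2.2
    rw [abs_of_nonneg h4]
    have h5 := abs_le.1 (hf2 p.1 h2.1 a ha).1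
    linarith [h3.1, h5.1]
  have h6 : up d L a ≤ kf d L a := le_max_left _ _
  have h7 : kf d L a ≤ f a + δ := max_le hup hlo
  rw [abs_le]
  constructor <;> linarith

theorem kf_stab {A : Type} {d : A → A → ℝ} (h : IsPM d) (ε : ℝ) (hε : 0 ≤ ε)
    (L L' : List (A × ℚ))
    (hL : List.Forall₂ (fun p q : A × ℚ => d p.1 q.1 ≤ ε ∧ p.2 = q.2) L L') (x : A) :
    |kf d L x - kf d L' x| ≤ ε := by
  have hd : ∀ a b : A, d a b ≤ ε → |d a x - d b x| ≤ ε := by
    intro a b hab
    have h1 := h.tri a b x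
    have h2 := h.tri b a x
    have h3 := h.symm a b
    rw [abs_le]
    constructor <;> linarith
  have hup : |up d L x - up d L' x| ≤ ε := by
    induction hL with
    | nil => simpa [up] using hε
    | cons h1 _ ih =>
      simp only [up]
      refine le_trans (abs_min_sub_min_le_max _ _ _ _) (max_le ?_ ih)
      rw [h1.2, add_sub_add_left_eq_sub]
      exact hd _ _ h1.1
  have hlo : |lo d L x - lo d L' x| ≤ ε := by
    clear hup
    induction hL with
    | nil => simpa [lo] using hε
    | cons h1 _ ih =>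
      simp only [lo]
      refine le_trans (abs_max_sub_max_le_max _ _ _ _) (max_le ?_ ih)
      rw [h1.2, sub_sub_sub_cancel_right]
      exact hd _ _ h1.1
  exact le_trans (abs_max_sub_max_le_max _ _ _ _) (max_le hup hlo)

theorem kf_map {A B : Type} {dA : A → A → ℝ} {dB : B → B → ℝ} (i : A → B)
    (hi : ∀ x y, dB (i x) (i y) = dA x y) (L : List (A × ℚ)) (x : A) :
    kf dB (L.map fun p => (i p.1, p.2)) (i x) = kf dA L x := by
  have hup : up dB (L.map fun p => (i p.1, p.2)) (i x) = up dA L x := by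
    induction L with
    | nil => simp [up]
    | cons p L ih => simp only [List.map_cons, up, hi, ih]
  have hlo : lo dB (L.map fun p => (i p.1, p.2)) (i x) = lo dA L x := by
    clear hup
    induction L with
    | nil => simp [lo]
    | cons p L ih => simp only [List.map_cons, lo, hi, ih]
  unfold kf
  rw [hup, hlo]

end Pool.Agent.H93.EO
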