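import Pool.Agent.H93.EO.VL
set_option autoImplicit false

/-!
# H93/EO/StepMeas: measurability of one step

* `mQ`: `{z | Q S L k z}` is measurable: the field `cq` with `P = X`, `π = id` and
  `A z y := y ∈ V k z → y ∈ L.D ∧ V k z ⊆ L.W y`. The set `{q : X × X | A q.1 q.2}` equals
  `{q | q.2 ∈ V k q.1 → q.2 ∈ L.D ∧ ∀ i, e i q.1 ∈ V k q.1 → e i q.1 ∈ L.W q.2}`: for
  `y ∈ V k z` (so `F z y`) we have by `incl` (at `z`: `V_ro`, and `RO S z (L.W y)` by `hL.ro y`,
  `ro_inv`): `V k z ⊆ L.W y ↔ ∀ i, e i z ∈ V k z → e i z ∈ L.W y`. This set is measurable: `mV`,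
  `hL.mD`, preimage of `mV` under `q ↦ (q.1, e i q.1)`, preimage of `hL.mW` under
  `q ↦ (q.2, e i q.1)`.
* `mstepD`: `(step S m L).D = L.D ∩ ⋃ k, {z | m ≤ k ∧ Q S L k z}`.
* `mstepW`: `{p | p.2 ∈ V (sInf {k | m ≤ k ∧ Q S L k p.1}) p.1} =
  ⋃ k, ({p | sInf {..} = k} ∩ {p | p.2 ∈ V k p.1})`. The set `{z | sInf {k | m ≤ k ∧ Q S L k z} = k}`
  is measurable: `z ↦ sInf ..` is a measurable function to `ℕ`: it equals `k` iff (`m ≤ k ∧ Q k z` and
  no `j < k` has `m ≤ j ∧ Q j z`) or (`k = 0` and no `j` has `m ≤ j ∧ Q j z`).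
-/

namespace Pool.Agent.H93.EO

open Set

variable {X : Type} [MeasurableSpace X] {F : X → X → Prop}

theorem mQ [StandardBorelSpace X] (hF : Equivalence F)
    (mF : MeasurableSet {p : X × X | F p.1 p.2}) {S : GenStr X F} {L : Lev X} (hL : Good S L)
    (k : ℕ) : MeasurableSet {z | Q S L k z} := by
  have key : ∀ q : X × X, (q.2 ∈ V S k q.1 → q.2 ∈ L.D ∧ V S k q.1 ⊆ L.W q.2) ↔
      (q.2 ∈ V S k q.1 → q.2 ∈ L.D ∧ ∀ i, S.e i q.1 ∈ V S k q.1 → S.e i q.1 ∈ L.W q.2) := by
    rintro ⟨z, y⟩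
    constructor
    · intro h hy
      exact ⟨(h hy).1, fun i hi => (h hy).2 hi⟩
    · intro h hy
      refine ⟨(h hy).1, ?_⟩
      have hzy : F z y := V_F hy
      exact incl (V_ro S k z).1 (ro_inv hF (hF.symm hzy) (hL.ro y)) (h hy).2
  have hmeas : Measurable fun q : X × X =>
      (q.2 ∈ V S k q.1 → q.2 ∈ L.D ∧ ∀ i, S.e i q.1 ∈ V S k q.1 → S.e i q.1 ∈ L.W q.2) := by
    refine Measurable.imp (measurableSet_setOfPred.mp (mV mF S k))
      (Measurable.and (measurableSet_setOfPred.mp (measurable_snd hL.mD))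
        (Measurable.forall fun i => Measurable.imp ?_ ?_))
    · have h1 : Measurable fun q : X × X => ((q.1, S.e i q.1) : X × X) :=
        measurable_fst.prodMk ((S.me i).comp measurable_fst)
      exact measurableSet_setOfPred.mp (h1 (mV mF S k))
    · have h1 : Measurable fun q : X × X => ((q.2, S.e i q.1) : X × X) :=
        measurable_snd.prodMk ((S.me i).comp measurable_fst)
      exact measurableSet_setOfPred.mp (h1 hL.mW)
  have hA : MeasurableSet {q : X × X | q.2 ∈ V S k q.1 → q.2 ∈ L.D ∧ V S k q.1 ⊆ L.W q.2} := by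
    have := measurableSet_setOfPred.mpr hmeas
    convert this using 1
    ext q
    exact key q
  exact S.cq X id measurable_id
    (fun z y => y ∈ V S k z → y ∈ L.D ∧ V S k z ⊆ L.W y) hA

theorem mstepD [StandardBorelSpace X] (hF : Equivalence F)
    (mF : MeasurableSet {p : X × X | F p.1 p.2}) {S : GenStr X F} {L : Lev X} (hL : Good S L)
    (m : ℕ) : MeasurableSet (step S m L).D := by
  have h1 : (step S m L).D = L.D ∩ ⋃ k, {z | m ≤ k ∧ Q S L k z} := by
    ext z
    simp [step]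
  rw [h1]
  refine hL.mD.inter (MeasurableSet.iUnion fun k => ?_)
  by_cases hk : m ≤ k
  · have : {z | m ≤ k ∧ Q S L k z} = {z | Q S L k z} := by ext z; simp [hk]
    rw [this]
    exact mQ hF mF hL k
  · have : {z | m ≤ k ∧ Q S L k z} = ∅ := by ext z; simp [hk]
    rw [this]
    exact MeasurableSet.empty

theorem sInf_eq_iff' (s : Set ℕ) (k : ℕ) :
    sInf s = k ↔ (k ∈ s ∧ ∀ j < k, j ∉ s) ∨ (k = 0 ∧ ∀ j, j ∉ s) := by
  constructor
  · intro h
    by_cases hs : s.Nonempty
    · left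
      subst h
      exact ⟨Nat.sInf_mem hs, fun j hj => Nat.notMem_of_lt_sInf hj⟩
    · right
      rw [not_nonempty_iff_eq_empty] at hs
      subst hs
      simp at h
      exact ⟨h.symm, fun j => by simp⟩
  · rintro (⟨h1, h2⟩ | ⟨h1, h2⟩)
    · refine le_antisymm (Nat.sInf_le h1) ?_
      by_contra hlt
      push Not at hlt
      exact h2 _ hlt (Nat.sInf_mem ⟨k, h1⟩)
    · have : s = ∅ := by
        ext j
        simpa using h2 j
      rw [this, h1]
      simp

theorem mstepW [StandardBorelSpace X] (hF : Equivalence F)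
    (mF : MeasurableSet {p : X × X | F p.1 p.2}) {S : GenStr X F} {L : Lev X} (hL : Good S L)
    (m : ℕ) : MeasurableSet {p : X × X | p.2 ∈ (step S m L).W p.1} := by
  have hQ : ∀ k, Measurable fun z => (m ≤ k ∧ Q S L k z) := fun k =>
    Measurable.and measurable_const (measurableSet_setOfPred.mp (mQ hF mF hL k))
  have hφ : ∀ k, MeasurableSet {z | sInf {k | m ≤ k ∧ Q S L k z} = k} := by
    intro k
    have h1 : {z | sInf {k | m ≤ k ∧ Q S L k z} = k} =
        {z | ((m ≤ k ∧ Q S L k z) ∧ ∀ j, j < k → ¬ (m ≤ j ∧ Q S L j z)) ∨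
          (k = 0 ∧ ∀ j, ¬ (m ≤ j ∧ Q S L j z))} := by
      ext z
      exact sInf_eq_iff' {k | m ≤ k ∧ Q S L k z} k
    rw [h1]
    refine measurableSet_setOfPred.mpr (Measurable.or (Measurable.and (hQ k)
      (Measurable.forall fun j => Measurable.imp measurable_const (hQ j).not))
      (Measurable.and measurable_const (Measurable.forall fun j => (hQ j).not)))
  have h2 : {p : X × X | p.2 ∈ (step S m L).W p.1} =
      ⋃ k, ({p : X × X | sInf {k | m ≤ k ∧ Q S L k p.1} = k} ∩ {p | p.2 ∈ V S k p.1}) := by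
    ext p
    simp [step]
  rw [h2]
  exact MeasurableSet.iUnion fun k => (measurable_fst (hφ k)).inter (mV mF S k)

end Pool.Agent.H93.EO
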