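import Pool.Agent.H93.EO.StepGen
import Pool.Agent.H93.EO.StepMeas
set_option autoImplicit false

/-!
# H93/EO/Levs: the levels

* `lev_good`: induction: `good_zero`; step: `self` is `V_self`, `ro` is `V_ro`, `mD` is `mstepD`,
  `mW` is `mstepW`, `gD` is `step_gen`.
* `lev_F`: `y ∈ (lev m).W z` implies `F z y` (`(ro).1.1`).
* `lev_op`: `(lev m).W z` is open at every related point (`ro`, `op_inv`).
* `lev_spec`: for `z ∈ (lev (m+1)).D` the set `{k | m ≤ k ∧ Q S (lev m) k z}` is nonempty, its least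
  element `k` satisfies `Q` and `m ≤ k` (`Nat.sInf_mem`), and `(lev (m+1)).W z = V k z ⊆ V m z`
  (`V_anti`).
* `lev_exists`: combination used everywhere: if `z ∈ (lev (m+1)).D` and `O` is open in the class with
  `O ∩ (lev (m+1)).W z` nonempty and `gen z P`, then there is `y` in
  `O ∩ (lev (m+1)).W z` with `P y`, `y ∈ (lev m).D`, `(lev (m+1)).W z ⊆ (lev m).W y`
  (`gen_exists` with `gen_and`).
* `lev_nonmeager`: `z ∈ (lev (m+1)).D`, `O` open, `O ∩ (lev (m+1)).W z` nonempty, then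
  `¬ gen z (y ↦ ¬ (y ∈ O ∧ y ∈ (lev m).D ∧ (lev (m+1)).W z ⊆ (lev m).W y))`: otherwise
  `gen_exists` gives a contradiction.
-/

namespace Pool.Agent.H93.EO

open Set

variable {X : Type} [MeasurableSpace X] {F : X → X → Prop}

theorem lev_good [StandardBorelSpace X] (hF : Equivalence F)
    (mF : MeasurableSet {p : X × X | F p.1 p.2}) (S : GenStr X F) (m : ℕ) :
    Good S (lev S m) := by
  induction m with
  | zero => exact good_zero hF mF S
  | succ m ih =>
    exact ⟨fun z _ => V_self hF S _ z, fun z => V_ro S _ z, mstepD hF mF ih m,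
      mstepW hF mF ih m, fun x => step_gen hF ih m x⟩

theorem lev_F [StandardBorelSpace X] (hF : Equivalence F)
    (mF : MeasurableSet {p : X × X | F p.1 p.2}) (S : GenStr X F) (m : ℕ) {z y : X}
    (h : y ∈ (lev S m).W z) : F z y :=
  ((lev_good hF mF S m).ro z).1.1 y h

theorem lev_op [StandardBorelSpace X] (hF : Equivalence F)
    (mF : MeasurableSet {p : X × X | F p.1 p.2}) (S : GenStr X F) (m : ℕ) {x z : X}
    (h : F x z) : Op S x ((lev S m).W z) :=
  op_inv hF (hF.symm h) ((lev_good hF mF S m).ro z).1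

theorem lev_spec {S : GenStr X F} {m : ℕ} {z : X} (h : z ∈ (lev S (m + 1)).D) :
    z ∈ (lev S m).D ∧ (lev S (m + 1)).W z ⊆ V S m z ∧
      S.gen z fun y => y ∈ (lev S (m + 1)).W z →
        y ∈ (lev S m).D ∧ (lev S (m + 1)).W z ⊆ (lev S m).W y := by
  obtain ⟨h1, h2⟩ : z ∈ (lev S m).D ∧ ∃ k, m ≤ k ∧ Q S (lev S m) k z := h
  have h3 : sInf {k | m ≤ k ∧ Q S (lev S m) k z} ∈ {k | m ≤ k ∧ Q S (lev S m) k z} :=
    Nat.sInf_mem h2
  exact ⟨h1, V_anti S h3.1 z, h3.2⟩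

theorem lev_exists [StandardBorelSpace X] (hF : Equivalence F)
    (mF : MeasurableSet {p : X × X | F p.1 p.2}) {S : GenStr X F} {m : ℕ} {z : X}
    (h : z ∈ (lev S (m + 1)).D) {O : Set X} (hO : Op S z O)
    (hn : (O ∩ (lev S (m + 1)).W z).Nonempty) {P : X → Prop} (hP : S.gen z P) :
    ∃ y, y ∈ O ∧ y ∈ (lev S (m + 1)).W z ∧ P y ∧ y ∈ (lev S m).D ∧
      (lev S (m + 1)).W z ⊆ (lev S m).W y := by
  obtain ⟨y, ⟨h1, h2⟩, h3, h4⟩ := gen_exists (gen_and hP (lev_spec h).2.2)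
    (op_inter hO (lev_op hF mF S (m + 1) (hF.refl z))) hn
  exact ⟨y, h1, h2, h3, h4 h2⟩

theorem lev_nonmeager [StandardBorelSpace X] (hF : Equivalence F)
    (mF : MeasurableSet {p : X × X | F p.1 p.2}) {S : GenStr X F} {m : ℕ} {z : X}
    (h : z ∈ (lev S (m + 1)).D) {O : Set X} (hO : Op S z O)
    (hn : (O ∩ (lev S (m + 1)).W z).Nonempty) :
    ¬ S.gen z fun y => ¬ (y ∈ O ∧ y ∈ (lev S m).D ∧
      (lev S (m + 1)).W z ⊆ (lev S m).W y) := by
  intro hg
  obtain ⟨y, h1, _, h3, h4, h5⟩ := lev_exists hF mF h hO hn hg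
  exact h3 ⟨h1, h4, h5⟩

end Pool.Agent.H93.EO
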