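import Pool.Agent.H93.EO.IsoG
set_option autoImplicit false

/-!
# H93/EO/LipPol: the space of 1-Lipschitz functions is Polish; measurability criterion

`s ⊆ U` countable and dense. `J : LipF U → (s → ℝ)`, `J h = (h x)_x` is continuous and injective and
`LipF U` is compact (Tychonoff), so `J` is a closed embedding.
Measurability: for `f : Ω → LipF U` with all `ω ↦ (f ω).1 u` measurable: `J ∘ f` is measurable
(`measurable_pi_iff`), and `J` is a measurable embedding, hence `f` is measurable.
-/

namespace Pool.Agent.H93.EO

open Set Topology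

theorem isClosed_lipCond (U : Type) [MetricSpace U] :
    IsClosed {h : U → ℝ | (∀ u v, |h u - h v| ≤ dist u v) ∧ ∀ u, 0 ≤ h u ∧ h u ≤ 1} := by
  have h1 : IsClosed {h : U → ℝ | ∀ u v, |h u - h v| ≤ dist u v} := by
    have : {h : U → ℝ | ∀ u v, |h u - h v| ≤ dist u v}
        = ⋂ u, ⋂ v, {h : U → ℝ | |h u - h v| ≤ dist u v} := by
      ext h; simp
    rw [this]
    refine isClosed_iInter fun u => isClosed_iInter fun v => ?_
    exact isClosed_le (by fun_prop) continuous_const
  have h2 : IsClosed {h : U → ℝ | ∀ u, 0 ≤ h u ∧ h u ≤ 1} := by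
    have : {h : U → ℝ | ∀ u, 0 ≤ h u ∧ h u ≤ 1}
        = ⋂ u, ({h : U → ℝ | 0 ≤ h u} ∩ {h : U → ℝ | h u ≤ 1}) := by
      ext h; simp
    rw [this]
    refine isClosed_iInter fun u => ?_
    exact (isClosed_le continuous_const (continuous_apply u)).inter
      (isClosed_le (continuous_apply u) continuous_const)
  exact h1.inter h2

instance compact_lipF (U : Type) [MetricSpace U] : CompactSpace (LipF U) := by
  have hK : IsCompact {h : U → ℝ | (∀ u v, |h u - h v| ≤ dist u v) ∧
      ∀ u, 0 ≤ h u ∧ h u ≤ 1} := by
    refine IsCompact.of_isClosed_subset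
      (isCompact_univ_pi (fun _ : U => (isCompact_Icc : IsCompact (Icc (0 : ℝ) 1))))
      (isClosed_lipCond U) ?_
    intro h hh u _
    exact ⟨(hh.2 u).1, (hh.2 u).2⟩
  exact isCompact_iff_compactSpace.mp hK

theorem continuous_lipF_app {U : Type} [MetricSpace U] (u : U) :
    Continuous fun h : LipF U => h.1 u :=
  (continuous_apply u).comp continuous_subtype_val

theorem isClosedEmbedding_lipF (U : Type) [MetricSpace U] (s : Set U) (hs : Dense s) :
    IsClosedEmbedding (fun (h : LipF U) (x : s) => h.1 x.1) := by
  refine Continuous.isClosedEmbedding (continuous_pi fun x => continuous_lipF_app x.1) ?_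
  intro h k hhk
  apply Subtype.ext
  have hc : ∀ g : LipF U, Continuous g.1 := by
    intro g
    refine (LipschitzWith.of_dist_le_mul (K := 1) ?_).continuous
    intro u v
    rw [Real.dist_eq, NNReal.coe_one, one_mul]
    exact g.2.1 u v
  refine Continuous.ext_on hs (hc h) (hc k) ?_
  intro x hx
  exact congrFun hhk ⟨x, hx⟩

instance polish_lipF (U : Type) [MetricSpace U] [SecondCountableTopology U] :
    PolishSpace (LipF U) := by
  obtain ⟨s, hsc, hsd⟩ := TopologicalSpace.exists_countable_dense U
  have : Countable s := hsc.to_subtype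
  exact (isClosedEmbedding_lipF U s hsd).polishSpace

theorem measurable_lipF {Ω U : Type} [MeasurableSpace Ω] [MetricSpace U]
    [SecondCountableTopology U] [MeasurableSpace (LipF U)] [BorelSpace (LipF U)]
    (f : Ω → LipF U) (hf : ∀ u, Measurable fun ω => (f ω).1 u) : Measurable f := by
  obtain ⟨s, hsc, hsd⟩ := TopologicalSpace.exists_countable_dense U
  have : Countable s := hsc.to_subtype
  have hJ := (isClosedEmbedding_lipF U s hsd).measurableEmbedding
  rw [← hJ.measurable_comp_iff]
  exact measurable_pi_iff.mpr fun x => hf x.1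

end Pool.Agent.H93.EO
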