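import Pool.Agent.H93.EO.LsuA
import Pool.Agent.H93.EO.G2
set_option autoImplicit false

/-!
# H93/EO/LsuB: the choice of indices

`A` is a measurable subset of `X × X` with nonmeager section at `x`; there is a first index `i` such
that the section of `A ∩ K i` is nonmeager.

`pick S K B n x`: list (as a function `ℕ → ℕ`) of indices is built by recursion:
`cut S K B 0 x = {y | (x, y) ∈ B}`, `cut (k+1) x = cut k x ∩ {y | (x, y) ∈ K k (idx k x)}` where
`idx k x = sInf {i | ¬ gen x (y ∉ cut k x ∩ {y | (x, y) ∈ K k i})}`.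

* `cut_meas`: `{p : X × X | p.2 ∈ cut k p.1}` is measurable: induction on `k`: the set for `k + 1` is
  `⋃_i ({p | idx k p.1 = i} ∩ {p | p.2 ∈ cut k p.1} ∩ K k i)`, and `{x | idx k x = i}` is measurable by
  `cq` (`P = X`, `π = id`, `A x y := ¬ (y ∈ cut k x ∧ (x, y) ∈ K k i)`; complement) and the description
  of `sInf` of a set of natural numbers (`sInf s = i` iff (`i ∈ s` and no `j < i` is in `s`) or
  (`i = 0` and `s` is empty)).
* `cut_gen`: if `¬ gen x (y ∉ {y | (x, y) ∈ B})` then `¬ gen x (y ∉ cut k x)` for all `k`: induction: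
  every `y ∈ cut k x` has `(x, y) ∈ B`, so it is in some `K k i` (`hK`); if
  `gen x (y ∉ cut k x ∩ K k i)` for all `i` then by `nat`, `mono` `gen x (y ∉ cut k x)`. So the set of
  `idx` is nonempty, and `Nat.sInf_mem`.
-/

namespace Pool.Agent.H93.EO

open Set

variable {X : Type} [MeasurableSpace X] {F : X → X → Prop}

/-- the decreasing sections -/
noncomputable def cut (S : GenStr X F) (K : ℕ → ℕ → Set (X × X)) (B : Set (X × X)) :
    ℕ → X → Set X
  | 0, x => {y | (x, y) ∈ B}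
  | k + 1, x => {y | y ∈ cut S K B k x ∧
      (x, y) ∈ K k (sInf {i | ¬ S.gen x fun y => ¬ (y ∈ cut S K B k x ∧ (x, y) ∈ K k i)})}

/-- the indices -/
noncomputable def idx (S : GenStr X F) (K : ℕ → ℕ → Set (X × X)) (B : Set (X × X)) (k : ℕ)
    (x : X) : ℕ :=
  sInf {i | ¬ S.gen x fun y => ¬ (y ∈ cut S K B k x ∧ (x, y) ∈ K k i)}

theorem cut_zero (S : GenStr X F) (K : ℕ → ℕ → Set (X × X)) (B : Set (X × X)) (x : X) :
    cut S K B 0 x = {y | (x, y) ∈ B} := rfl

theorem cut_succ (S : GenStr X F) (K : ℕ → ℕ → Set (X × X)) (B : Set (X × X)) (k : ℕ) (x : X) :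
    cut S K B (k + 1) x = {y | y ∈ cut S K B k x ∧ (x, y) ∈ K k (idx S K B k x)} := rfl

theorem mem_cut_iff (S : GenStr X F) (K : ℕ → ℕ → Set (X × X)) (B : Set (X × X)) (n : ℕ)
    (x y : X) : y ∈ cut S K B n x ↔ (x, y) ∈ B ∧ ∀ k < n, (x, y) ∈ K k (idx S K B k x) := by
  induction n with
  | zero =>
    rw [cut_zero]
    simp
  | succ n ih =>
    rw [cut_succ, mem_setOf_eq, ih]
    constructor
    · rintro ⟨⟨h1, h2⟩, h3⟩
      refine ⟨h1, fun k hk => ?_⟩
      rcases (Nat.lt_succ_iff_lt_or_eq.1 hk) with h | h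
      · exact h2 k h
      · rw [h]
        exact h3
    · rintro ⟨h1, h2⟩
      exact ⟨⟨h1, fun k hk => h2 k (Nat.lt_succ_of_lt hk)⟩, h2 n (Nat.lt_succ_self n)⟩

private theorem sInf_eq_succ (s : Set ℕ) (i : ℕ) :
    sInf s = i + 1 ↔ i + 1 ∈ s ∧ ∀ j ≤ i, j ∉ s := by
  constructor
  · intro h
    have hne : s.Nonempty := by
      rw [Set.nonempty_iff_ne_empty]
      intro h0
      rw [h0, Nat.sInf_empty] at h
      omega
    refine ⟨h ▸ Nat.sInf_mem hne, fun j hj => Nat.notMem_of_lt_sInf ?_⟩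
    omega
  · rintro ⟨h1, h2⟩
    refine le_antisymm (Nat.sInf_le h1) ?_
    by_contra hlt
    exact h2 (sInf s) (by omega) (Nat.sInf_mem ⟨_, h1⟩)

private theorem idx_meas_of [StandardBorelSpace X] (S : GenStr X F) {K : ℕ → ℕ → Set (X × X)}
    (hK : ∀ k i, MeasurableSet (K k i)) {B : Set (X × X)} (k : ℕ)
    (hc : MeasurableSet {p : X × X | p.2 ∈ cut S K B k p.1}) :
    Measurable (idx S K B k) := by
  have hA : ∀ i, MeasurableSet {x : X | ¬ S.gen x fun y =>
      ¬ (y ∈ cut S K B k x ∧ (x, y) ∈ K k i)} := by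
    intro i
    have h1 : MeasurableSet {q : X × X | ¬ (q.2 ∈ cut S K B k q.1 ∧ (q.1, q.2) ∈ K k i)} :=
      (hc.inter (hK k i)).compl
    exact (S.cq X id measurable_id (fun x y => ¬ (y ∈ cut S K B k x ∧ (x, y) ∈ K k i)) h1).compl
  refine measurable_to_countable' fun i => ?_
  rcases i with _ | i
  · have h2 : idx S K B k ⁻¹' {0} =
        {x : X | ¬ S.gen x fun y => ¬ (y ∈ cut S K B k x ∧ (x, y) ∈ K k 0)} ∪
        ⋂ i, {x : X | ¬ S.gen x fun y => ¬ (y ∈ cut S K B k x ∧ (x, y) ∈ K k i)}ᶜ := by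
      ext x
      rw [mem_preimage, mem_singleton_iff, idx, Nat.sInf_eq_zero, mem_union, mem_iInter,
        Set.eq_empty_iff_forall_notMem]
      rfl
    rw [h2]
    exact (hA 0).union (MeasurableSet.iInter fun i => (hA i).compl)
  · have h2 : idx S K B k ⁻¹' {i + 1} =
        {x : X | ¬ S.gen x fun y => ¬ (y ∈ cut S K B k x ∧ (x, y) ∈ K k (i + 1))} ∩
        ⋂ j, ⋂ (_ : j ≤ i), {x : X | ¬ S.gen x fun y =>
          ¬ (y ∈ cut S K B k x ∧ (x, y) ∈ K k j)}ᶜ := by
      ext x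
      rw [mem_preimage, mem_singleton_iff, idx, sInf_eq_succ, mem_inter_iff, mem_iInter₂]
      rfl
    rw [h2]
    exact (hA (i + 1)).inter (MeasurableSet.iInter fun j => MeasurableSet.iInter fun _ =>
      (hA j).compl)

theorem cut_meas [StandardBorelSpace X] (S : GenStr X F) {K : ℕ → ℕ → Set (X × X)}
    (hK : ∀ k i, MeasurableSet (K k i)) {B : Set (X × X)} (hB : MeasurableSet B) (k : ℕ) :
    MeasurableSet {p : X × X | p.2 ∈ cut S K B k p.1} := by
  induction k with
  | zero => exact hB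
  | succ k ih =>
    have h1 := idx_meas_of S hK k ih
    have h2 : {p : X × X | p.2 ∈ cut S K B (k + 1) p.1} =
        ⋃ i, {p : X × X | idx S K B k p.1 = i} ∩
          ({p : X × X | p.2 ∈ cut S K B k p.1} ∩ K k i) := by
      ext p
      rw [mem_setOf_eq, cut_succ, mem_setOf_eq, mem_iUnion]
      constructor
      · rintro ⟨h3, h4⟩
        exact ⟨_, rfl, h3, h4⟩
      · rintro ⟨i, h3, h4, h5⟩
        obtain rfl : idx S K B k p.1 = i := h3
        exact ⟨h4, h5⟩
    rw [h2]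
    refine MeasurableSet.iUnion fun i => MeasurableSet.inter ?_ (ih.inter (hK k i))
    exact (h1.comp measurable_fst) (measurableSet_singleton i)

theorem idx_meas [StandardBorelSpace X] (S : GenStr X F) {K : ℕ → ℕ → Set (X × X)}
    (hK : ∀ k i, MeasurableSet (K k i)) {B : Set (X × X)} (hB : MeasurableSet B) (k : ℕ) :
    Measurable (idx S K B k) :=
  idx_meas_of S hK k (cut_meas S hK hB k)

theorem cut_gen (S : GenStr X F) {K : ℕ → ℕ → Set (X × X)} {B : Set (X × X)}
    (hc : ∀ k p, p ∈ B → ∃ i, p ∈ K k i) {x : X} (h : ¬ S.gen x fun y => (x, y) ∉ B)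
    (k : ℕ) : ¬ S.gen x fun y => y ∉ cut S K B k x := by
  induction k with
  | zero => exact h
  | succ k ih =>
    have hne : {i | ¬ S.gen x fun y => ¬ (y ∈ cut S K B k x ∧ (x, y) ∈ K k i)}.Nonempty := by
      by_contra hemp
      rw [Set.not_nonempty_iff_eq_empty, Set.eq_empty_iff_forall_notMem] at hemp
      apply ih
      have h1 : ∀ i, S.gen x fun y => ¬ (y ∈ cut S K B k x ∧ (x, y) ∈ K k i) := fun i =>
        not_not.1 (hemp i)
      refine S.mono x _ _ (fun y _ hy hcut => ?_) (S.nat x _ h1)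
      obtain ⟨i, hi⟩ := hc k (x, y) ((mem_cut_iff S K B k x y).1 hcut).1
      exact hy i ⟨hcut, hi⟩
    exact Nat.sInf_mem hne

end Pool.Agent.H93.EO
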