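import Mathlib
set_option autoImplicit false

/-!
# H93/EO/MeasDist: measurability through distances (pure Mathlib)

`K` is second countable (separable metric space, from `hw`). It is enough that preimages of open sets
are measurable. An open set `O` is the union of the balls `ball (w i) q` with `i : ℕ`, `q : ℚ`, `0 < q`,
`ball (w i) q ⊆ O`; the preimage of `ball (w i) q` is `{ω | dist (f ω) (w i) < q}`.
-/

namespace Pool.Agent.H93.EO

open Set Topology

theorem measurable_of_dist {Ω K : Type} [MeasurableSpace Ω] [MetricSpace K] [MeasurableSpace K]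
    [BorelSpace K] (w : ℕ → K) (hw : DenseRange w) (f : Ω → K)
    (h : ∀ i, Measurable fun ω => dist (f ω) (w i)) : Measurable f := by
  refine measurable_of_isOpen fun O hO => ?_
  have e1 : f ⁻¹' O = ⋃ i : ℕ, ⋃ q : ℚ, {ω | Metric.ball (w i) (q : ℝ) ⊆ O ∧ dist (f ω) (w i) < q} := by
    ext ω
    rw [mem_preimage, mem_iUnion]
    constructor
    · intro hω
      obtain ⟨r, hr, hball⟩ := Metric.isOpen_iff.1 hO (f ω) hω
      obtain ⟨i, hi⟩ := hw.exists_dist_lt (f ω) (show (0 : ℝ) < r / 2 by linarith)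
      obtain ⟨q, hq1, hq2⟩ := exists_rat_btwn hi
      refine ⟨i, mem_iUnion.2 ⟨q, ?_, hq1⟩⟩
      refine Subset.trans ?_ hball
      intro y hy
      rw [Metric.mem_ball] at hy ⊢
      have h1 := dist_triangle y (w i) (f ω)
      rw [dist_comm (w i) (f ω)] at h1
      linarith
    · rintro ⟨i, hi⟩
      rw [mem_iUnion] at hi
      obtain ⟨q, hq1, hq2⟩ := hi
      exact hq1 (Metric.mem_ball.2 hq2)
  rw [e1]
  refine MeasurableSet.iUnion fun i => MeasurableSet.iUnion fun q => ?_
  by_cases hb : Metric.ball (w i) (q : ℝ) ⊆ O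
  · have e2 : {ω | Metric.ball (w i) (q : ℝ) ⊆ O ∧ dist (f ω) (w i) < q} =
        {ω | dist (f ω) (w i) < q} := by
      ext ω
      exact ⟨fun h1 => h1.2, fun h1 => ⟨hb, h1⟩⟩
    rw [e2]
    exact measurableSet_lt (h i) measurable_const
  · have e2 : {ω | Metric.ball (w i) (q : ℝ) ⊆ O ∧ dist (f ω) (w i) < q} = ∅ := by
      ext ω
      exact ⟨fun h1 => absurd h1.1 hb, fun h1 => absurd h1 (notMem_empty ω)⟩
    rw [e2]
    exact MeasurableSet.empty

end Pool.Agent.H93.EO
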