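import Pool.Agent.H93.EO.ClsTop
import Pool.Agent.H93.EO.Def3
set_option autoImplicit false

/-!
# H93/EO/Part2A: equivalent points have the same code

`SameCode` with `M := UniformSpace.Completion (Cls M x)`, `c i = ↑(cpt M x i)` and
`c' i = ↑⟨M.c i x', M.cY i x', _⟩` (`F x x'`, `F x' (c i x')`). Distances:
`UniformSpace.Completion.dist_eq`, `cls_dist`. Closures: by symmetry of the argument it is enough that
`c '' codeA M x n ⊆ closure (c' '' codeA M x' n)` and conversely (`closure_minimal` or
`Subset.antisymm` with `closure_mono`, `isClosed_closure`): for `c i x ∈ P n` and `ε > 0`, `near_c` (at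
`x'`, `y = c i x`, `F x' y`) gives `k` with `ρ (c i x) (c k x') < ε` and `c k x' ∈ P n`. The converse
direction: `near_c` at `x`, `y = c i x'`.
-/

namespace Pool.Agent.H93.EO

open Set Topology

variable {X : Type} [MeasurableSpace X] {F : X → X → Prop} {S : GenStr X F} {P : ℕ → Set X}

theorem part2A (hF : Equivalence F) (M : MetStr S P) {x x' : X} (h : F x x') :
    SameCode (codeR M x) (codeR M x') (codeA M x) (codeA M x') := by
  let c' : ℕ → Cls M x := fun i => ⟨M.c i x', M.cY i x', hF.trans h (M.cF i x')⟩
  refine ⟨UniformSpace.Completion (Cls M x), inferInstance, inferInstance,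
    fun i => (cpt M x i : UniformSpace.Completion (Cls M x)),
    fun i => (c' i : UniformSpace.Completion (Cls M x)), ?_, ?_, ?_⟩
  · intro i j
    rw [UniformSpace.Completion.dist_eq]
    rfl
  · intro i j
    rw [UniformSpace.Completion.dist_eq]
    rfl
  · intro n
    refine Set.Subset.antisymm (closure_minimal ?_ isClosed_closure) (closure_minimal ?_ isClosed_closure)
    · rintro _ ⟨i, hi, rfl⟩
      rw [Metric.mem_closure_iff]
      intro ε hε
      obtain ⟨k, h1, h2⟩ := near_c hF M (x := x') (M.cY i x) (hF.trans (hF.symm h) (M.cF i x)) n hε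
      refine ⟨_, ⟨k, h2.2 hi, rfl⟩, ?_⟩
      rw [UniformSpace.Completion.dist_eq]
      exact h1
    · rintro _ ⟨i, hi, rfl⟩
      rw [Metric.mem_closure_iff]
      intro ε hε
      obtain ⟨k, h1, h2⟩ := near_c hF M (x := x) (M.cY i x') (hF.trans h (M.cF i x')) n hε
      refine ⟨_, ⟨k, h2.2 hi, rfl⟩, ?_⟩
      rw [UniformSpace.Completion.dist_eq]
      exact h1

end Pool.Agent.H93.EO
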