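import Mathlib
set_option autoImplicit false

/-!
# H93/EO/RegA: a countable base of regular open sets (pure topology)

`T` is a space with a countable base `B n`; `ic A = interior (closure A)`. The sets `ic (B n)` are a
base of the regular open sets (no separation axiom is needed).
-/

namespace Pool.Agent.H93.EO

open Set Topology TopologicalSpace

variable {T : Type} [TopologicalSpace T]

theorem ic_open (A : Set T) : IsOpen (interior (closure A)) := isOpen_interior

theorem sub_ic {A : Set T} (h : IsOpen A) : A ⊆ interior (closure A) :=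
  interior_maximal subset_closure h

theorem ic_ic (A : Set T) :
    interior (closure (interior (closure A))) = interior (closure A) := by
  apply subset_antisymm
  · apply interior_mono
    exact closure_minimal interior_subset isClosed_closure
  · exact interior_maximal subset_closure isOpen_interior

variable {B : ℕ → Set T}

theorem ic_mono {A A' : Set T} (h : A ⊆ A') :
    interior (closure A) ⊆ interior (closure A') := interior_mono (closure_mono h)

theorem ic_inter {U V : Set T} (hU : interior (closure U) = U) (hV : interior (closure V) = V) :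
    interior (closure (U ∩ V)) = U ∩ V := by
  apply subset_antisymm
  · intro z hz
    refine ⟨?_, ?_⟩
    · rw [← hU]; exact ic_mono inter_subset_left hz
    · rw [← hV]; exact ic_mono inter_subset_right hz
  · refine sub_ic ?_
    rw [← hU, ← hV]
    exact isOpen_interior.inter isOpen_interior

/-- a nonempty open subset of `ic (B j)` meets `B j` -/
theorem meet_ic {A U : Set T} (hU : IsOpen U) {z : T} (hz : z ∈ interior (closure A))
    (hzU : z ∈ U) : ∃ u, u ∈ A ∧ u ∈ U := by
  obtain ⟨u, hu1, hu2⟩ := mem_closure_iff.1 (interior_subset hz) U hU hzU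
  exact ⟨u, hu2, hu1⟩

theorem reg_base (hB : IsTopologicalBasis (range B)) {U : Set T}
    (hU : interior (closure U) = U) {y : T} (hy : y ∈ U) :
    ∃ n, y ∈ interior (closure (B n)) ∧ interior (closure (B n)) ⊆ U := by
  have hUo : IsOpen U := by rw [← hU]; exact isOpen_interior
  obtain ⟨V, ⟨n, rfl⟩, hyn, hn⟩ := hB.mem_nhds_iff.1 (hUo.mem_nhds hy)
  refine ⟨n, sub_ic (hB.isOpen ⟨n, rfl⟩) hyn, ?_⟩
  have := ic_mono hn
  rwa [hU] at this

theorem reg_cover (hB : IsTopologicalBasis (range B)) (y : T) :
    ∃ n, y ∈ interior (closure (B n)) := by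
  obtain ⟨n, hn, _⟩ := reg_base hB (U := univ) (by simp) (mem_univ y)
  exact ⟨n, hn⟩

theorem reg_regular (hB : IsTopologicalBasis (range B)) {n m : ℕ}
    (h : ∀ k z, z ∈ interior (closure (B k)) →
      interior (closure (B k)) ⊆ interior (closure (B m)) →
      ∃ w ∈ interior (closure (B k)), w ∈ interior (closure (B n))) :
    interior (closure (B m)) ⊆ interior (closure (B n)) := by
  have h1 : interior (closure (B m)) ⊆ closure (interior (closure (B n))) := by
    intro z hz
    rw [mem_closure_iff]
    intro W hW hzW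
    obtain ⟨V, ⟨k, rfl⟩, hk, hk2⟩ := hB.mem_nhds_iff.1
      ((hW.inter isOpen_interior).mem_nhds (show z ∈ W ∩ interior (closure (B m)) from ⟨hzW, hz⟩))
    have hk3 : interior (closure (B k)) ⊆ interior (closure (B m)) := by
      have := ic_mono (hk2.trans inter_subset_right)
      rwa [ic_ic] at this
    obtain ⟨w, hw, hw2⟩ := h k z (sub_ic (hB.isOpen ⟨k, rfl⟩) hk) hk3
    obtain ⟨u, hu1, hu2⟩ := meet_ic isOpen_interior hw hw2
    exact ⟨u, (hk2 hu1).1, hu2⟩
  have h2 := interior_maximal h1 isOpen_interior
  rwa [ic_ic] at h2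

theorem mem_ic_iff (hB : IsTopologicalBasis (range B)) (n : ℕ) (y : T) :
    y ∈ interior (closure (B n)) ↔
      ∃ k, y ∈ B k ∧ ∀ m, (B m ∩ B k).Nonempty → (B m ∩ B n).Nonempty := by
  constructor
  · intro h
    obtain ⟨V, ⟨k, rfl⟩, hyk, hk⟩ := hB.mem_nhds_iff.1 (isOpen_interior.mem_nhds h)
    refine ⟨k, hyk, ?_⟩
    rintro m ⟨x, hxm, hxk⟩
    have hx : x ∈ closure (B n) := interior_subset (hk hxk)
    obtain ⟨w, hw1, hw2⟩ := mem_closure_iff.1 hx (B m) (hB.isOpen ⟨m, rfl⟩) hxm
    exact ⟨w, hw1, hw2⟩
  · rintro ⟨k, hyk, hk⟩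
    have h1 : B k ⊆ closure (B n) := by
      intro x hx
      rw [hB.mem_closure_iff]
      rintro o ⟨m, rfl⟩ hxm
      exact hk m ⟨x, hxm, hx⟩
    exact interior_maximal h1 (hB.isOpen ⟨k, rfl⟩) hyk

end Pool.Agent.H93.EO
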