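import Pool.Agent.H93.EO.Levs
set_option autoImplicit false

/-!
# H93/EO/RelA: the relations `Rr m`

`Rr m a b`: for nonmeager many `z` of the class of `a`: `z ∈ D_m` and `a, b ∈ W_m z`.

* `R_exists`: `not_gen_exists`.
* `R_F`: from `R_exists`: `F z a`, `F z b` (`lev_F`).
* `R_symm`: `R_F`, `gen_iff_inv`, swap the two conditions (`gen_congr`).
* `R_zero`: `W_0 z = [z]`, `D_0 = univ`: for all `z` of the class the condition holds; so
  `gen a (¬ ..)` gives `gen a False`, `gen_false`.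
* `R_of`: if `z ∈ D_{m+1}`, `O` open in the class of `z`, `O` meets `W_{m+1} z`, and
  `a, b ∈ W_{m+1} z`, then `Rr m a b`: `lev_nonmeager`, transported from `z` to `a` by `gen_iff_inv`
  (`F z a` by `lev_F`), `mono`. (Take `O = [z]`, `op_cls`.)
* `R_mono`: `R_exists` gives `z`, then `R_of`.
* `R_nbhd`: `R_of` with `z = a` (`(lev_good (m+1)).self`).
* `R_comp`: `R_exists` twice: `z1 ∈ D_{m+1}`, `a, b ∈ W_{m+1} z1`; `z2 ∈ D_{m+1}`,
  `b, c ∈ W_{m+1} z2`. Let `O = W_{m+1} z2`, open at `z1`; it meets `W_{m+1} z1` in `b`. Suppose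
  `gen a (¬ (y ∈ D_m ∧ a ∈ W_m y ∧ c ∈ W_m y))`; transport to `z1`; with the generic properties of
  `z1` and of `z2` (`lev_spec`, transported to `z1`) and `gen_exists` for the open set
  `W_{m+1} z1 ∩ W_{m+1} z2` (nonempty: `b`) there is `y` in it with `y ∈ D_m`,
  `W_{m+1} z1 ⊆ W_m y`, `W_{m+1} z2 ⊆ W_m y`: so `a, c ∈ W_m y`, contradiction.
* `R_anti`: `Rr n a b → Rr m a b` for `m ≤ n`: induction with `R_mono`.
-/

namespace Pool.Agent.H93.EO

open Set

variable {X : Type} [MeasurableSpace X] {F : X → X → Prop}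

theorem R_exists {S : GenStr X F} {m : ℕ} {a b : X} (h : Rr S m a b) :
    ∃ z, F a z ∧ z ∈ (lev S m).D ∧ a ∈ (lev S m).W z ∧ b ∈ (lev S m).W z := by
  obtain ⟨z, hz, h2⟩ := not_gen_exists h
  have h3 := not_not.mp h2
  exact ⟨z, hz, h3.1, h3.2.1, h3.2.2⟩

theorem R_F [StandardBorelSpace X] (hF : Equivalence F)
    (mF : MeasurableSet {p : X × X | F p.1 p.2}) {S : GenStr X F} {m : ℕ} {a b : X}
    (h : Rr S m a b) : F a b := by
  obtain ⟨z, _, _, ha, hb⟩ := R_exists h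
  exact hF.trans (hF.symm (lev_F hF mF S m ha)) (lev_F hF mF S m hb)

theorem R_symm [StandardBorelSpace X] (hF : Equivalence F)
    (mF : MeasurableSet {p : X × X | F p.1 p.2}) {S : GenStr X F} {m : ℕ} {a b : X}
    (h : Rr S m a b) : Rr S m b a := by
  intro g
  have hab : F a b := R_F hF mF h
  apply h
  exact S.mono a _ _ (fun y _ hy h1 => hy ⟨h1.1, h1.2.2, h1.2.1⟩) (S.inv b a _ (hF.symm hab) g)

theorem R_zero (hF : Equivalence F) {S : GenStr X F} {a b : X} (h : F a b) : Rr S 0 a b := by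
  intro g
  apply gen_false hF S a
  refine S.mono a _ _ ?_ g
  intro y hy h1
  exact h1 ⟨mem_univ y, hF.symm hy, hF.trans (hF.symm hy) h⟩

theorem R_of [StandardBorelSpace X] (hF : Equivalence F)
    (mF : MeasurableSet {p : X × X | F p.1 p.2}) {S : GenStr X F} {m : ℕ} {z a b : X}
    (hz : z ∈ (lev S (m + 1)).D) (ha : a ∈ (lev S (m + 1)).W z)
    (hb : b ∈ (lev S (m + 1)).W z) : Rr S m a b := by
  intro g
  have hza : F z a := lev_F hF mF S (m + 1) ha
  refine lev_nonmeager hF mF hz (op_cls S z) ⟨a, hza, ha⟩ ?_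
  refine S.mono z _ _ ?_ (S.inv a z _ (hF.symm hza) g)
  intro y _ h1 h2
  exact h1 ⟨h2.2.1, h2.2.2 ha, h2.2.2 hb⟩

theorem R_mono [StandardBorelSpace X] (hF : Equivalence F)
    (mF : MeasurableSet {p : X × X | F p.1 p.2}) {S : GenStr X F} {m : ℕ} {a b : X}
    (h : Rr S (m + 1) a b) : Rr S m a b := by
  obtain ⟨z, _, hz, ha, hb⟩ := R_exists h
  exact R_of hF mF hz ha hb

theorem R_anti [StandardBorelSpace X] (hF : Equivalence F)
    (mF : MeasurableSet {p : X × X | F p.1 p.2}) {S : GenStr X F} {m n : ℕ} (hmn : m ≤ n)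
    {a b : X} (h : Rr S n a b) : Rr S m a b := by
  induction n, hmn using Nat.le_induction with
  | base => exact h
  | succ n _ ih => exact ih (R_mono hF mF h)

theorem R_nbhd [StandardBorelSpace X] (hF : Equivalence F)
    (mF : MeasurableSet {p : X × X | F p.1 p.2}) {S : GenStr X F} {m : ℕ} {a b : X}
    (ha : a ∈ (lev S (m + 1)).D) (hb : b ∈ (lev S (m + 1)).W a) : Rr S m a b := by
  exact R_of hF mF ha ((lev_good hF mF S (m + 1)).self a ha) hb

theorem R_comp [StandardBorelSpace X] (hF : Equivalence F)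
    (mF : MeasurableSet {p : X × X | F p.1 p.2}) {S : GenStr X F} {m : ℕ} {a b c : X}
    (h : Rr S (m + 1) a b) (h' : Rr S (m + 1) b c) : Rr S m a c := by
  obtain ⟨z1, haz1, hz1, ha1, hb1⟩ := R_exists h
  obtain ⟨z2, hbz2, hz2, hb2, hc2⟩ := R_exists h'
  intro g
  have hab : F a b := R_F hF mF h
  have h12 : F z1 z2 := hF.trans (hF.symm haz1) (hF.trans hab hbz2)
  obtain ⟨y, hyO, hy1, hPy, hyD, hsub⟩ := lev_exists hF mF hz1 (lev_op hF mF S (m + 1) h12)
    ⟨b, hb2, hb1⟩ (gen_and (S.inv a z1 _ haz1 g)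
      (S.inv z2 z1 _ (hF.symm h12) (lev_spec hz2).2.2))
  exact hPy.1 ⟨hyD, hsub ha1, (hPy.2 hyO).2 hc2⟩

end Pool.Agent.H93.EO
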