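import Pool.Agent.H93.EO.RelA
set_option autoImplicit false

/-!
# H93/EO/RelB: openness and measurability of the relations `Rr m`, smallness

* `R_open`: let `Rr m a b`. For every `z` with `b ∈ W_m z` there is `n` with `V n b ⊆ W_m z`
  (`V_base`, `lev_op`). If for every `n` we had
  `gen a (¬ (z ∈ D_m ∧ a ∈ W_m z ∧ V n b ⊆ W_m z))` then by `nat` and `mono` `gen a (¬ (z ∈ D_m ∧
  a ∈ W_m z ∧ b ∈ W_m z))`, contradiction. So some `n` has `¬ gen a (¬ ..)`; for `b' ∈ V n b`,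
  `Rr m a b'` by `mono`.
* `mR`: field `cq` with `P = X × X` (standard Borel), `π = Prod.fst` and
  `A p z := ¬ (z ∈ D_m ∧ p.1 ∈ W_m z ∧ p.2 ∈ W_m z)`: measurable by `(lev_good m).mD`,
  `(lev_good m).mW` and the measurable maps `q ↦ (q.2, q.1.1)`, `q ↦ (q.2, q.1.2)`; complement.
* `small`: let `y ∈ Sm`, `n : ℕ`: `j, k` with `gen y (u ∈ V k y → V j u ⊆ V n y)`. Claim `m = j + 2`
  works. Let `Rr (j+2) y b`; `R_exists` gives `z ∈ D_{j+2}`, `y, b ∈ W_{j+2} z`. By `lev_exists`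
  (`m + 1 = j + 2`, `O = V k y` which is open at `z` (`V_op`) and contains `y` (`V_self`), `P` the
  property above transported to `z` together with
  `u ∈ D_{j+1}`...) there is `u ∈ V k y ∩ W_{j+2} z` with `u ∈ D_{j+1}`, `W_{j+2} z ⊆ W_{j+1} u` and
  `V j u ⊆ V n y`. `b ∈ W_{j+1} u ⊆ V j u` (`lev_spec`) `⊆ V n y`.
-/

namespace Pool.Agent.H93.EO

open Set

variable {X : Type} [MeasurableSpace X] {F : X → X → Prop}

theorem R_open [StandardBorelSpace X] (hF : Equivalence F)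
    (mF : MeasurableSet {p : X × X | F p.1 p.2}) {S : GenStr X F} {m : ℕ} {a b : X}
    (h : Rr S m a b) : ∃ n, ∀ b' ∈ V S n b, Rr S m a b' := by
  have key : ∃ n, ¬ S.gen a fun z => ¬ (z ∈ (lev S m).D ∧ a ∈ (lev S m).W z ∧
      V S n b ⊆ (lev S m).W z) := by
    by_contra hcon
    rw [not_exists] at hcon
    have h1 : ∀ n, S.gen a fun z => ¬ (z ∈ (lev S m).D ∧ a ∈ (lev S m).W z ∧
        V S n b ⊆ (lev S m).W z) := fun n => not_not.1 (hcon n)
    refine h (S.mono a _ _ ?_ (S.nat a _ h1))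
    rintro z hz h2 ⟨h3, h4, h5⟩
    obtain ⟨k, hk⟩ := V_base hF (lev_op hF mF S m (hF.refl z)) h5
    exact h2 k ⟨h3, h4, hk⟩
  obtain ⟨n, hn⟩ := key
  refine ⟨n, fun b' hb' hg => hn (S.mono a _ _ ?_ hg)⟩
  rintro z hz h2 ⟨h3, h4, h5⟩
  exact h2 ⟨h3, h4, h5 hb'⟩

theorem mR [StandardBorelSpace X] (hF : Equivalence F)
    (mF : MeasurableSet {p : X × X | F p.1 p.2}) (S : GenStr X F) (m : ℕ) :
    MeasurableSet {p : X × X | Rr S m p.1 p.2} := by
  have hg := lev_good hF mF S m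
  have hA : MeasurableSet {q : (X × X) × X | ¬ (q.2 ∈ (lev S m).D ∧ q.1.1 ∈ (lev S m).W q.2 ∧
      q.1.2 ∈ (lev S m).W q.2)} := by
    have h1 : MeasurableSet {q : (X × X) × X | q.2 ∈ (lev S m).D} := measurable_snd hg.mD
    have f2 : Measurable fun q : (X × X) × X => (q.2, q.1.1) :=
      measurable_snd.prodMk (measurable_fst.comp measurable_fst)
    have f3 : Measurable fun q : (X × X) × X => (q.2, q.1.2) :=
      measurable_snd.prodMk (measurable_snd.comp measurable_fst)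
    have h2 : MeasurableSet {q : (X × X) × X | q.1.1 ∈ (lev S m).W q.2} := f2 hg.mW
    have h3 : MeasurableSet {q : (X × X) × X | q.1.2 ∈ (lev S m).W q.2} := f3 hg.mW
    exact (h1.inter (h2.inter h3)).compl
  have h4 := S.cq (X × X) Prod.fst measurable_fst
    (fun p z => ¬ (z ∈ (lev S m).D ∧ p.1 ∈ (lev S m).W z ∧ p.2 ∈ (lev S m).W z)) hA
  exact h4.compl

theorem small [StandardBorelSpace X] (hF : Equivalence F)
    (mF : MeasurableSet {p : X × X | F p.1 p.2}) {S : GenStr X F} {y : X} (hy : y ∈ Sm S)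
    (n : ℕ) : ∃ m, ∀ b, Rr S m y b → b ∈ V S n y := by
  obtain ⟨j, k, hg⟩ := hy n
  refine ⟨j + 2, fun b hb => ?_⟩
  obtain ⟨z, hyz, hz, hyW, hbW⟩ := R_exists hb
  have hzy : F z y := hF.symm hyz
  obtain ⟨u, hu1, hu2, hu3, hu4, hu5⟩ := lev_exists hF mF (m := j + 1) hz (V_op hF S k hzy)
    ⟨y, V_self hF S k y, hyW⟩ (S.inv y z _ hyz hg)
  exact hu3 hu1 ((lev_spec hu4).2.1 (hu5 hbW))

end Pool.Agent.H93.EO
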