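import Pool.Agent.H93.EO.RelB
set_option autoImplicit false

/-!
# H93/EO/RhoA: the pre-distance `rho`

`rho a b = (1/2)^(h - 1)` where `h` is the least `m` with `¬ Rr (2m) a b` (natural subtraction, so the
value is `1` for `h = 0` and `h = 1`), and `0` if there is no such `m`.

* `rho_le_iff`: for `m ≥ 1`: if no such `h` exists both sides hold. Otherwise
  `(1/2)^(h-1) ≤ (1/2)^m ↔ m ≤ h - 1 ↔ m + 1 ≤ h` (as `1 ≤ m`) `↔ Rr (2 j) a b` for all `j ≤ m`
  (`Nat.find_min`, `Nat.find_spec`) `↔ Rr (2 m) a b` (`R_anti`).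
* `rho_nonneg`, `rho_le_one`: immediate from the definition.
* `rho_eq_zero`: `rho = 0` iff no such `h` exists iff `Rr (2m)` for all `m` iff `Rr m` for all `m`
  (`R_anti`, `m ≤ 2 m`).
* `rho_comm`: `R_symm` (`Rr n a b ↔ Rr n b a`): the two definitions agree (cases on the existence, and
  `Nat.find` of equivalent predicates is equal; or use `rho_le_iff` for all `m` and antisymmetry on the
  values; simplest: `have : (fun m => ¬ Rr S (2*m) a b) = (fun m => ¬ Rr S (2*m) b a)` and rewrite in
  the unfolded definition, or `Nat.find_congr`).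
* `rho_cross`: `¬ F a b`: `¬ Rr 0 a b` (`R_F`), so `h = 0` (`Nat.find_eq_zero`), value `1`.
-/

namespace Pool.Agent.H93.EO

open Set

variable {X : Type} [MeasurableSpace X] {F : X → X → Prop}

theorem rho_values (S : GenStr X F) (a b : X) : rho S a b = 0 ∨ ∃ m : ℕ,
    rho S a b = (1 / 2 : ℝ) ^ m := by
  classical
  unfold rho
  split_ifs with h
  · exact Or.inr ⟨_, rfl⟩
  · exact Or.inl rfl

theorem rho_nonneg (S : GenStr X F) (a b : X) : 0 ≤ rho S a b := by
  rcases rho_values S a b with h | ⟨m, h⟩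
  · rw [h]
  · rw [h]
    positivity

theorem rho_le_one (S : GenStr X F) (a b : X) : rho S a b ≤ 1 := by
  rcases rho_values S a b with h | ⟨m, h⟩
  · rw [h]
    norm_num
  · rw [h]
    exact pow_le_one₀ (by norm_num) (by norm_num)

theorem rho_le_iff [StandardBorelSpace X] (hF : Equivalence F)
    (mF : MeasurableSet {p : X × X | F p.1 p.2}) {S : GenStr X F} {m : ℕ} (hm : 1 ≤ m)
    {a b : X} : rho S a b ≤ (1 / 2 : ℝ) ^ m ↔ Rr S (2 * m) a b := by
  classical
  unfold rho
  split_ifs with h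
  · have h1 : ((1 / 2 : ℝ) ^ (Nat.find h - 1) ≤ (1 / 2 : ℝ) ^ m) ↔ m ≤ Nat.find h - 1 :=
      pow_le_pow_iff_right_of_lt_one₀ (by norm_num) (by norm_num)
    rw [h1]
    constructor
    · intro h2
      by_contra h3
      have h4 := Nat.find_min' h h3
      omega
    · intro h2
      by_contra h3
      have h4 : Nat.find h ≤ m := by omega
      exact Nat.find_spec h (R_anti hF mF (by omega) h2)
  · push Not at h
    exact ⟨fun _ => h m, fun _ => by positivity⟩

theorem rho_eq_zero [StandardBorelSpace X] (hF : Equivalence F)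
    (mF : MeasurableSet {p : X × X | F p.1 p.2}) {S : GenStr X F} {a b : X} :
    rho S a b = 0 ↔ ∀ m, Rr S m a b := by
  constructor
  · intro h m
    have h1 : Rr S (2 * (m + 1)) a b := (rho_le_iff hF mF (by omega : 1 ≤ m + 1)).1 (by rw [h]; positivity)
    exact R_anti hF mF (by omega) h1
  · intro h
    unfold rho
    rw [dif_neg]
    push Not
    exact fun m => h _

theorem rho_comm [StandardBorelSpace X] (hF : Equivalence F)
    (mF : MeasurableSet {p : X × X | F p.1 p.2}) (S : GenStr X F) (a b : X) :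
    rho S a b = rho S b a := by
  classical
  have h1 : ∀ m, Rr S (2 * m) a b ↔ Rr S (2 * m) b a := fun m => ⟨R_symm hF mF, R_symm hF mF⟩
  have h2 : (fun m => ¬ Rr S (2 * m) a b) = (fun m => ¬ Rr S (2 * m) b a) := by
    funext m
    rw [h1]
  unfold rho
  by_cases h : ∃ m, ¬ Rr S (2 * m) a b
  · have h' : ∃ m, ¬ Rr S (2 * m) b a := by
      obtain ⟨m, hm⟩ := h
      exact ⟨m, fun h3 => hm ((h1 m).2 h3)⟩
    rw [dif_pos h, dif_pos h']
    have e : Nat.find h = Nat.find h' := by
      apply le_antisymm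
      · exact Nat.find_min' h (fun h3 => Nat.find_spec h' ((h1 _).1 h3))
      · exact Nat.find_min' h' (fun h3 => Nat.find_spec h ((h1 _).2 h3))
    rw [e]
  · have h' : ¬ ∃ m, ¬ Rr S (2 * m) b a := by
      rintro ⟨m, hm⟩
      exact h ⟨m, fun h3 => hm ((h1 m).1 h3)⟩
    rw [dif_neg h, dif_neg h']

theorem rho_cross [StandardBorelSpace X] (hF : Equivalence F)
    (mF : MeasurableSet {p : X × X | F p.1 p.2}) {S : GenStr X F} {a b : X} (h : ¬ F a b) :
    rho S a b = 1 := by
  classical
  have h0 : ¬ Rr S (2 * 0) a b := fun h1 => h (R_F hF mF h1)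
  have h' : ∃ m, ¬ Rr S (2 * m) a b := ⟨0, h0⟩
  unfold rho
  rw [dif_pos h']
  have e : Nat.find h' = 0 := (Nat.find_eq_zero h').2 h0
  rw [e]
  simp

end Pool.Agent.H93.EO
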