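import Pool.Agent.H93.EO.RhoA
set_option autoImplicit false

/-!
# H93/EO/RhoA2: the pre-distance `rho`, second part

* `rho_four`: let `M` be the maximum. If `M = 0` then all three vanish, `rho_eq_zero`, for every `m`:
  `Rr (m+2) a b`, `Rr (m+2) b c`, `Rr (m+2) c d`, so `Rr (m+1) a c` (`R_comp`), `Rr (m+1) c d`
  (`R_mono`), `Rr m a d` (`R_comp`): `rho a d = 0`. Otherwise `M = (1/2)^m` for some `m : ℕ` (values of
  `rho`: `rho_values`); if `m = 0` use `rho_le_one`; if `m ≥ 1`: `Rr (2m)` for the three pairs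
  (`rho_le_iff`), so as above `Rr (2m - 2) a d`, that is `Rr (2 (m-1)) a d`; if `m - 1 ≥ 1` then
  `rho a d ≤ (1/2)^(m-1) = 2 (1/2)^m` by `rho_le_iff`; if `m = 1` use `rho_le_one`.
* `rho_self`: `a ∈ D_{m+1}` for all `m`: `Rr m a a` by `R_nbhd` and `(lev_good (m+1)).self`.
* `mrho`: `measurable_of_Iic`: `{p | rho p.1 p.2 ≤ t}`:
  for `t < 0` empty; for `t ≥ 1` everything; for `0 ≤ t < 1`: equals `⋂ m ∈ {m | 1 ≤ m ∧
  (t < (1/2)^(m-1))}`, `{Rr (2 m)}`: indeed `rho ≤ t` iff for all `m ≥ 1` with `t < (1/2)^(m-1)`: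
  `rho ≤ (1/2)^m` (values of `rho` are `0` or powers; `rho > t`, `rho = (1/2)^j` gives for `m = j + 1`
  `t < (1/2)^(m-1)` and `rho > (1/2)^m`; conversely if `rho ≤ t < (1/2)^(m-1)` then `rho < (1/2)^(m-1)`
  so `rho ≤ (1/2)^m`); then `rho_le_iff` and `mR (2 * m)`.
-/

namespace Pool.Agent.H93.EO

open Set

variable {X : Type} [MeasurableSpace X] {F : X → X → Prop}

theorem rho_four [StandardBorelSpace X] (hF : Equivalence F)
    (mF : MeasurableSet {p : X × X | F p.1 p.2}) (S : GenStr X F) (a b c d : X) :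
    rho S a d ≤ 2 * max (rho S a b) (max (rho S b c) (rho S c d)) := by
  have hR : ∀ m : ℕ, 1 ≤ m → rho S a b ≤ (1 / 2 : ℝ) ^ m → rho S b c ≤ (1 / 2 : ℝ) ^ m →
      rho S c d ≤ (1 / 2 : ℝ) ^ m → rho S a d ≤ 2 * (1 / 2 : ℝ) ^ m := by
    intro m hm h1 h2 h3
    rcases Nat.lt_or_ge m 2 with hm2 | hm2
    · have hm1 : m = 1 := by omega
      subst hm1
      have := rho_le_one S a d
      norm_num
      exact this
    · obtain ⟨k, rfl⟩ : ∃ k, m = k + 2 := ⟨m - 2, by omega⟩
      have r1 : Rr S (2 * k + 3 + 1) a b := by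
        have := (rho_le_iff hF mF hm).mp h1
        have e : 2 * (k + 2) = 2 * k + 3 + 1 := by ring
        rw [e] at this
        exact this
      have r2 : Rr S (2 * k + 3 + 1) b c := by
        have := (rho_le_iff hF mF hm).mp h2
        have e : 2 * (k + 2) = 2 * k + 3 + 1 := by ring
        rw [e] at this
        exact this
      have r3 : Rr S (2 * k + 3 + 1) c d := by
        have := (rho_le_iff hF mF hm).mp h3
        have e : 2 * (k + 2) = 2 * k + 3 + 1 := by ring
        rw [e] at this
        exact this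
      have r4 : Rr S (2 * k + 2 + 1) a c := R_comp hF mF r1 r2
      have r5 : Rr S (2 * k + 2 + 1) c d := R_mono hF mF r3
      have r6 : Rr S (2 * k + 2) a d := R_comp hF mF r4 r5
      have r7 : Rr S (2 * (k + 1)) a d := by
        have e : 2 * (k + 1) = 2 * k + 2 := by ring
        rw [e]
        exact r6
      have h7 := (rho_le_iff hF mF (Nat.succ_le_succ (Nat.zero_le k))).mpr r7
      have e : (2 : ℝ) * (1 / 2 : ℝ) ^ (k + 2) = (1 / 2 : ℝ) ^ (k + 1) := by
        rw [pow_succ (1 / 2 : ℝ) (k + 1)]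
        ring
      rw [e]
      exact h7
  have m1 : rho S a b ≤ max (rho S a b) (max (rho S b c) (rho S c d)) := le_max_left _ _
  have m2 : rho S b c ≤ max (rho S a b) (max (rho S b c) (rho S c d)) :=
    le_trans (le_max_left _ _) (le_max_right _ _)
  have m3 : rho S c d ≤ max (rho S a b) (max (rho S b c) (rho S c d)) :=
    le_trans (le_max_right _ _) (le_max_right _ _)
  have hM : max (rho S a b) (max (rho S b c) (rho S c d)) = 0 ∨ ∃ m : ℕ,
      max (rho S a b) (max (rho S b c) (rho S c d)) = (1 / 2 : ℝ) ^ m := by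
    rcases max_choice (rho S a b) (max (rho S b c) (rho S c d)) with h | h
    · rw [h]
      exact rho_values S a b
    · rw [h]
      rcases max_choice (rho S b c) (rho S c d) with h' | h'
      · rw [h']
        exact rho_values S b c
      · rw [h']
        exact rho_values S c d
  generalize max (rho S a b) (max (rho S b c) (rho S c d)) = M at m1 m2 m3 hM
  rcases hM with h0 | ⟨m, hm⟩
  · rw [h0] at m1 m2 m3
    have z1 := (rho_eq_zero hF mF).mp (le_antisymm m1 (rho_nonneg S a b))
    have z2 := (rho_eq_zero hF mF).mp (le_antisymm m2 (rho_nonneg S b c))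
    have z3 := (rho_eq_zero hF mF).mp (le_antisymm m3 (rho_nonneg S c d))
    have z4 : rho S a d = 0 := (rho_eq_zero hF mF).mpr fun m =>
      R_comp hF mF (R_comp hF mF (z1 (m + 1 + 1)) (z2 (m + 1 + 1))) (z3 (m + 1))
    rw [z4, h0]
    norm_num
  · rcases Nat.eq_zero_or_pos m with hm0 | hm0
    · rw [hm, hm0]
      have := rho_le_one S a d
      norm_num
      linarith
    · rw [hm] at m1 m2 m3 ⊢
      exact hR m hm0 m1 m2 m3

theorem rho_self [StandardBorelSpace X] (hF : Equivalence F)
    (mF : MeasurableSet {p : X × X | F p.1 p.2}) {S : GenStr X F} {a : X}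
    (h : ∀ m, a ∈ (lev S m).D) : rho S a a = 0 := by
  exact (rho_eq_zero hF mF).mpr fun m =>
    R_nbhd hF mF (h (m + 1)) ((lev_good hF mF S (m + 1)).self a (h (m + 1)))

theorem mrho [StandardBorelSpace X] (hF : Equivalence F)
    (mF : MeasurableSet {p : X × X | F p.1 p.2}) (S : GenStr X F) :
    Measurable fun p : X × X => rho S p.1 p.2 := by
  apply measurable_of_Iic
  intro t
  rcases lt_or_ge t 0 with ht | ht
  · have : (fun p : X × X => rho S p.1 p.2) ⁻¹' Iic t = ∅ := by
      apply eq_empty_of_forall_notMem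
      intro p hp
      have h1 : rho S p.1 p.2 ≤ t := hp
      have h2 := rho_nonneg S p.1 p.2
      linarith
    rw [this]
    exact MeasurableSet.empty
  · have : (fun p : X × X => rho S p.1 p.2) ⁻¹' Iic t =
        ⋂ (m : ℕ), ⋂ (_ : 1 ≤ m), ⋂ (_ : t < (1 / 2 : ℝ) ^ (m - 1)),
          {p : X × X | Rr S (2 * m) p.1 p.2} := by
      ext p
      simp only [mem_preimage, mem_Iic, mem_iInter]
      constructor
      · intro h m hm htm
        have h1 : rho S p.1 p.2 < (1 / 2 : ℝ) ^ (m - 1) := lt_of_le_of_lt h htm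
        apply (rho_le_iff hF mF hm).mp
        rcases rho_values S p.1 p.2 with h0 | ⟨j, hj⟩
        · rw [h0]
          positivity
        · rw [hj] at h1 ⊢
          have h2 : m - 1 < j :=
            (pow_lt_pow_iff_right_of_lt_one₀ (by norm_num) (by norm_num)).mp h1
          exact pow_le_pow_of_le_one (by norm_num) (by norm_num) (by omega)
      · intro h
        by_contra hlt
        have hlt' : t < rho S p.1 p.2 := not_le.mp hlt
        rcases rho_values S p.1 p.2 with h0 | ⟨j, hj⟩
        · rw [h0] at hlt'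
          linarith
        · have h1 : rho S p.1 p.2 ≤ (1 / 2 : ℝ) ^ (j + 1) :=
            (rho_le_iff hF mF (Nat.succ_le_succ (Nat.zero_le j))).mpr
              (h (j + 1) (Nat.succ_le_succ (Nat.zero_le j)) (by
                rw [Nat.add_sub_cancel, ← hj]
                exact hlt'))
          rw [hj, pow_succ] at h1
          have h2 : (0 : ℝ) < (1 / 2 : ℝ) ^ j := by positivity
          linarith
    rw [this]
    exact MeasurableSet.iInter fun m => MeasurableSet.iInter fun _ => MeasurableSet.iInter fun _ =>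
      mR hF mF S (2 * m)

end Pool.Agent.H93.EO
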