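import Pool.Agent.H93.EO.Smm
set_option autoImplicit false

/-!
# H93/EO/SmCt: the sets `Ct`, `Y0`

* `gen_Ct`: `bp` for `P n` and for its complement (`nat`): for generic `y` there is `l` with
  `y ∈ H l x`, `gen x (u ∈ H l x → (u ∈ P n ↔ y ∈ P n))`; `V_base` gives `k`; `inv`, `mono`.
* `mCt`: `cq` with `P = X`, `π = id`: `{q | q.2 ∈ V k q.1 → (q.2 ∈ P n ↔ q.1 ∈ P n)}`.
* `ct_eq`: `a, b ∈ Ct`, `b ∈ V k a` where `gen a (u ∈ V k a → (u ∈ P n ↔ a ∈ P n))` implies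
  `b ∈ P n ↔ a ∈ P n`: take `k'` for `b`; `V k a ∩ V k' b` is open at `a` and contains `b`
  (`V_op`, `op_inter`, `V_self`); a generic `u` in it (`gen_exists`, `gen_and`, `inv`) satisfies
  `u ∈ P n ↔ a ∈ P n` and `u ∈ P n ↔ b ∈ P n`.
* `mY0`, `gen_Y0`: `lev_good` (`mD`, `gD`), `nat`, and the above.
-/

namespace Pool.Agent.H93.EO

open Set

variable {X : Type} [MeasurableSpace X] {F : X → X → Prop}

theorem gen_Ct [StandardBorelSpace X] (hF : Equivalence F)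
    (mF : MeasurableSet {p : X × X | F p.1 p.2}) (S : GenStr X F) {P : ℕ → Set X}
    (hP : ∀ n, MeasurableSet (P n)) (x : X) : S.gen x fun y => y ∈ Ct S P := by
  have h1 : S.gen x fun y => ∀ n, (y ∈ P n → ∃ l, y ∈ S.H l x ∧
      S.gen x fun z => z ∈ S.H l x → z ∈ P n) := S.nat x _ fun n => S.bp x (P n) (hP n)
  have h2 : S.gen x fun y => ∀ n, (y ∈ (P n)ᶜ → ∃ l, y ∈ S.H l x ∧
      S.gen x fun z => z ∈ S.H l x → z ∈ (P n)ᶜ) :=
    S.nat x _ fun n => S.bp x (P n)ᶜ (hP n).compl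
  refine S.mono x _ _ ?_ (gen_and h1 h2)
  rintro y hxy ⟨g1, g2⟩ n
  obtain ⟨l, hl, hg⟩ : ∃ l, y ∈ S.H l x ∧
      S.gen x fun z => z ∈ S.H l x → (z ∈ P n ↔ y ∈ P n) := by
    by_cases hy : y ∈ P n
    · obtain ⟨l, h3, h4⟩ := g1 n hy
      exact ⟨l, h3, S.mono x _ _ (fun z _ hz hzl => ⟨fun _ => hy, fun _ => hz hzl⟩) h4⟩
    · obtain ⟨l, h3, h4⟩ := g2 n hy
      exact ⟨l, h3, S.mono x _ _
        (fun z _ hz hzl => ⟨fun h => absurd h (hz hzl), fun h => absurd h hy⟩) h4⟩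
  obtain ⟨k, hk⟩ := V_base hF (op_H S l x) hl
  exact ⟨k, S.inv x y _ hxy (S.mono x _ _ (fun z _ hz hzk => hz (hk hzk)) hg)⟩

theorem mCt [StandardBorelSpace X] (hF : Equivalence F)
    (mF : MeasurableSet {p : X × X | F p.1 p.2}) (S : GenStr X F) {P : ℕ → Set X}
    (hP : ∀ n, MeasurableSet (P n)) : MeasurableSet (Ct S P) := by
  have h : ∀ n k, MeasurableSet {y : X | S.gen y fun u =>
      u ∈ V S k y → (u ∈ P n ↔ y ∈ P n)} := by
    intro n k
    refine S.cq X id measurable_id (fun y u => u ∈ V S k y → (u ∈ P n ↔ y ∈ P n)) ?_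
    have e : {q : X × X | q.2 ∈ V S k q.1 → (q.2 ∈ P n ↔ q.1 ∈ P n)} =
        {p : X × X | p.2 ∈ V S k p.1}ᶜ ∪ ((Prod.snd ⁻¹' P n ∩ Prod.fst ⁻¹' P n) ∪
          ((Prod.snd ⁻¹' P n)ᶜ ∩ (Prod.fst ⁻¹' P n)ᶜ)) := by
      ext q
      simp only [mem_setOf_eq, mem_union, mem_compl_iff, mem_inter_iff, mem_preimage]
      tauto
    rw [e]
    exact (mV mF S k).compl.union (((measurable_snd (hP n)).inter (measurable_fst (hP n))).union
      ((measurable_snd (hP n)).compl.inter (measurable_fst (hP n)).compl))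
  have e : Ct S P = ⋂ n, ⋃ k, {y : X | S.gen y fun u =>
      u ∈ V S k y → (u ∈ P n ↔ y ∈ P n)} := by
    ext y
    simp only [Ct, mem_setOf_eq, mem_iInter, mem_iUnion]
  rw [e]
  exact MeasurableSet.iInter fun n => MeasurableSet.iUnion fun k => h n k

theorem ct_eq (hF : Equivalence F) {S : GenStr X F} {P : ℕ → Set X} {a b : X} {n k : ℕ}
    (ha : S.gen a fun u => u ∈ V S k a → (u ∈ P n ↔ a ∈ P n)) (hb : b ∈ Ct S P)
    (hab : b ∈ V S k a) : b ∈ P n ↔ a ∈ P n := by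
  obtain ⟨k', hk'⟩ := hb n
  have hab' : F a b := V_F hab
  have hO : Op S a (V S k a ∩ V S k' b) :=
    op_inter (V_op hF S k (hF.refl a)) (V_op hF S k' hab')
  have hg : S.gen a fun u => (u ∈ V S k a → (u ∈ P n ↔ a ∈ P n)) ∧
      (u ∈ V S k' b → (u ∈ P n ↔ b ∈ P n)) :=
    gen_and ha (S.inv b a _ (hF.symm hab') hk')
  obtain ⟨u, hu, h1, h2⟩ := gen_exists hg hO ⟨b, hab, V_self hF S k' b⟩
  exact (h2 hu.2).symm.trans (h1 hu.1)

theorem mY0 [StandardBorelSpace X] (hF : Equivalence F)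
    (mF : MeasurableSet {p : X × X | F p.1 p.2}) (S : GenStr X F) {P : ℕ → Set X}
    (hP : ∀ n, MeasurableSet (P n)) : MeasurableSet (Y0 S P) := by
  have e : Y0 S P = (⋂ m, (lev S m).D) ∩ (Sm S ∩ Ct S P) := by
    ext y
    simp only [Y0, mem_setOf_eq, mem_inter_iff, mem_iInter]
  rw [e]
  exact (MeasurableSet.iInter fun m => (lev_good hF mF S m).mD).inter
    ((mSm hF mF S).inter (mCt hF mF S hP))

theorem gen_Y0 [StandardBorelSpace X] (hF : Equivalence F)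
    (mF : MeasurableSet {p : X × X | F p.1 p.2}) (S : GenStr X F) {P : ℕ → Set X}
    (hP : ∀ n, MeasurableSet (P n)) (x : X) : S.gen x fun y => y ∈ Y0 S P := by
  exact gen_and3 (S.nat x _ fun m => (lev_good hF mF S m).gD x) (gen_Sm hF mF S x)
    (gen_Ct hF mF S hP x)

end Pool.Agent.H93.EO
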