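import Pool.Agent.H93.EO.RhoA2
import Pool.Agent.H93.EO.SmCt
set_option autoImplicit false

/-!
# H93/EO/RhoB: `rho` and the topology of the classes

* `rho_usc`: upper semicontinuity in the second variable. If `rho a b = 1` (or `≥ 1`) any `k` works by
  `rho_le_one` (`rho a b' ≤ 1 < 1 + ε`). Otherwise (`rho_values`): if `rho a b = (1/2)^m` with `m ≥ 1` take this `m`; if `rho a b = 0` take `m ≥ 1` with
  `(1/2)^m < ε`. In both cases `rho a b ≤ (1/2)^m < rho a b + ε`. `Rr (2m) a b` (`rho_le_iff`), so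
  `R_open` gives `k` with `Rr (2m) a b'` for `b' ∈ V k b`: `rho a b' ≤ (1/2)^m`.
* `rho_small`: (for N1) `y ∈ D_m` for all `m`, `ε > 0`: `m ≥ 1` with `(1/2)^m < ε`; `W_{2m+1} y` is open
  and contains `y`; `V_base` gives `k` with `V k y ⊆ W_{2m+1} y`; `R_nbhd` gives `Rr (2m) y b`.
* `rho_big`: (for N2) `small` gives `m0` with `Rr m0 y b → b ∈ V n y`; take `m = m0 + 1`,
  `ε = (1/2)^m`: `rho y b ≤ (1/2)^m` gives `Rr (2m) y b`, `R_anti` gives `Rr m0 y b`.
* `rho_eq_imp`: for `y ∈ Sm`, `y, b ∈ Ct`: `rho y b = 0` gives `b ∈ V k y` for all `k`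
  (`rho_eq_zero`, `small`), so `b ∈ P n ↔ y ∈ P n` by `ct_eq`.
-/

namespace Pool.Agent.H93.EO

open Set

variable {X : Type} [MeasurableSpace X] {F : X → X → Prop}

theorem rho_usc [StandardBorelSpace X] (hF : Equivalence F)
    (mF : MeasurableSet {p : X × X | F p.1 p.2}) (S : GenStr X F) (a b : X) {ε : ℝ}
    (hε : 0 < ε) : ∃ k, ∀ b' ∈ V S k b, rho S a b' < rho S a b + ε := by
  by_cases h1 : rho S a b = 1
  · exact ⟨0, fun b' _ => by have := rho_le_one S a b'; linarith⟩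
  · obtain ⟨m, hm1, hm2, hm3⟩ : ∃ m : ℕ, 1 ≤ m ∧ rho S a b ≤ (1 / 2 : ℝ) ^ m ∧
        (1 / 2 : ℝ) ^ m < rho S a b + ε := by
      rcases rho_values S a b with h0 | ⟨m, hm⟩
      · obtain ⟨m, hm⟩ := exists_pow_lt_of_lt_one hε (by norm_num : (1 / 2 : ℝ) < 1)
        refine ⟨m + 1, by omega, ?_, ?_⟩
        · rw [h0]
          positivity
        · rw [h0, zero_add]
          exact lt_of_le_of_lt
            (pow_le_pow_of_le_one (by norm_num) (by norm_num) (Nat.le_succ m)) hm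
      · refine ⟨m, ?_, hm.le, by rw [hm]; linarith⟩
        rcases Nat.eq_zero_or_pos m with h | h
        · rw [h, pow_zero] at hm
          exact absurd hm h1
        · exact h
    obtain ⟨k, hk⟩ := R_open hF mF ((rho_le_iff hF mF hm1).1 hm2)
    exact ⟨k, fun b' hb' => lt_of_le_of_lt ((rho_le_iff hF mF hm1).2 (hk b' hb')) hm3⟩

theorem rho_small [StandardBorelSpace X] (hF : Equivalence F)
    (mF : MeasurableSet {p : X × X | F p.1 p.2}) {S : GenStr X F} {y : X}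
    (hy : ∀ m, y ∈ (lev S m).D) {ε : ℝ} (hε : 0 < ε) :
    ∃ k, ∀ b ∈ V S k y, rho S y b < ε := by
  obtain ⟨m, hm⟩ := exists_pow_lt_of_lt_one hε (by norm_num : (1 / 2 : ℝ) < 1)
  obtain ⟨k, hk⟩ := V_base hF (lev_op hF mF S (2 * (m + 1) + 1) (hF.refl y))
    ((lev_good hF mF S (2 * (m + 1) + 1)).self y (hy _))
  refine ⟨k, fun b hb => ?_⟩
  have h1 : rho S y b ≤ (1 / 2 : ℝ) ^ (m + 1) :=
    (rho_le_iff hF mF (by omega)).2 (R_nbhd hF mF (hy _) (hk hb))
  exact lt_of_le_of_lt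
    (h1.trans (pow_le_pow_of_le_one (by norm_num) (by norm_num) (Nat.le_succ m))) hm

theorem rho_big [StandardBorelSpace X] (hF : Equivalence F)
    (mF : MeasurableSet {p : X × X | F p.1 p.2}) {S : GenStr X F} {y : X} (hy : y ∈ Sm S)
    (n : ℕ) : ∃ ε : ℝ, 0 < ε ∧ ∀ b, rho S y b ≤ ε → b ∈ V S n y := by
  obtain ⟨m0, hm0⟩ := small hF mF hy n
  refine ⟨(1 / 2 : ℝ) ^ (m0 + 1), by positivity, fun b hb => hm0 b ?_⟩
  exact R_anti hF mF (by omega) ((rho_le_iff hF mF (by omega)).1 hb)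

theorem rho_eq_imp [StandardBorelSpace X] (hF : Equivalence F)
    (mF : MeasurableSet {p : X × X | F p.1 p.2}) {S : GenStr X F} {P : ℕ → Set X} {y b : X}
    (hy : y ∈ Sm S) (hy' : y ∈ Ct S P) (hb : b ∈ Ct S P) (h : rho S y b = 0) (n : ℕ) :
    b ∈ P n ↔ y ∈ P n := by
  have h1 := (rho_eq_zero hF mF).1 h
  obtain ⟨k, hk⟩ := hy' n
  obtain ⟨m, hm⟩ := small hF mF hy k
  exact ct_eq hF hk hb (hm b (h1 m))

end Pool.Agent.H93.EO
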