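import Pool.Agent.H93.EO.ClsTop
import Pool.Agent.H93.EO.MeasDist
set_option autoImplicit false

/-!
# H93/EO/RngM: the image of a class is Borel (Lusin-Souslin)

Give `Cls M x = {y : X // y ∈ Y ∧ F x y}` the subtype sigma-algebra; the set `{y | y ∈ Y ∧ F x y}` is
measurable (`mY`, `mF`), so this is a standard Borel space (`MeasurableSet.standardBorel`).
`w i = j (cpt M x i)` has dense range (`cpt_dense`, `hd`, `hj.continuous`), so `K` is separable, second
countable. `j` is measurable by `measurable_of_dist`: `dist (j y) (w i) = M.ρ y.1 (M.c i x)` is
measurable in `y` (`mρ` composed with `y ↦ (y.1, M.c i x)`). `j` is injective. So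
`Measurable.measurableEmbedding` and `MeasurableEmbedding.measurableSet_range`.
-/

namespace Pool.Agent.H93.EO

open Set Topology

variable {X : Type} [MeasurableSpace X] {F : X → X → Prop} {S : GenStr X F} {P : ℕ → Set X}

theorem measurable_range [StandardBorelSpace X] (hF : Equivalence F)
    (mF : MeasurableSet {p : X × X | F p.1 p.2}) (M : MetStr S P) (x : X) {K : Type}
    [MetricSpace K] [MeasurableSpace K] [BorelSpace K] {j : Cls M x → K} (hj : Isometry j)
    (hd : DenseRange j) : MeasurableSet (range j) := by
  have hw : DenseRange (fun i => j (cpt M x i)) := hd.comp (cpt_dense hF M x) hj.continuous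
  have : TopologicalSpace.SeparableSpace K := hw.separableSpace continuous_of_discreteTopology
  have : SecondCountableTopology K := UniformSpace.secondCountable_of_separable K
  let _ : MeasurableSpace (Cls M x) :=
    (inferInstance : MeasurableSpace {y : X // y ∈ M.Y ∧ F x y})
  have hs : MeasurableSet {y : X | y ∈ M.Y ∧ F x y} :=
    M.mY.inter (mF.preimage (measurable_const.prodMk measurable_id))
  have : StandardBorelSpace (Cls M x) := hs.standardBorel
  have hjm : Measurable j := by
    apply measurable_of_dist (fun i => j (cpt M x i)) hw
    intro i
    have h1 : (fun y : Cls M x => dist (j y) (j (cpt M x i))) =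
        fun y : Cls M x => M.ρ y.1 (M.c i x) := by
      funext y
      rw [hj.dist_eq]
      rfl
    rw [h1]
    exact M.mρ.comp (measurable_subtype_coe.prodMk measurable_const)
  exact (hjm.measurableEmbedding hj.injective).measurableSet_range

end Pool.Agent.H93.EO
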