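import Pool.Agent.H93.EO.GenRes
import Pool.Agent.H93.EO.RngM
set_option autoImplicit false

/-!
# H93/EO/RngR: the image of a class is comeager

`range j` is measurable (`measurable_range`), so it has the Baire property:
`MeasurableSet.baireMeasurableSet`, `BaireMeasurableSet.residualEq_isOpen`: an open set `U` with
`range j =ᵇ U`, that is `A = {w | w ∈ range j ↔ w ∈ U}` is residual. By `gen_residual` for
generic `y` of the class: if `y ∈ Y` (and `F x y`) then `j y ∈ A`, so `j y ∈ U`.
`U` is dense: otherwise (`hd`) there is `b : Cls M x` with `j b ∈ (closure U)ᶜ`, open; `cls_open` gives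
`n` with `b.1 ∈ H n x` and `j b' ∉ U` for all `b'` with `b'.1 ∈ H n x`; `gen_exists` for the open
nonempty set `H n x` with the generic properties `y ∈ Y`, `j y ∈ U`: contradiction.
So `U` is open and dense, hence residual (`residual_of_dense_open`), and `range j` is residual:
`A ∩ U ⊆ range j`.
-/

namespace Pool.Agent.H93.EO

open Set Topology

variable {X : Type} [MeasurableSpace X] {F : X → X → Prop} {S : GenStr X F} {P : ℕ → Set X}

theorem residual_range [StandardBorelSpace X] (hF : Equivalence F)
    (mF : MeasurableSet {p : X × X | F p.1 p.2}) (M : MetStr S P) (x : X) {K : Type}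
    [MetricSpace K] [MeasurableSpace K] [BorelSpace K] {j : Cls M x → K} (hj : Isometry j)
    (hd : DenseRange j) : range j ∈ residual K := by
  have hm := measurable_range hF mF M x hj hd
  obtain ⟨U, hU, hUeq⟩ := hm.residualEq_isOpen
  have hA : {w | w ∈ range j ↔ w ∈ U} ∈ residual K := Filter.eventuallyEq_set.mp hUeq
  have hg := gen_residual hF M x hj hd hA
  have hdU : Dense U := by
    by_contra hnd
    have hne : ((closure U)ᶜ).Nonempty := by
      rw [nonempty_compl]
      intro h
      exact hnd (dense_iff_closure_eq.mpr h)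
    obtain ⟨b, hb⟩ := hd.exists_mem_open isClosed_closure.isOpen_compl hne
    obtain ⟨n, hn, hnb⟩ := cls_open hF M x
      (isClosed_closure.isOpen_compl.preimage hj.continuous) hb
    obtain ⟨z, hz, hz1, hz2⟩ := gen_exists (gen_and (M.gY x) hg) (op_H S n x) ⟨b.1, hn⟩
    have hFz : F x z := S.sub n x z hz
    have h4 : j ⟨z, hz1, hFz⟩ ∈ U := (hz2 ⟨hz1, hFz⟩).mp (mem_range_self _)
    exact hnb ⟨z, hz1, hFz⟩ hz (subset_closure h4)
  have hUr : U ∈ residual K := residual_of_dense_open hU hdU
  filter_upwards [hA, hUr] with w h1 h2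
  exact h1.mpr h2

end Pool.Agent.H93.EO
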