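import Pool.Agent.H93.EO.Def3
set_option autoImplicit false

/-!
# H93/EO/SameA: common realisation with dense sequences

`SameCode` gives `M, c, c'`. As `a 0 = a' 0 = univ`: `closure (range c) = closure (range c')`
(`image_univ`). Let `K` be this closed set as a subtype, with the induced metric; `c, c'` are maps
into `K` with dense range (`DenseRange`, `closure_subtype` / `Subtype.dense_iff`), and the closures
in `K` of `c '' a n` and `c' '' a' n` agree, because closure in a subtype is the preimage of the
closure (`closure_subtype`, `closure_induced`).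
-/

namespace Pool.Agent.H93.EO

open Set Topology

theorem sameCode_dense {r r' : ℕ → ℕ → ℝ} {a a' : ℕ → Set ℕ} (h : SameCode r r' a a')
    (ha : a 0 = univ) (ha' : a' 0 = univ) :
    ∃ (K : Type) (_ : MetricSpace K) (c c' : ℕ → K), DenseRange c ∧ DenseRange c' ∧
      (∀ i j, dist (c i) (c j) = r i j) ∧ (∀ i j, dist (c' i) (c' j) = r' i j) ∧
      ∀ n, closure (c '' a n) = closure (c' '' a' n) := by
  obtain ⟨M, _, _, c, c', h1, h2, h3⟩ := h
  have h0 : closure (range c) = closure (range c') := by
    have := h3 0
    rwa [ha, ha', image_univ, image_univ] at this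
  have hc : ∀ i, c i ∈ closure (range c) := fun i => subset_closure (mem_range_self i)
  have hc' : ∀ i, c' i ∈ closure (range c) := fun i => h0 ▸ subset_closure (mem_range_self i)
  obtain ⟨e, he⟩ : ∃ e : ℕ → closure (range c), ∀ i, (e i : M) = c i :=
    ⟨fun i => ⟨c i, hc i⟩, fun _ => rfl⟩
  obtain ⟨e', he'⟩ : ∃ e' : ℕ → closure (range c), ∀ i, (e' i : M) = c' i :=
    ⟨fun i => ⟨c' i, hc' i⟩, fun _ => rfl⟩
  have hi : ∀ s : Set ℕ, (Subtype.val : closure (range c) → M) '' (e '' s) = c '' s := fun s => by
    rw [← image_comp]
    exact image_congr fun i _ => he i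
  have hi' : ∀ s : Set ℕ, (Subtype.val : closure (range c) → M) '' (e' '' s) = c' '' s :=
    fun s => by
      rw [← image_comp]
      exact image_congr fun i _ => he' i
  refine ⟨closure (range c), inferInstance, e, e', ?_, ?_, ?_, ?_, ?_⟩
  · refine Subtype.dense_iff.mpr ?_
    rw [← image_univ (f := e), hi, image_univ]
  · refine Subtype.dense_iff.mpr ?_
    rw [← image_univ (f := e'), hi', image_univ, h0]
  · intro i j
    rw [Subtype.dist_eq, he, he]
    exact h1 i j
  · intro i j
    rw [Subtype.dist_eq, he', he']
    exact h2 i j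
  · intro n
    ext x
    rw [closure_subtype, closure_subtype, hi, hi', h3 n]

end Pool.Agent.H93.EO
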