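import Pool.Agent.H93.EO.RelB
set_option autoImplicit false

/-!
# H93/EO/Smm: the set `Sm`

* `gen_Sm`: fix `x`. For `l j : ℕ` let
  `E_{l,j} = {u | F x u ∧ ∀ i, e i x ∈ V j u → e i x ∈ H l x}`; measurable (`mF`, `mV`, `mH`, `me` with
  constant `x`); for `u` in it `V j u ⊆ H l x` (`incl` at `x`: `V_op`, `ro_H`). By `bp` and `nat` for
  generic `y` of the class: for all `l, j`: `y ∈ E_{l,j} → ∃ p, y ∈ H p x ∧
  gen x (u ∈ H p x → u ∈ E_{l,j})`. Such a `y` (with `F x y`) is in `Sm`: let `n : ℕ`; `V n y` is open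
  at `x` and contains `y`: `l` with `y ∈ H l x ⊆ V n y`; `V_base` gives `j` with `V j y ⊆ H l x`, so
  `y ∈ E_{l,j}`; take `p`; `k` with `V k y ⊆ H p x` (`V_base`). Then
  `gen y (u ∈ V k y → V j u ⊆ V n y)` by `inv`, `mono`.
* `mSm`: `Sm = ⋂_n ⋃_j ⋃_k {y | gen y (u ∈ V k y → V j u ⊆ V n y)}`; field `cq` with `P = X`,
  `π = id`; for `u ∈ V k y`: `V j u ⊆ V n y ↔ ∀ i, e i y ∈ V j u → e i y ∈ V n y` (`incl` at `y`).
-/

namespace Pool.Agent.H93.EO

open Set

variable {X : Type} [MeasurableSpace X] {F : X → X → Prop}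

theorem gen_Sm [StandardBorelSpace X] (hF : Equivalence F)
    (mF : MeasurableSet {p : X × X | F p.1 p.2}) (S : GenStr X F) (x : X) :
    S.gen x fun y => y ∈ Sm S := by
  obtain ⟨E, hE⟩ : ∃ E : ℕ → ℕ → Set X, E = fun l j =>
      {u | F x u} ∩ ⋂ i, {u | S.e i x ∈ V S j u → S.e i x ∈ S.H l x} := ⟨_, rfl⟩
  have hmem : ∀ l j u, u ∈ E l j ↔ F x u ∧ ∀ i, S.e i x ∈ V S j u → S.e i x ∈ S.H l x := by
    intro l j u
    rw [hE, mem_inter_iff, mem_iInter]
    rfl
  have mE : ∀ l j, MeasurableSet (E l j) := by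
    intro l j
    rw [hE]
    refine MeasurableSet.inter (measurable_const.prodMk measurable_id mF) ?_
    refine MeasurableSet.iInter fun i => ?_
    by_cases h : S.e i x ∈ S.H l x
    · have e1 : {u | S.e i x ∈ V S j u → S.e i x ∈ S.H l x} = univ := by
        ext u
        simp only [mem_ofPred_eq, mem_univ, iff_true]
        exact fun _ => h
      rw [e1]
      exact MeasurableSet.univ
    · have e1 : {u | S.e i x ∈ V S j u → S.e i x ∈ S.H l x} = {u | S.e i x ∈ V S j u}ᶜ := by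
        ext u
        simp only [mem_ofPred_eq, mem_compl_iff]
        exact ⟨fun h1 h2 => h (h1 h2), fun h1 h2 => absurd h2 h1⟩
      rw [e1]
      refine MeasurableSet.compl ?_
      exact measurable_id.prodMk measurable_const (mV mF S j)
  have hsub : ∀ l j u, u ∈ E l j → V S j u ⊆ S.H l x := by
    intro l j u hu
    rw [hmem] at hu
    exact incl (V_op hF S j hu.1) (ro_H S l x) hu.2
  have h1 : S.gen x fun y => ∀ l j, y ∈ E l j → ∃ n, y ∈ S.H n x ∧
      S.gen x fun z => z ∈ S.H n x → z ∈ E l j :=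
    S.nat x _ fun l => S.nat x _ fun j => S.bp x (E l j) (mE l j)
  refine S.mono x _ _ ?_ h1
  intro y hxy hy n
  obtain ⟨l, hl1, hl2⟩ := (V_op hF S n hxy).2 y (V_self hF S n y)
  obtain ⟨j, hj⟩ := V_base hF (op_H S l x) hl1
  have hyE : y ∈ E l j := by
    rw [hmem]
    exact ⟨hxy, fun i hi => hj hi⟩
  obtain ⟨p, hp1, hp2⟩ := hy l j hyE
  obtain ⟨k, hk⟩ := V_base hF (op_H S p x) hp1
  refine ⟨j, k, ?_⟩
  refine S.mono y _ _ ?_ (S.inv x y _ hxy hp2)
  intro u _ hu huV
  exact (hsub l j u (hu (hk huV))).trans hl2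

theorem mSm [StandardBorelSpace X] (hF : Equivalence F)
    (mF : MeasurableSet {p : X × X | F p.1 p.2}) (S : GenStr X F) : MeasurableSet (Sm S) := by
  have e0 : Sm S = ⋂ n, ⋃ j, ⋃ k, {y | S.gen y fun u => u ∈ V S k y → V S j u ⊆ V S n y} := by
    ext y
    simp only [mem_iInter, mem_iUnion]
    rfl
  rw [e0]
  refine MeasurableSet.iInter fun n => MeasurableSet.iUnion fun j => MeasurableSet.iUnion fun k => ?_
  refine S.cq X (fun y => y) measurable_id (fun y u => u ∈ V S k y → V S j u ⊆ V S n y) ?_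
  have e1 : {q : X × X | q.2 ∈ V S k q.1 → V S j q.2 ⊆ V S n q.1} =
      {q : X × X | q.2 ∈ V S k q.1}ᶜ ∪
        ⋂ i, ({q : X × X | S.e i q.1 ∈ V S j q.2}ᶜ ∪ {q : X × X | S.e i q.1 ∈ V S n q.1}) := by
    ext ⟨y, u⟩
    simp only [mem_ofPred_eq, mem_union, mem_compl_iff, mem_iInter]
    constructor
    · intro h
      by_cases hu : u ∈ V S k y
      · refine Or.inr fun i => ?_
        by_cases hi : S.e i y ∈ V S j u
        · exact Or.inr (h hu hi)
        · exact Or.inl hi
      · exact Or.inl hu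
    · intro h hu
      rcases h with h | h
      · exact absurd hu h
      · refine incl (V_op hF S j (V_F hu)) (V_ro S n y) fun i hi => ?_
        rcases h i with h' | h'
        · exact absurd hi h'
        · exact h'
  rw [e1]
  refine MeasurableSet.union (mV mF S k).compl (MeasurableSet.iInter fun i => ?_)
  refine MeasurableSet.union (MeasurableSet.compl ?_) ?_
  · exact measurable_snd.prodMk ((S.me i).comp measurable_fst) (mV mF S j)
  · exact measurable_fst.prodMk ((S.me i).comp measurable_fst) (mV mF S n)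

end Pool.Agent.H93.EO
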