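import Pool.Agent.H93.EO.VL
set_option autoImplicit false

/-!
# H93/EO/StepGen: generic points belong to the next level

Let `Good S L`, `x : X`. For `n : ℕ` let
`D_n = {y | y ∈ L.D ∧ y ∈ H n x ∧ ∀ i, e i x ∈ H n x → e i x ∈ L.W y}`.
* `D_n` is measurable: `{y | y ∈ H n x}` is the preimage of `mH n` under `y ↦ (x, y)`, and
  `{y | e i x ∈ L.W y}` is the preimage of `hL.mW` under `y ↦ (y, e i x)`.
* `y ∈ D_n` implies `H n x ⊆ L.W y`: `incl` at `x`: `op_H`, and `RO S x (L.W y)` from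
  `hL.ro y : RO S y (L.W y)` and `ro_inv` (`F y x` because `y ∈ H n x`).
* every `y ∈ L.D` with `F x y` lies in some `D_n`: `L.W y` is open at `x` and contains `y`
  (`hL.self`): `n` with `y ∈ H n x ⊆ L.W y`.

`step_gen`: by `bp x D_n` for all `n` (`nat`), `hL.gD x`: for generic `z` of the class: `z ∈ L.D`, and
`z ∈ D_n → ∃ l, z ∈ H l x ∧ gen x (u ∈ H l x → u ∈ D_n)` for all `n`. Choose `n` with `z ∈ D_n`, then
`l`. By `V_base_ge` (applied to `H n x ∩ H l x`, `op_inter`, `op_H`) there is `k ≥ m` with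
`V k z ⊆ H n x ∩ H l x`. Then `Q S L k z`: by `inv` and `mono` from `gen x (u ∈ H l x → u ∈ D_n)`:
for `u ∈ V k z`: `u ∈ H l x`, so `u ∈ D_n`, so `u ∈ L.D` and `V k z ⊆ H n x ⊆ L.W u`.
-/

namespace Pool.Agent.H93.EO

open Set

variable {X : Type} [MeasurableSpace X] {F : X → X → Prop}

theorem step_gen (hF : Equivalence F) {S : GenStr X F} {L : Lev X} (hL : Good S L) (m : ℕ)
    (x : X) : S.gen x fun y => y ∈ (step S m L).D := by
  have hmeas : ∀ n, MeasurableSet {y | y ∈ L.D ∧ y ∈ S.H n x ∧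
      ∀ i, S.e i x ∈ S.H n x → S.e i x ∈ L.W y} := by
    intro n
    have h1 : MeasurableSet {y | y ∈ S.H n x} :=
      (measurable_prodMk_left (x := x)) (S.mH n)
    have h2 : MeasurableSet {y | ∀ i, S.e i x ∈ S.H n x → S.e i x ∈ L.W y} := by
      have : {y | ∀ i, S.e i x ∈ S.H n x → S.e i x ∈ L.W y}
          = ⋂ i, {y | S.e i x ∈ S.H n x → S.e i x ∈ L.W y} := by
        ext y; simp
      rw [this]
      refine MeasurableSet.iInter fun i => ?_
      by_cases hi : S.e i x ∈ S.H n x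
      · have : {y | S.e i x ∈ S.H n x → S.e i x ∈ L.W y} = {y | S.e i x ∈ L.W y} := by
          ext y; simp [hi]
        rw [this]
        exact (measurable_prodMk_right (y := S.e i x)) hL.mW
      · have : {y | S.e i x ∈ S.H n x → S.e i x ∈ L.W y} = univ := by
          ext y; simp [hi]
        rw [this]
        exact MeasurableSet.univ
    exact hL.mD.inter (h1.inter h2)
  have hsub : ∀ n y, (y ∈ L.D ∧ y ∈ S.H n x ∧ ∀ i, S.e i x ∈ S.H n x → S.e i x ∈ L.W y) →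
      S.H n x ⊆ L.W y := by
    intro n y hy
    have hyx : F y x := hF.symm (S.sub n x y hy.2.1)
    exact incl (op_H S n x) (ro_inv hF hyx (hL.ro y)) hy.2.2
  refine S.mono x _ _ ?_ (gen_and (hL.gD x) (S.nat x _ fun n => S.bp x _ (hmeas n)))
  rintro z hxz ⟨hzD, hz⟩
  have hzx : F z x := hF.symm hxz
  obtain ⟨n, hzn, hn⟩ := (op_inv hF hzx (hL.ro z).1).2 z (hL.self z hzD)
  obtain ⟨l, hzl, hl⟩ := hz n ⟨hzD, hzn, fun i hi => hn hi⟩
  obtain ⟨k, hmk, hk⟩ := V_base_ge hF (op_inter (op_H S n x) (op_H S l x)) ⟨hzn, hzl⟩ m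
  refine ⟨hzD, k, hmk, ?_⟩
  refine S.inv x z _ hxz (S.mono x _ _ ?_ hl)
  intro u _ hu huV
  have h1 := hu (hk huV).2
  exact ⟨h1.1, fun w hw => hsub n u h1 (hk hw).1⟩

end Pool.Agent.H93.EO
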