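import Pool.Agent.H93.EO.EPm
import Pool.Agent.H93.EO.EMap
set_option autoImplicit false

/-!
# H93/EO/Tow: the tower

* `isPM_dk` : induction with `isPM_dE` (`Tk A k` is nonempty: induction, `Sum.inl`).
* `denseIso_mapk` : induction with `denseIso_mapE`.
* `countable_Tk` : induction (`Sum`, `List`, `Prod` of countable types).
* `dk_lift` : `dk d l (lift h s) (lift h t) = dk d k s t`. Induction on `l` from `k`
  (`Nat.le_induction` or `Nat.leRec`), `Nat.leRecOn_succ`, `Nat.leRecOn_self`; the step is
  `dE (dk d l) (inl s) (inl t) = dk d l s t` by definition.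
* `lift_lift` : `Nat.leRecOn_trans`.
* `mapk_lift` : `mapk i l (lift h s) = lift h (mapk i k s)`, induction again.
-/

namespace Pool.Agent.H93.EO

open Set Topology

theorem nonempty_Tk (A : Type) [Nonempty A] (k : ℕ) : Nonempty (Tk A k) := by
  induction k with
  | zero => exact (inferInstance : Nonempty A)
  | succ k ih => exact ⟨Sum.inl ih.some⟩

theorem countable_Tk (A : Type) [Countable A] (k : ℕ) : Countable (Tk A k) := by
  induction k with
  | zero => exact (inferInstance : Countable A)
  | succ k ih => exact (inferInstance : Countable (Tk A k ⊕ List (Tk A k × ℚ)))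

theorem isPM_dk {A : Type} [Nonempty A] {d : A → A → ℝ} (h : IsPM d) (k : ℕ) :
    IsPM (dk d k) := by
  induction k with
  | zero => exact h
  | succ k ih =>
    have := nonempty_Tk A k
    exact isPM_dE ih

theorem denseIso_mapk {A B : Type} [Nonempty A] {dA : A → A → ℝ} {dB : B → B → ℝ}
    (hA : IsPM dA) (hB : IsPM dB) (i : A → B) (hi : DenseIso dA dB i) (k : ℕ) :
    DenseIso (dk dA k) (dk dB k) (mapk i k) := by
  have hB' : Nonempty B := ⟨i (Classical.arbitrary A)⟩
  induction k with
  | zero => exact hi
  | succ k ih =>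
    have := nonempty_Tk A k
    exact denseIso_mapE (isPM_dk hA k) (isPM_dk hB k) (mapk i k) ih

theorem lift_self {A : Type} {k : ℕ} (s : Tk A k) : lift le_rfl s = s :=
  Nat.leRecOn_self (C := Tk A) s

theorem lift_succ {A : Type} {k l : ℕ} (h : k ≤ l) (s : Tk A k) :
    lift (h.trans (Nat.le_succ l)) s = (Sum.inl (lift h s) : Tk A (l + 1)) :=
  Nat.leRecOn_succ (C := Tk A) h s

theorem dk_lift {A : Type} (d : A → A → ℝ) {k l : ℕ} (h : k ≤ l) (s t : Tk A k) :
    dk d l (lift h s) (lift h t) = dk d k s t := by
  induction l, h using Nat.le_induction with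
  | base => rw [lift_self, lift_self]
  | succ l h ih =>
    rw [lift_succ h s, lift_succ h t]
    exact ih

theorem lift_lift {A : Type} {k l m : ℕ} (h : k ≤ l) (h' : l ≤ m) (s : Tk A k) :
    lift h' (lift h s) = lift (h.trans h') s := by
  induction m, h' using Nat.le_induction with
  | base => rw [lift_self]
  | succ m h' ih =>
    rw [lift_succ h' (lift h s), ih, ← lift_succ (h.trans h') s]

theorem mapk_lift {A B : Type} (i : A → B) {k l : ℕ} (h : k ≤ l) (s : Tk A k) :
    mapk i l (lift h s) = lift h (mapk i k s) := by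
  induction l, h using Nat.le_induction with
  | base => rw [lift_self, lift_self]
  | succ l h ih =>
    rw [lift_succ h s, lift_succ h (mapk i k s), ← ih]
    rfl

end Pool.Agent.H93.EO
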